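import Pool.Agent.H882Z.SC.Defs

/-! The last step: from the five intermediate statements to an orientation-reversing
commensurating homeomorphism (problem MP_243a18_al). -/

set_option autoImplicit false

namespace Pool.Agent.H882Z.SC

open scoped Pointwise

/-! ### The cyclic order -/

lemma O_cyc {x y z : X} (h : O x y z) : O y z x := by
  unfold O at h ⊢
  have e : dt (ev y) (ev z) * dt (ev z) (ev x) * dt (ev x) (ev y)
      = dt (ev x) (ev y) * dt (ev y) (ev z) * dt (ev z) (ev x) := by ring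
  rw [e]; exact h

lemma O_asymm {x y z : X} (h : O x y z) (h' : O x z y) : False := by
  unfold O dt at h h'
  nlinarith [h, h']

lemma dt_eq_zero {x y : X} (h : dt (ev x) (ev y) = 0) : x = y := by
  induction x using OnePoint.rec with
  | infty =>
    induction y using OnePoint.rec with
    | infty => rfl
    | coe t => simp [ev, dt] at h
  | coe s =>
    induction y using OnePoint.rec with
    | infty => simp [ev, dt] at h
    | coe t =>
      simp only [ev, dt, OnePoint.elim_some, mul_one, one_mul] at h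
      have : s = t := by linarith
      rw [this]

lemma O_total {x y z : X} (hxy : x ≠ y) (hyz : y ≠ z) (hzx : z ≠ x) : O x y z ∨ O x z y := by
  have h1 : dt (ev x) (ev y) ≠ 0 := fun h => hxy (dt_eq_zero h)
  have h2 : dt (ev y) (ev z) ≠ 0 := fun h => hyz (dt_eq_zero h)
  have h3 : dt (ev z) (ev x) ≠ 0 := fun h => hzx (dt_eq_zero h)
  have h4 : dt (ev x) (ev y) * dt (ev y) (ev z) * dt (ev z) (ev x) ≠ 0 :=
    mul_ne_zero (mul_ne_zero h1 h2) h3
  have e : dt (ev x) (ev z) * dt (ev z) (ev y) * dt (ev y) (ev x)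
      = -(dt (ev x) (ev y) * dt (ev y) (ev z) * dt (ev z) (ev x)) := by
    unfold dt; ring
  rcases lt_or_gt_of_ne h4 with h | h
  · right; unfold O; rw [e]; linarith
  · left; exact h

lemma O_trans {p w u v : X} (h1 : O p w u) (h2 : O p u v) : O p w v := by
  unfold O at h1 h2 ⊢
  have key : dt (ev p) (ev u) ^ 2 * (dt (ev p) (ev w) * dt (ev w) (ev v) * dt (ev v) (ev p))
      = dt (ev p) (ev w) ^ 2 * (dt (ev p) (ev u) * dt (ev u) (ev v) * dt (ev v) (ev p))
        + dt (ev v) (ev p) ^ 2 * (dt (ev p) (ev w) * dt (ev w) (ev u) * dt (ev u) (ev p)) := by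
    unfold dt; ring
  have hw : dt (ev p) (ev w) ≠ 0 := by
    intro h; rw [h] at h1; simp at h1
  have hpos : 0 < dt (ev p) (ev u) ^ 2
      * (dt (ev p) (ev w) * dt (ev w) (ev v) * dt (ev v) (ev p)) := by
    rw [key]
    have a1 : 0 < dt (ev p) (ev w) ^ 2 := by positivity
    have a2 : 0 ≤ dt (ev v) (ev p) ^ 2 := sq_nonneg _
    have := mul_pos a1 h2
    have := mul_nonneg a2 h1.le
    linarith
  by_contra hneg
  have := mul_nonpos_of_nonneg_of_nonpos (sq_nonneg (dt (ev p) (ev u))) (not_lt.mp hneg)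
  linarith

/-- An order-preserving involution with a fixed point is the identity. -/
lemma inv_fixed {σ : X → X} (hσ : ∀ x, σ (σ x) = x)
    (hO : ∀ x y z, O x y z → O (σ x) (σ y) (σ z)) {p : X} (hp : σ p = p) (w : X) : σ w = w := by
  by_contra hw
  have h1 : p ≠ w := by rintro rfl; exact hw hp
  have h2 : σ w ≠ p := by
    intro h
    have := congrArg σ h
    rw [hσ, hp] at this
    exact h1 this.symm
  rcases O_total h1 (Ne.symm hw) h2 with h | h
  · have := hO _ _ _ h
    rw [hp, hσ] at this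
    exact O_asymm h this
  · have := hO _ _ _ h
    rw [hp, hσ] at this
    exact O_asymm h this

lemma klein_aux {a b : X → X} (ha : ∀ x, a (a x) = x) (hb : ∀ x, b (b x) = x)
    (hab : ∀ x, a (b x) = b (a x))
    (hOa : ∀ x y z, O x y z → O (a x) (a y) (a z))
    (hOb : ∀ x y z, O x y z → O (b x) (b y) (b z)) {x : X} (h : O x (a x) (b x)) : False := by
  have h1 := hOa _ _ _ h
  have h2 := hOb _ _ _ h
  rw [ha] at h1
  rw [hb, ← hab] at h2
  exact O_asymm (O_trans h (O_cyc (O_cyc h2))) (O_cyc h1)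

/-- No faithful order-preserving action of the Klein four-group. -/
lemma klein {a b : X → X} (ha : ∀ x, a (a x) = x) (hb : ∀ x, b (b x) = x)
    (hab : ∀ x, a (b x) = b (a x))
    (hOa : ∀ x y z, O x y z → O (a x) (a y) (a z))
    (hOb : ∀ x y z, O x y z → O (b x) (b y) (b z)) :
    (∀ x, a x = x) ∨ (∀ x, b x = x) ∨ (∀ x, a (b x) = x) := by
  by_cases h1 : a OnePoint.infty = OnePoint.infty
  · exact Or.inl (inv_fixed ha hOa h1)
  by_cases h2 : b OnePoint.infty = OnePoint.infty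
  · exact Or.inr (Or.inl (inv_fixed hb hOb h2))
  by_cases h3 : a (b OnePoint.infty) = OnePoint.infty
  · refine Or.inr (Or.inr (inv_fixed (σ := fun x => a (b x)) ?_ ?_ h3))
    · intro x
      show a (b (a (b x))) = x
      rw [← hab, ha, hb]
    · intro x y z h
      exact hOa _ _ _ (hOb _ _ _ h)
  exfalso
  have h4 : a OnePoint.infty ≠ b OnePoint.infty := by
    intro h
    apply h3
    rw [← h, ha]
  rcases O_total (Ne.symm h1) h4 h2 with h | h
  · exact klein_aux ha hb hab hOa hOb h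
  · exact klein_aux hb ha (fun x => (hab x).symm) hOb hOa h

/-! ### Group theory -/

lemma six_of_rel {Q : Type} [Group Q] {a b ρ : Q} (hb : b * b = 1)
    (hρ : a * ρ = ρ⁻¹ * a) (h3 : (ρ * b) ^ 3 = 1) (hc : a = 1 ∨ b = 1 ∨ a * b = 1) {x : Q}
    (hx : x ∈ Subgroup.closure ({ρ, b} : Set Q)) : x ^ 6 = 1 := by
  have hbi : b⁻¹ = b := inv_eq_of_mul_eq_one_right hb
  rcases hc with hc | hc | hc
  · subst hc
    have hρi : ρ⁻¹ = ρ := by simpa using hρ.symm
    have hρ2 : ρ * ρ = 1 := by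
      calc ρ * ρ = ρ⁻¹ * ρ := by rw [hρi]
        _ = 1 := inv_mul_cancel ρ
    obtain ⟨c, hc⟩ : ∃ c, c = ρ * b := ⟨_, rfl⟩
    rw [← hc] at h3
    have hbc : b = ρ * c := by rw [hc, ← mul_assoc, hρ2, one_mul]
    have hconj : ρ * c * ρ⁻¹ = c⁻¹ := by
      rw [hc, mul_inv_rev, hbi, ← mul_assoc, hρ2, one_mul]
    have hconjk : ∀ k : ℤ, ρ * c ^ k * ρ⁻¹ = c ^ (-k) := by
      intro k
      rw [← conj_zpow, hconj, inv_zpow']
    have hswap : ∀ k : ℤ, c ^ k * ρ = ρ * c ^ (-k) := by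
      intro k
      have := hconjk (-k)
      rw [neg_neg, hρi] at this
      rw [← this, mul_assoc, hρ2, mul_one]
    have hform : ∃ k : ℤ, x = c ^ k ∨ x = ρ * c ^ k := by
      induction hx using Subgroup.closure_induction with
      | mem y hy =>
        rcases hy with rfl | rfl
        · exact ⟨0, Or.inr (by simp)⟩
        · exact ⟨1, Or.inr (by simpa using hbc)⟩
      | one => exact ⟨0, Or.inl (by simp)⟩
      | mul y z _ _ hy hz =>
        obtain ⟨k, rfl | rfl⟩ := hy <;> obtain ⟨l, rfl | rfl⟩ := hz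
        · exact ⟨k + l, Or.inl (by rw [zpow_add])⟩
        · exact ⟨-k + l, Or.inr (by rw [← mul_assoc, hswap, zpow_add, mul_assoc])⟩
        · exact ⟨k + l, Or.inr (by rw [zpow_add, mul_assoc])⟩
        · refine ⟨-k + l, Or.inl ?_⟩
          rw [zpow_add]
          calc ρ * c ^ k * (ρ * c ^ l) = ρ * (c ^ k * ρ) * c ^ l := by group
            _ = ρ * (ρ * c ^ (-k)) * c ^ l := by rw [hswap]
            _ = (ρ * ρ) * c ^ (-k) * c ^ l := by group
            _ = c ^ (-k) * c ^ l := by rw [hρ2, one_mul]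
      | inv y _ hy =>
        obtain ⟨k, rfl | rfl⟩ := hy
        · exact ⟨-k, Or.inl (by rw [zpow_neg])⟩
        · refine ⟨k, Or.inr ?_⟩
          rw [mul_inv_rev, hρi, ← zpow_neg, hswap, neg_neg]
    obtain ⟨k, rfl | rfl⟩ := hform
    · have : (c ^ k) ^ 6 = ((c ^ 3) ^ 2) ^ k := by group
      rw [this, h3]; simp
    · have h2 : (ρ * c ^ k) ^ 2 = 1 := by
        calc (ρ * c ^ k) ^ 2 = ρ * (c ^ k * ρ) * c ^ k := by rw [sq]; group
          _ = ρ * (ρ * c ^ (-k)) * c ^ k := by rw [hswap]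
          _ = (ρ * ρ) * (c ^ (-k) * c ^ k) := by group
          _ = 1 := by rw [hρ2]; group
      have : (ρ * c ^ k) ^ 6 = ((ρ * c ^ k) ^ 2) ^ 3 := by rw [← pow_mul]
      rw [this, h2, one_pow]
  · subst hc
    rw [mul_one] at h3
    have hle : Subgroup.closure ({ρ, 1} : Set Q) ≤ Subgroup.zpowers ρ := by
      rw [Subgroup.closure_le]
      rintro y (rfl | rfl)
      · exact Subgroup.mem_zpowers _
      · exact Subgroup.one_mem _
    obtain ⟨k, rfl⟩ := Subgroup.mem_zpowers_iff.mp (hle hx)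
    have : (ρ ^ k) ^ 6 = ((ρ ^ 3) ^ 2) ^ k := by group
    rw [this, h3]; simp
  · have hab : a = b := by
      calc a = a * (b * b) := by rw [hb, mul_one]
        _ = b := by rw [← mul_assoc, hc, one_mul]
    subst hab
    have h2 : (ρ * a) ^ 2 = 1 := by
      calc (ρ * a) ^ 2 = ρ * (a * ρ) * a := by rw [sq]; group
        _ = ρ * (ρ⁻¹ * a) * a := by rw [hρ]
        _ = a * a := by group
        _ = 1 := hb
    have h1 : ρ * a = 1 := by
      have : (ρ * a) ^ 3 = (ρ * a) ^ 2 * (ρ * a) := pow_succ _ _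
      rw [h3, h2, one_mul] at this
      exact this.symm
    have hρa : ρ = a := by
      calc ρ = ρ * (a * a) := by rw [hb, mul_one]
        _ = a := by rw [← mul_assoc, h1, one_mul]
    subst hρa
    have hle : Subgroup.closure ({ρ, ρ} : Set Q) ≤ Subgroup.zpowers ρ := by
      rw [Subgroup.closure_le]
      rintro y (rfl | rfl) <;> exact Subgroup.mem_zpowers _
    obtain ⟨k, rfl⟩ := Subgroup.mem_zpowers_iff.mp (hle hx)
    have : (ρ ^ k) ^ 6 = ((ρ * ρ) ^ 3) ^ k := by rw [← sq]; group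
    rw [this, hb]; simp

/-- An element of `SL(2,ℝ)` acting trivially on the circle is `±1`. -/
lemma sq_eq_one_of_act {g : G} (h : ∀ z, act g z = z) : g ^ 2 = 1 := by
  have e : ∀ i j, (Matrix.SpecialLinearGroup.toGL g : GL (Fin 2) ℝ) i j = g i j := fun _ _ => rfl
  have hc : g 1 0 = 0 := by
    have := h OnePoint.infty
    unfold act at this
    rw [OnePoint.smul_infty_eq_self_iff, e] at this
    exact this
  have hdet : g 0 0 * g 1 1 = 1 := by
    have := g.det_coe
    rw [Matrix.det_fin_two] at this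
    have h0 : (g : Matrix (Fin 2) (Fin 2) ℝ) 1 0 = 0 := hc
    rw [h0] at this
    simpa using this
  have hd : g 1 1 ≠ 0 := by
    intro h0; rw [h0] at hdet; simp at hdet
  have hk : ∀ k : ℝ, g 0 0 * k + g 0 1 = k * g 1 1 := by
    intro k
    have := h (k : X)
    unfold act at this
    rw [OnePoint.smul_some_eq_ite] at this
    simp only [e, hc, zero_mul, zero_add, hd, if_false] at this
    have h2 := OnePoint.coe_eq_coe.mp this
    rwa [div_eq_iff hd] at h2
  have hb : g 0 1 = 0 := by simpa using hk 0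
  have ha : g 0 0 = g 1 1 := by simpa [hb] using hk 1
  have hd2 : g 1 1 * g 1 1 = 1 := by rw [ha] at hdet; exact hdet
  ext i j
  rw [sq]
  fin_cases i <;> fin_cases j <;>
    simp [Matrix.SpecialLinearGroup.coe_mul, Matrix.mul_apply, Fin.sum_univ_two, hc, hb, ha, hd2]

/-- A permutation that moves neighbours to neighbours moves each step in a finite set. -/
lemma steps_finite {Γ : Type} [Group Γ] {N : Finset Γ} (hN : Subgroup.closure (N : Set Γ) = ⊤)
    (R : Γ → Γ) (hR : ∀ g : Γ, ∀ u ∈ N, ∃ u' ∈ N, R (g * u) = R g * u') (s : Γ) :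
    ∃ F : Set Γ, F.Finite ∧ ∀ g, (R g)⁻¹ * R (g * s) ∈ F := by
  have hs : s ∈ Subgroup.closure (N : Set Γ) := by rw [hN]; trivial
  induction hs using Subgroup.closure_induction with
  | mem u hu =>
    refine ⟨N, N.finite_toSet, fun g => ?_⟩
    obtain ⟨u', hu', e⟩ := hR g u hu
    rw [e, inv_mul_cancel_left]
    exact hu'
  | one => exact ⟨{1}, Set.finite_singleton _, fun g => by simp⟩
  | mul s t _ _ hs ht =>
    obtain ⟨F1, hF1, h1⟩ := hs
    obtain ⟨F2, hF2, h2⟩ := ht
    refine ⟨F1 * F2, hF1.mul hF2, fun g => ?_⟩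
    have e : (R g)⁻¹ * R (g * (s * t))
        = ((R g)⁻¹ * R (g * s)) * ((R (g * s))⁻¹ * R (g * s * t)) := by
      rw [mul_assoc g s t]; group
    rw [e]
    exact Set.mul_mem_mul (h1 g) (h2 (g * s))
  | inv s _ hs =>
    obtain ⟨F1, hF1, h1⟩ := hs
    refine ⟨F1⁻¹, hF1.inv, fun g => ?_⟩
    have := h1 (g * s⁻¹)
    rw [inv_mul_cancel_right] at this
    rw [Set.mem_inv, mul_inv_rev, inv_inv]
    exact this

lemma coarse_of_steps {Γ : Subgroup G} (hfin : ∀ C : ℝ, {g : Γ | nrm (g : G) ≤ C}.Finite)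
    {N : Finset Γ} (hN : Subgroup.closure (N : Set Γ) = ⊤)
    (R : Γ → Γ) (hR : ∀ g : Γ, ∀ u ∈ N, ∃ u' ∈ N, R (g * u) = R g * u') : Coarse R := by
  intro C
  choose F hF hF' using steps_finite hN R hR
  have hU : (⋃ s ∈ {g : Γ | nrm (g : G) ≤ C}, F s).Finite :=
    (hfin C).biUnion (fun s _ => hF s)
  obtain ⟨C', hC'⟩ := (hU.image (fun g : Γ => nrm (g : G))).bddAbove
  refine ⟨C', fun g h hgh => ?_⟩
  apply hC'
  refine ⟨(R g)⁻¹ * R h, ?_, rfl⟩
  have := hF' (g⁻¹ * h) g
  rw [mul_inv_cancel_left] at this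
  exact Set.mem_biUnion (x := g⁻¹ * h) hgh this

/-- The subgroup of elements of `Γ` whose conjugate by `R` lies in the image of `Γ`. -/
def dom {Γ A : Type} [Group Γ] [Group A] (L : Γ →* A) (R : A) : Subgroup Γ :=
  L.range.comap ((MulAut.conj R).toMonoidHom.comp L)

lemma mem_dom {Γ A : Type} [Group Γ] [Group A] {L : Γ →* A} {R : A} {g : Γ} :
    g ∈ dom L R ↔ ∃ h : Γ, L h = R * L g * R⁻¹ := Iff.rfl

lemma dom_index {Γ A : Type} [Group Γ] [Group A] (L : Γ →* A) (hL : L.range.FiniteIndex)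
    (R : A) : (dom L R).index ≠ 0 := by
  unfold dom
  rw [Subgroup.index_comap]
  exact Subgroup.FiniteIndex.index_ne_zero (H := L.range.subgroupOf _)

lemma exists_equiv {Γ A : Type} [Group Γ] [Group A] (L : Γ →* A) (hL : Function.Injective L)
    (R : A) : ∃ φ : dom L R ≃* dom L R⁻¹, ∀ g : dom L R, L (φ g : Γ) = R * L (g : Γ) * R⁻¹ := by
  have hex : ∀ (S : A) (g : dom L S), ∃ h : dom L S⁻¹, L (h : Γ) = S * L (g : Γ) * S⁻¹ := by
    intro S g
    obtain ⟨h, hh⟩ := mem_dom.mp g.2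
    refine ⟨⟨h, mem_dom.mpr ⟨g, ?_⟩⟩, hh⟩
    rw [hh]; group
  choose f hf using hex R
  have hmul : ∀ g h, f (g * h) = f g * f h := by
    intro g h
    apply Subtype.ext
    apply hL
    rw [hf, Subgroup.coe_mul, Subgroup.coe_mul, map_mul, map_mul, hf, hf]
    group
  have hbij : Function.Bijective (MonoidHom.mk' f hmul) := by
    constructor
    · intro g h e
      have e' : f g = f h := e
      apply Subtype.ext
      apply hL
      have h1 := hf g
      rw [e', hf] at h1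
      have := mul_left_cancel (mul_right_cancel h1)
      exact this.symm
    · intro k
      obtain ⟨g, hg⟩ := mem_dom.mp k.2
      have hgm : g ∈ dom L R := mem_dom.mpr ⟨k, by rw [hg]; group⟩
      refine ⟨⟨g, hgm⟩, ?_⟩
      apply Subtype.ext
      apply hL
      show L (f ⟨g, hgm⟩ : Γ) = L k
      rw [hf]
      show R * L g * R⁻¹ = L k
      rw [hg]; group
  exact ⟨MulEquiv.ofBijective (MonoidHom.mk' f hmul) hbij, hf⟩

lemma comm_of_hom {Γ : Subgroup G} {A : Type} [Group A] (L : Γ →* A)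
    (hinj : Function.Injective L) (hL : L.range.FiniteIndex) (Ψ : A →* (X ≃ₜ X))
    (hΨ : ∀ (γ : Γ) (z : X), Ψ (L γ) z = act (γ : G) z) (R : A) : Comm Γ (Ψ R) := by
  obtain ⟨φ, hφ⟩ := exists_equiv L hinj R
  have hsub : ∀ H : Subgroup Γ, (H.map Γ.subtype).subgroupOf Γ = H := fun H =>
    Subgroup.comap_map_eq_self_of_injective Γ.subtype_injective H
  refine ⟨(dom L R).map Γ.subtype, (dom L R⁻¹).map Γ.subtype, Subgroup.map_subtype_le _,
    Subgroup.map_subtype_le _, ?_, ?_,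
    (((dom L R).equivMapOfInjective Γ.subtype Γ.subtype_injective).symm.trans φ).trans
      ((dom L R⁻¹).equivMapOfInjective Γ.subtype Γ.subtype_injective), ?_⟩
  · rw [hsub]; exact dom_index L hL R
  · rw [hsub]; exact dom_index L hL R⁻¹
  · intro g z
    obtain ⟨g0, rfl⟩ :=
      ((dom L R).equivMapOfInjective Γ.subtype Γ.subtype_injective).surjective g
    simp only [MulEquiv.trans_apply, MulEquiv.symm_apply_apply,
      Subgroup.coe_equivMapOfInjective_apply, Subgroup.coe_subtype]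
    rw [← hΨ, ← hΨ, hφ, ← Homeomorph.mul_apply, ← Homeomorph.mul_apply, ← map_mul, ← map_mul,
      inv_mul_cancel_right]

theorem rev (hP : ProperStmt) (hF : FloydStmt) (hD : DelStmt) (hM : MorseStmt)
    (hA : DartStmt) : RevStmt := by
  intro Γ hΓ
  obtain ⟨N, n, hT, hMo⟩ := hD Γ hΓ
  obtain ⟨hN, hU⟩ := hM Γ _ N n hT hMo (hP Γ hΓ)
  obtain ⟨A, _, π, L, a, b, ρ, hstep, hL, hfi, ha, hb, hab, hρ, h3, hgen⟩ := hA Γ N n hT hN hU
  obtain ⟨Φ, hΦ⟩ := hF Γ hΓ
  have hco : ∀ R : A, Coarse (π R : Γ → Γ) := fun R =>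
    coarse_of_steps (hP Γ hΓ) hN _ (hstep R)
  have hmem : ∀ R : A, π R ∈ CoarseSub Γ := by
    intro R
    refine ⟨hco R, ?_⟩
    have := hco R⁻¹
    rw [map_inv] at this
    exact this
  let Ψ : A →* (X ≃ₜ X) := Φ.comp (π.codRestrict (CoarseSub Γ) hmem)
  have hΨ : ∀ (γ : Γ) (z : X), Ψ (L γ) z = act (γ : G) z := fun γ z =>
    hΦ ⟨π (L γ), hmem _⟩ γ (hL γ) z
  have hinj : Function.Injective L := by
    intro γ δ e
    have h1 := hL γ 1
    rw [e, hL, mul_one, mul_one] at h1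
    exact h1.symm
  by_contra hcon
  have hO : ∀ (R : A) (x y z : X), O x y z → O (Ψ R x) (Ψ R y) (Ψ R z) := by
    intro R
    by_contra h
    exact hcon ⟨Ψ R, comm_of_hom L hinj hfi Ψ hΨ R, h⟩
  have hmul : ∀ (R S : A) (x : X), Ψ R (Ψ S x) = Ψ (R * S) x := by
    intro R S x
    rw [map_mul, Homeomorph.mul_apply]
  have hk := klein (a := Ψ a) (b := Ψ b) (fun x => by rw [hmul, ha, map_one]; rfl)
    (fun x => by rw [hmul, hb, map_one]; rfl) (fun x => by rw [hmul, hmul, hab]) (hO a) (hO b)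
  have hc : Ψ a = 1 ∨ Ψ b = 1 ∨ Ψ a * Ψ b = 1 := by
    rcases hk with h | h | h
    · exact Or.inl (Homeomorph.ext h)
    · exact Or.inr (Or.inl (Homeomorph.ext h))
    · exact Or.inr (Or.inr (Homeomorph.ext h))
  obtain ⟨γ, hγ⟩ := hT.nonempty
  have hx : Ψ (L γ) ∈ Subgroup.closure ({Ψ ρ, Ψ b} : Set (X ≃ₜ X)) := by
    have := Subgroup.mem_map_of_mem Ψ (hgen γ)
    rwa [MonoidHom.map_closure, Set.image_pair] at this
  have h6 := six_of_rel (a := Ψ a) (b := Ψ b) (ρ := Ψ ρ) (by rw [← map_mul, hb, map_one])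
    (by rw [← map_inv, ← map_mul, ← map_mul, hρ]) (by rw [← map_mul, ← map_pow, h3, map_one])
    hc hx
  have hact : ∀ z, act ((γ ^ 6 : Γ) : G) z = z := by
    intro z
    rw [← hΨ, map_pow, map_pow, h6]
    rfl
  have h12 := sq_eq_one_of_act hact
  rw [Subgroup.coe_pow, ← pow_mul] at h12
  have h1 : (γ : G) = 1 := hΓ.tf γ γ.2 _ (by norm_num) h12
  have h1' : γ = 1 := Subtype.ext h1
  exact hT.one_not_mem (h1' ▸ hγ)

end Pool.Agent.H882Z.SC
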