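import Pool.Agent.H882Z.SC.DelD
import Pool.Agent.H882Z.SC.Final

/-! The Möbius action as a `MulAction`, continuity, invariance of the cyclic order. -/

set_option autoImplicit false

open Filter Topology OnePoint

namespace Pool.Agent.H882Z.SC

lemma act_one (z : X) : act 1 z = z := by simp [act]
lemma act_mul (g h : G) (z : X) : act (g * h) z = act g (act h z) := by simp [act, mul_smul]

noncomputable scoped instance instAct : MulAction G X where
  smul := act
  one_smul := act_one
  mul_smul := act_mul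

lemma smul_def (g : G) (z : X) : g • z = act g z := rfl

lemma act_infty (g : G) : act g ∞ = if g 1 0 = 0 then ∞ else ((g 0 0 / g 1 0 : ℝ) : X) := by
  simp only [act]
  rw [OnePoint.smul_infty_eq_ite]
  rfl

lemma act_coe (g : G) (x : ℝ) : act g (x : X) =
    if g 1 0 * x + g 1 1 = 0 then ∞ else (((g 0 0 * x + g 0 1) / (g 1 0 * x + g 1 1) : ℝ) : X) := by
  simp only [act]
  rw [OnePoint.smul_some_eq_ite]
  rfl

@[simp] lemma ev_infty : ev ∞ = (1, 0) := rfl
@[simp] lemma ev_coe (x : ℝ) : ev (x : X) = (x, 1) := rfl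

lemma ev_act (g : G) (z : X) : ∃ t : ℝ, t ≠ 0 ∧ ev (act g z) =
    (t * (g 0 0 * (ev z).1 + g 0 1 * (ev z).2), t * (g 1 0 * (ev z).1 + g 1 1 * (ev z).2)) := by
  have hd := det2 g
  induction z using OnePoint.rec with
  | infty =>
    rw [act_infty]
    split_ifs with h
    · have h0 : g 0 0 ≠ 0 := by intro h0; rw [h, h0] at hd; simp at hd
      exact ⟨(g 0 0)⁻¹, inv_ne_zero h0, by simp [h, h0]⟩
    · exact ⟨(g 1 0)⁻¹, inv_ne_zero h, by simp [h, div_eq_inv_mul]⟩
  | coe x =>
    rw [act_coe]
    split_ifs with h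
    · have h0 : g 0 0 * x + g 0 1 ≠ 0 := by
        intro h0
        have : (1 : ℝ) = 0 := by linear_combination -hd + g 0 0 * h - g 1 0 * h0
        simp at this
      exact ⟨(g 0 0 * x + g 0 1)⁻¹, inv_ne_zero h0, by simp [h, h0]⟩
    · exact ⟨(g 1 0 * x + g 1 1)⁻¹, inv_ne_zero h, by simp [h, div_eq_inv_mul]⟩

lemma O_act (g : G) {x y z : X} (h : O x y z) : O (act g x) (act g y) (act g z) := by
  obtain ⟨a, ha, ea⟩ := ev_act g x
  obtain ⟨b, hb, eb⟩ := ev_act g y
  obtain ⟨c, hc, ec⟩ := ev_act g z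
  have hd := det2 g
  unfold O at h ⊢
  rw [ea, eb, ec]
  have key : ∀ (s t : ℝ) (u v : ℝ × ℝ), dt (s * (g 0 0 * u.1 + g 0 1 * u.2),
      s * (g 1 0 * u.1 + g 1 1 * u.2)) (t * (g 0 0 * v.1 + g 0 1 * v.2),
      t * (g 1 0 * v.1 + g 1 1 * v.2)) = s * t * dt u v := by
    intro s t u v
    simp only [dt]
    linear_combination s * t * (u.1 * v.2 - u.2 * v.1) * hd
  rw [key, key, key]
  have e : a * b * dt (ev x) (ev y) * (b * c * dt (ev y) (ev z)) * (c * a * dt (ev z) (ev x)) =
      (a * b * c) ^ 2 * (dt (ev x) (ev y) * dt (ev y) (ev z) * dt (ev z) (ev x)) := by ring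
  rw [e]
  exact mul_pos (by positivity) h

lemma O_act_iff (g : G) {x y z : X} : O (act g x) (act g y) (act g z) ↔ O x y z := by
  refine ⟨fun h => ?_, O_act g⟩
  have := O_act g⁻¹ h
  simpa only [← act_mul, inv_mul_cancel, act_one] using this

lemma O_coe {x y z : ℝ} : O (x : X) (y : X) (z : X) ↔ 0 < (x - y) * (y - z) * (z - x) := by
  simp [O, dt]

lemma O_infty {x y : ℝ} : O ∞ (x : X) (y : X) ↔ x < y := by
  simp [O, dt]

lemma continuous_act_upper (g : G) (h : g 1 0 = 0) : Continuous (act g) := by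
  have hd := det2 g
  have h1 : g 1 1 ≠ 0 := by intro h0; rw [h, h0] at hd; simp at hd
  have h0 : g 0 0 ≠ 0 := by intro h0; rw [h, h0] at hd; simp at hd
  let e : ℝ ≃ₜ ℝ := ((Homeomorph.mulLeft₀ (g 0 0) h0).trans (Homeomorph.addRight (g 0 1))).trans
    (Homeomorph.mulRight₀ (g 1 1)⁻¹ (inv_ne_zero h1))
  have : act g = e.onePointCongr := by
    funext z
    induction z using OnePoint.rec with
    | infty => simp [act_infty, h]
    | coe x => simp [act_coe, h, h1, e, div_eq_mul_inv]
  rw [this]
  exact e.onePointCongr.continuous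

def Jm : G := ⟨!![0, -1; 1, 0], by simp [Matrix.det_fin_two_of]⟩

lemma continuous_act_J : Continuous (act Jm) := by
  have e1 : act Jm ∞ = ((0 : ℝ) : X) := by simp [act_infty, Jm]
  have e2 : ∀ x : ℝ, x ≠ 0 → act Jm (x : X) = ((-x⁻¹ : ℝ) : X) := by
    intro x hx
    simp [act_coe, Jm, hx, div_eq_mul_inv]
  have e3 : act Jm ((0 : ℝ) : X) = ∞ := by simp [act_coe, Jm]
  rw [OnePoint.continuous_iff, e1]
  constructor
  · rw [coclosedCompact_eq_cocompact, ← Metric.cobounded_eq_cocompact]
    have h1 : Tendsto (fun x : ℝ => ((-x⁻¹ : ℝ) : X)) (Bornology.cobounded ℝ)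
        (𝓝 ((0 : ℝ) : X)) := by
      refine (OnePoint.continuous_coe.tendsto _).comp ?_
      simpa using (tendsto_inv₀_cobounded (α := ℝ)).neg
    refine h1.congr' ?_
    filter_upwards [Bornology.eventually_ne_cobounded (0 : ℝ)] with x hx
    exact (e2 x hx).symm
  · rw [continuous_iff_continuousAt]
    intro x
    by_cases hx : x = 0
    · subst hx
      rw [ContinuousAt, ← nhdsNE_sup_pure, tendsto_sup]
      refine ⟨?_, tendsto_pure_nhds _ _⟩
      simp only [e3]
      have h1 : Tendsto (fun x : ℝ => ((-x⁻¹ : ℝ) : X)) (𝓝[≠] 0) (𝓝 ∞) := by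
        refine OnePoint.tendsto_coe_infty.comp ?_
        rw [coclosedCompact_eq_cocompact, ← Metric.cobounded_eq_cocompact]
        exact tendsto_neg_cobounded.comp tendsto_inv₀_nhdsNE_zero
      refine h1.congr' ?_
      filter_upwards [self_mem_nhdsWithin] with x hx
      exact (e2 x hx).symm
    · have h1 : ContinuousAt (fun x : ℝ => ((-x⁻¹ : ℝ) : X)) x :=
        OnePoint.continuous_coe.continuousAt.comp (continuousAt_inv₀ hx).neg
      refine h1.congr ?_
      filter_upwards [isOpen_ne.mem_nhds hx] with y hy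
      exact (e2 y hy).symm

lemma continuous_act (g : G) : Continuous (act g) := by
  by_cases h : g 1 0 = 0
  · exact continuous_act_upper g h
  have hd := det2 g
  let T : G := ⟨!![1, g 1 1 / g 1 0; 0, 1], by simp [Matrix.det_fin_two_of]⟩
  have h1 : (g * (Jm * T)⁻¹) 1 0 = 0 := by
    rw [mul_ap, inv00, inv10, mul_ap, mul_ap]
    simp [Jm, T]
    field_simp
    ring
  have h2 : act g = act (g * (Jm * T)⁻¹) ∘ act Jm ∘ act T := by
    funext z
    simp only [Function.comp, ← act_mul]
    congr 1
    group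
  rw [h2]
  exact (continuous_act_upper _ h1).comp (continuous_act_J.comp (continuous_act_upper T rfl))

/-- The Möbius action as a homomorphism to the homeomorphism group of the circle. -/
noncomputable def actH : G →* (X ≃ₜ X) where
  toFun g :=
    { toFun := act g
      invFun := act g⁻¹
      left_inv := fun z => by rw [← act_mul, inv_mul_cancel, act_one]
      right_inv := fun z => by rw [← act_mul, mul_inv_cancel, act_one]
      continuous_toFun := continuous_act g
      continuous_invFun := continuous_act g⁻¹ }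
  map_one' := by ext z; exact act_one z
  map_mul' g h := by ext z; exact act_mul g h z

@[simp] lemma actH_apply (g : G) (z : X) : actH g z = act g z := rfl

end Pool.Agent.H882Z.SC
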