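import Pool.Agent.H882Z.SC.Defs

set_option autoImplicit false

namespace Pool.Agent.H882Z.SC

namespace Dart

variable {Γ : Type} [Group Γ] {N : Finset Γ} {n : Γ → Γ}

/-- darts -/
abbrev D (N : Finset Γ) : Type := Γ × {u // u ∈ N}

theorem ai {α : Type} (p : Equiv.Perm α) (x : α) : p (p⁻¹ x) = x := p.apply_symm_apply x

theorem ia {α : Type} (p : Equiv.Perm α) (x : α) : p⁻¹ (p x) = x := p.symm_apply_apply x

theorem n_inv (h : Tri0 N n) {u : Γ} (hu : u ∈ N) : n (n u)⁻¹ = (n u)⁻¹ * u := by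
  have h1 := h.tri u hu
  have h2 := h.tri _ (h.tri_mem u hu)
  rw [h1] at h2
  have e1 : (u⁻¹ * n u)⁻¹ * u⁻¹ = (n u)⁻¹ := by group
  have e2 : (u⁻¹ * n u)⁻¹ = (n u)⁻¹ * u := by group
  rw [e1, e2] at h2
  exact h2

/-- next neighbour -/
def nu0 (h : Tri0 N n) (u : {u // u ∈ N}) : {u // u ∈ N} := ⟨n u, h.n_mem u u.2⟩

theorem nu0_inj (h : Tri0 N n) : Function.Injective (nu0 h) := by
  intro u v huv
  have e : n u = n v := congrArg Subtype.val huv
  have h1 := n_inv h u.2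
  have h2 := n_inv h v.2
  rw [e, h2] at h1
  exact Subtype.ext (mul_left_cancel h1).symm

/-- next neighbour as a permutation -/
noncomputable def nu (h : Tri0 N n) : Equiv.Perm {u // u ∈ N} :=
  Equiv.ofBijective (nu0 h) (Finite.injective_iff_bijective.1 (nu0_inj h))

theorem nu_val (h : Tri0 N n) (u : {u // u ∈ N}) : (nu h u : Γ) = n u := rfl

theorem nu_pow_val (h : Tri0 N n) (k : ℕ) (u : {u // u ∈ N}) :
    (((nu h) ^ k) u : Γ) = n^[k] u := by
  induction k with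
  | zero => rfl
  | succ k ih => rw [pow_succ', Equiv.Perm.mul_apply, nu_val, ih, Function.iterate_succ_apply']

theorem nu_trans (h : Tri0 N n) (u v : {u // u ∈ N}) : ∃ k : ℕ, ((nu h) ^ k) u = v := by
  obtain ⟨k, hk⟩ := h.trans u u.2 v v.2
  exact ⟨k, Subtype.ext (by rw [nu_pow_val, hk])⟩

/-- inverse neighbour -/
def iv (h : Tri0 N n) (u : {u // u ∈ N}) : {u // u ∈ N} := ⟨u⁻¹, h.inv_mem u u.2⟩

theorem iv_iv (h : Tri0 N n) (u : {u // u ∈ N}) : iv h (iv h u) = u := Subtype.ext (inv_inv _)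

/-- rotation around the vertex -/
noncomputable def sg (h : Tri0 N n) : Equiv.Perm (D N) := Equiv.prodCongr (Equiv.refl Γ) (nu h)

theorem sg_apply (h : Tri0 N n) (g : Γ) (u : {u // u ∈ N}) : sg h (g, u) = (g, nu h u) := rfl

theorem sg_pow (h : Tri0 N n) (k : ℕ) (g : Γ) (u : {u // u ∈ N}) :
    ((sg h) ^ k) (g, u) = (g, ((nu h) ^ k) u) := by
  induction k with
  | zero => rfl
  | succ k ih => rw [pow_succ', pow_succ', Equiv.Perm.mul_apply, ih, sg_apply]; rfl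

/-- reversal of the dart -/
def al (h : Tri0 N n) : Equiv.Perm (D N) where
  toFun d := (d.1 * d.2, iv h d.2)
  invFun d := (d.1 * d.2, iv h d.2)
  left_inv d := Prod.ext (by simp [iv]) (iv_iv h _)
  right_inv d := Prod.ext (by simp [iv]) (iv_iv h _)

theorem al_apply (h : Tri0 N n) (g : Γ) (u : {u // u ∈ N}) : al h (g, u) = (g * u, iv h u) := rfl

theorem al_inv (h : Tri0 N n) : (al h)⁻¹ = al h := rfl

theorem al_sq (h : Tri0 N n) : al h * al h = 1 := by
  conv_lhs => rw [← al_inv h]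
  exact inv_mul_cancel (al h)

theorem al_sg_cube (h : Tri0 N n) : (al h * sg h) ^ 3 = 1 := by
  apply Equiv.ext
  rintro ⟨g, u⟩
  have h1 := n_inv h u.2
  have h2 := h.tri u u.2
  have s1 : (al h * sg h) (g, u) = (g * n u, iv h (nu h u)) := rfl
  have s2 : (al h * sg h) (g * n u, iv h (nu h u)) = (g * u, ⟨(u : Γ)⁻¹ * n u, h.tri_mem u u.2⟩) := by
    refine Prod.ext ?_ (Subtype.ext ?_)
    · change g * n u * n (n u)⁻¹ = g * u
      rw [h1]; group
    · change (n (n u)⁻¹)⁻¹ = (u : Γ)⁻¹ * n u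
      rw [h1]; group
  have s3 : (al h * sg h) (g * u, ⟨(u : Γ)⁻¹ * n u, h.tri_mem u u.2⟩) = (g, u) := by
    refine Prod.ext ?_ (Subtype.ext ?_)
    · change g * u * n ((u : Γ)⁻¹ * n u) = g
      rw [h2]; group
    · change (n ((u : Γ)⁻¹ * n u))⁻¹ = (u : Γ)
      rw [h2]; group
  rw [pow_succ', pow_two, Equiv.Perm.mul_apply (al h * sg h), Equiv.Perm.mul_apply (al h * sg h),
    s1, s2, s3]
  rfl

theorem connected (h : Tri0 N n) (hN : Subgroup.closure (N : Set Γ) = ⊤) (P : D N → Prop)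
    (hs : ∀ d, P d → P (sg h d)) (ha : ∀ d, P d → P (al h d)) (d₀ : D N) (h0 : P d₀) (d : D N) :
    P d := by
  have hk : ∀ (k : ℕ) d, P d → P (((sg h) ^ k) d) := by
    intro k
    induction k with
    | zero => exact fun d hd => hd
    | succ k ih => intro d hd; rw [pow_succ']; exact hs _ (ih d hd)
  have hv : ∀ g u v, P (g, u) → P (g, v) := by
    intro g u v hd
    obtain ⟨k, hk'⟩ := nu_trans h u v
    have := hk k _ hd
    rwa [sg_pow, hk'] at this
  have hm : ∀ g (u : {u // u ∈ N}), P (g, d₀.2) → P (g * u, d₀.2) := fun g u hd =>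
    hv _ _ _ (ha _ (hv g _ u hd))
  have key : ∀ x ∈ Subgroup.closure (N : Set Γ), ∀ g, P (g, d₀.2) ↔ P (g * x, d₀.2) := by
    intro x hx
    induction hx using Subgroup.closure_induction with
    | mem x hx =>
      intro g
      refine ⟨hm g ⟨x, hx⟩, fun hd => ?_⟩
      have := hm _ (iv h ⟨x, hx⟩) hd
      simpa [iv] using this
    | one => simp
    | mul x y _ _ hx hy => intro g; rw [hx g, hy, mul_assoc]
    | inv x _ hx => intro g; rw [hx (g * x⁻¹)]; simp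
  have := (key (d₀.1⁻¹ * d.1) (by rw [hN]; trivial) d₀.1).1 h0
  rw [mul_inv_cancel_left] at this
  exact hv _ _ d.2 this

/-- maps intertwining the rotation with `x` and commuting with the reversal -/
def Eqv (h : Tri0 N n) (x : Equiv.Perm (D N)) (R : D N → D N) : Prop :=
  (∀ d, R (sg h d) = x (R d)) ∧ ∀ d, R (al h d) = al h (R d)

theorem uniq (h : Tri0 N n) (hN : Subgroup.closure (N : Set Γ) = ⊤) {x : Equiv.Perm (D N)}
    {R R' : D N → D N} (hR : Eqv h x R) (hR' : Eqv h x R') (d₀ : D N) (h0 : R d₀ = R' d₀)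
    (d : D N) : R d = R' d :=
  connected h hN (fun d => R d = R' d) (fun d hd => by rw [hR.1, hR'.1, hd])
    (fun d hd => by rw [hR.2, hR'.2, hd]) d₀ h0 d

theorem pow_eq (h : Tri0 N n) {u₀ : {u // u ∈ N}} {i j : ℕ}
    (e : ((nu h) ^ i) u₀ = ((nu h) ^ j) u₀) : (sg h) ^ i = (sg h) ^ j := by
  apply Equiv.ext
  rintro ⟨g, v⟩
  obtain ⟨k, rfl⟩ := nu_trans h u₀ v
  rw [sg_pow, sg_pow, ← Equiv.Perm.mul_apply, ← Equiv.Perm.mul_apply, pow_mul_comm,
    pow_mul_comm (nu h) j k, Equiv.Perm.mul_apply, Equiv.Perm.mul_apply, e]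

theorem exist (h : Tri0 N n) (hU : Univ N n) (x : Equiv.Perm (D N))
    (hx : x = sg h ∨ x = (sg h)⁻¹) (d₀ d₁ : D N) : ∃ R : D N → D N, Eqv h x R ∧ R d₀ = d₁ := by
  classical
  obtain ⟨g₀, u₀⟩ := d₀
  choose idx hidx using nu_trans h u₀
  set Xu : {u // u ∈ N} → Equiv.Perm (D N) := fun u => x ^ (idx u) with hXu
  have hX : ∀ u, Xu (nu h u) = x * Xu u := by
    intro u
    have e : (sg h) ^ (idx (nu h u)) = (sg h) ^ (idx u + 1) :=
      pow_eq h (u₀ := u₀) (by rw [hidx, pow_succ', Equiv.Perm.mul_apply, hidx])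
    simp only [hXu]
    rw [← pow_succ']
    rcases hx with rfl | rfl
    · exact e
    · rw [inv_pow, inv_pow, e]
  have hc : (al h * x) ^ 3 = 1 := by
    rcases hx with rfl | rfl
    · exact al_sg_cube h
    · have e : (al h * (sg h)⁻¹) ^ 3 = al h * ((al h * sg h) ^ 3)⁻¹ * (al h)⁻¹ := by
        have e1 : al h * (sg h)⁻¹ = al h * (al h * sg h)⁻¹ * (al h)⁻¹ := by
          rw [mul_inv_rev, mul_assoc, mul_assoc, al_inv, al_sq, mul_one]
        rw [e1, conj_pow, inv_pow]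
      rw [e, al_sg_cube]
      simp
  have hc' : x⁻¹ * al h = al h * x * al h * x := by
    have e : al h * x * (x⁻¹ * al h) = al h * x * (al h * x * al h * x) := by
      rw [show al h * x * (al h * x * al h * x) = (al h * x) ^ 3 by
        simp only [pow_succ, pow_zero, one_mul, mul_assoc], hc]
      rw [mul_assoc, mul_inv_cancel_left, al_sq]
    exact mul_left_cancel e
  set t : Γ → Equiv.Perm (D N) := fun u =>
    if hu : u ∈ N then (Xu ⟨u, hu⟩)⁻¹ * al h * Xu (iv h ⟨u, hu⟩) else 1 with ht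
  have htv : ∀ u : {u // u ∈ N}, t u = (Xu u)⁻¹ * al h * Xu (iv h u) := by
    intro u
    simp only [ht, dif_pos u.2]
  obtain ⟨f, hf1, hf⟩ := hU (Equiv.Perm (D N)) t
    (by
      intro u hu
      have e1 := htv (iv h ⟨u, hu⟩)
      have e2 := htv ⟨u, hu⟩
      rw [iv_iv] at e1
      change t u⁻¹ = _ at e1
      change t u = _ at e2
      rw [e1, e2, mul_inv_rev, mul_inv_rev, inv_inv, al_inv, mul_assoc])
    (by
      intro u hu
      have e1 := htv (nu h ⟨u, hu⟩)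
      have e2 := htv ⟨u, hu⟩
      have e3 := htv ⟨u⁻¹ * n u, h.tri_mem u hu⟩
      change t (n u) = _ at e1
      change t u = _ at e2
      change t (u⁻¹ * n u) = _ at e3
      have a1 : iv h ⟨u, hu⟩ = nu h ⟨u⁻¹ * n u, h.tri_mem u hu⟩ :=
        Subtype.ext (h.tri u hu).symm
      have a2 : iv h ⟨u⁻¹ * n u, h.tri_mem u hu⟩ = nu h (iv h (nu h ⟨u, hu⟩)) := by
        apply Subtype.ext
        change (u⁻¹ * n u)⁻¹ = n (n u)⁻¹
        rw [n_inv h hu]; group
      rw [e1, e2, e3, a1, a2, hX, hX, hX]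
      calc (x * Xu ⟨u, hu⟩)⁻¹ * al h * Xu (iv h (nu h ⟨u, hu⟩))
          = (Xu ⟨u, hu⟩)⁻¹ * (x⁻¹ * al h) * Xu (iv h (nu h ⟨u, hu⟩)) := by group
        _ = _ := by rw [hc']; group)
  refine ⟨fun d => Xu d.2 ((f (g₀⁻¹ * d.1))⁻¹ ((Xu u₀)⁻¹ d₁)), ⟨?_, ?_⟩, ?_⟩
  · rintro ⟨g, u⟩
    rw [sg_apply]
    simp only [hX, Equiv.Perm.mul_apply]
  · rintro ⟨g, u⟩
    rw [al_apply]
    simp only
    rw [← mul_assoc, hf _ u u.2, htv u]
    simp only [mul_inv_rev, inv_inv, Equiv.Perm.mul_apply, al_inv, ai]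
  · simp [hf1]

theorem Eqv.comp_pp {h : Tri0 N n} {x : Equiv.Perm (D N)} {R R' : D N → D N}
    (hR : Eqv h (sg h) R) (hR' : Eqv h x R') : Eqv h x (fun d => R' (R d)) :=
  ⟨fun d => by simp only [hR.1, hR'.1], fun d => by simp only [hR.2, hR'.2]⟩

theorem Eqv.inv_step {h : Tri0 N n} {x : Equiv.Perm (D N)} {R : D N → D N} (hR : Eqv h x R)
    (d : D N) : R ((sg h)⁻¹ d) = x⁻¹ (R d) := by
  have := hR.1 ((sg h)⁻¹ d)
  rw [ai] at this
  rw [this, ia]

theorem Eqv.comp_mx {h : Tri0 N n} {x : Equiv.Perm (D N)} {R R' : D N → D N}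
    (hR : Eqv h (sg h)⁻¹ R) (hR' : Eqv h x R') : Eqv h x⁻¹ (fun d => R' (R d)) :=
  ⟨fun d => by simp only [hR.1, hR'.inv_step], fun d => by simp only [hR.2, hR'.2]⟩

theorem eqv_id (h : Tri0 N n) : Eqv h (sg h) (fun d => d) := ⟨fun _ => rfl, fun _ => rfl⟩

theorem exist_perm (h : Tri0 N n) (hN : Subgroup.closure (N : Set Γ) = ⊤) (hU : Univ N n)
    (x : Equiv.Perm (D N)) (hx : x = sg h ∨ x = (sg h)⁻¹) (d₀ d₁ : D N) :
    ∃ R : Equiv.Perm (D N), Eqv h x R ∧ R d₀ = d₁ := by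
  obtain ⟨R, hR, h0⟩ := exist h hU x hx d₀ d₁
  obtain ⟨R', hR', h0'⟩ := exist h hU x hx d₁ d₀
  have c1 : Eqv h (sg h) (fun d => R' (R d)) := by
    rcases hx with rfl | rfl
    · exact hR.comp_pp hR'
    · simpa using hR.comp_mx hR'
  have c2 : Eqv h (sg h) (fun d => R (R' d)) := by
    rcases hx with rfl | rfl
    · exact hR'.comp_pp hR
    · simpa using hR'.comp_mx hR
  exact ⟨⟨R, R', fun d => uniq h hN c1 (eqv_id h) d₀ (by simp only [h0, h0']) d,
    fun d => uniq h hN c2 (eqv_id h) d₁ (by simp only [h0, h0']) d⟩, hR, h0⟩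

theorem Eqv.inv {h : Tri0 N n} {x : Equiv.Perm (D N)} (hx : x = sg h ∨ x = (sg h)⁻¹)
    {R : Equiv.Perm (D N)} (hR : Eqv h x R) : Eqv h x (R⁻¹ : Equiv.Perm (D N)) := by
  refine ⟨fun d => R.injective ?_, fun d => R.injective ?_⟩
  · rw [ai]
    rcases hx with rfl | rfl
    · rw [hR.1, ai]
    · rw [hR.inv_step, inv_inv, ai]
  · rw [ai, hR.2, ai]

/-- the automorphism group -/
def Aut (h : Tri0 N n) : Subgroup (Equiv.Perm (D N)) where
  carrier := {R | Eqv h (sg h) R ∨ Eqv h (sg h)⁻¹ R}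
  one_mem' := Or.inl (eqv_id h)
  mul_mem' := by
    rintro R S (hR | hR) (hS | hS)
    · exact Or.inl (hS.comp_pp hR)
    · exact Or.inr (hS.comp_mx hR)
    · exact Or.inr (hS.comp_pp hR)
    · have := hS.comp_mx hR
      rw [inv_inv] at this
      exact Or.inl this
  inv_mem' := by
    rintro R (hR | hR)
    · exact Or.inl (hR.inv (Or.inl rfl))
    · exact Or.inr (hR.inv (Or.inr rfl))

theorem sg_fst (h : Tri0 N n) (d : D N) : (sg h d).1 = d.1 := rfl

theorem sg_inv_fst (h : Tri0 N n) (d : D N) : ((sg h)⁻¹ d).1 = d.1 := rfl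

theorem aut_al {h : Tri0 N n} (R : Aut h) (d : D N) :
    (R : Equiv.Perm (D N)) (al h d) = al h ((R : Equiv.Perm (D N)) d) := by
  rcases R.2 with hR | hR <;> exact hR.2 d

theorem aut_fst {h : Tri0 N n} (R : Aut h) (g : Γ) (u v : {u // u ∈ N}) :
    ((R : Equiv.Perm (D N)) (g, u)).1 = ((R : Equiv.Perm (D N)) (g, v)).1 := by
  obtain ⟨k, rfl⟩ := nu_trans h u v
  rw [← sg_pow]
  induction k with
  | zero => rfl
  | succ k ih =>
    rw [pow_succ', Equiv.Perm.mul_apply, ih]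
    rcases R.2 with hR | hR
    · rw [hR.1, sg_fst]
    · rw [hR.1, sg_inv_fst]

/-- the action on the vertices -/
noncomputable def piH (h : Tri0 N n) (u₀ : {u // u ∈ N}) : Aut h →* Equiv.Perm Γ :=
  MonoidHom.toHomPerm
    { toFun := fun R g => ((R : Equiv.Perm (D N)) (g, u₀)).1
      map_one' := rfl
      map_mul' := fun R S => by
        funext g
        exact aut_fst R ((S : Equiv.Perm (D N)) (g, u₀)).1 ((S : Equiv.Perm (D N)) (g, u₀)).2 u₀ }

theorem piH_apply (h : Tri0 N n) (u₀ : {u // u ∈ N}) (R : Aut h) (g : Γ) :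
    piH h u₀ R g = ((R : Equiv.Perm (D N)) (g, u₀)).1 := rfl

theorem eqv_left (h : Tri0 N n) (γ : Γ) :
    Eqv h (sg h) (Equiv.prodCongr (Equiv.mulLeft γ) (Equiv.refl {u // u ∈ N})) :=
  ⟨fun _ => rfl, fun d => Prod.ext (mul_assoc γ d.1 d.2).symm rfl⟩

/-- left translations -/
noncomputable def LH (h : Tri0 N n) : Γ →* Aut h where
  toFun γ := ⟨Equiv.prodCongr (Equiv.mulLeft γ) (Equiv.refl _), Or.inl (eqv_left h γ)⟩
  map_one' := Subtype.ext (Equiv.ext fun d => Prod.ext (one_mul d.1) rfl)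
  map_mul' a b := Subtype.ext (Equiv.ext fun d => Prod.ext (mul_assoc a b d.1) rfl)

theorem LH_apply (h : Tri0 N n) (γ g : Γ) (u : {u // u ∈ N}) :
    (LH h γ : Equiv.Perm (D N)) (g, u) = (γ * g, u) := rfl

end Dart

open Dart in
theorem dart : DartStmt := by
  intro Γ _ N n h hN hU
  obtain ⟨u₀', hu₀⟩ := h.nonempty
  set u₀ : {u // u ∈ N} := ⟨u₀', hu₀⟩
  set d₀ : D N := (1, u₀) with hd₀
  obtain ⟨a, ha, ha0⟩ := exist_perm h hN hU _ (Or.inr rfl) d₀ d₀
  obtain ⟨b, hb, hb0⟩ := exist_perm h hN hU _ (Or.inl rfl) d₀ (al h d₀)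
  obtain ⟨ρ, hρ, hρ0⟩ := exist_perm h hN hU _ (Or.inl rfl) d₀ (sg h d₀)
  have hal : ∀ d, al h (al h d) = d := fun d => (al h).left_inv d
  refine ⟨Aut h, inferInstance, piH h u₀, LH h, ⟨a, Or.inr ha⟩, ⟨b, Or.inl hb⟩, ⟨ρ, Or.inl hρ⟩,
    ?_, fun γ g => rfl, ?_, ?_, ?_, ?_, ?_, ?_, ?_⟩
  · intro R g u hu
    refine ⟨((R : Equiv.Perm (D N)) (g, ⟨u, hu⟩)).2, Subtype.property _, ?_⟩
    rw [piH_apply, piH_apply, aut_fst R (g * u) u₀ (iv h ⟨u, hu⟩), aut_fst R g u₀ ⟨u, hu⟩]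
    exact congrArg Prod.fst (aut_al R (g, ⟨u, hu⟩))
  · choose S1 hS1 hS10 using fun u : {u // u ∈ N} =>
      exist_perm h hN hU _ (Or.inl rfl) d₀ ((1, u) : D N)
    choose S2 hS2 hS20 using fun u : {u // u ∈ N} =>
      exist_perm h hN hU _ (Or.inr rfl) d₀ ((1, u) : D N)
    let S : {u // u ∈ N} ⊕ {u // u ∈ N} → Aut h :=
      Sum.elim (fun u => ⟨S1 u, Or.inl (hS1 u)⟩) (fun u => ⟨S2 u, Or.inr (hS2 u)⟩)
    have hfin : Finite (Aut h ⧸ (LH h).range) := by
      refine Finite.of_surjective (fun s => (QuotientGroup.mk (S s)⁻¹ : Aut h ⧸ (LH h).range)) ?_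
      intro q
      obtain ⟨R, rfl⟩ := QuotientGroup.mk_surjective q
      set d := ((R⁻¹ : Aut h) : Equiv.Perm (D N)) d₀ with hd
      have key : ∀ s, R⁻¹ = LH h d.1 * S s →
          (QuotientGroup.mk (S s)⁻¹ : Aut h ⧸ (LH h).range) = QuotientGroup.mk R := by
        intro s hs
        symm
        rw [QuotientGroup.eq, hs, mul_inv_cancel_right]
        exact ⟨_, rfl⟩
      rcases (R⁻¹).2 with hR | hR
      · refine ⟨Sum.inl d.2, key _ (Subtype.ext (Equiv.ext fun e => ?_))⟩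
        refine uniq h hN hR ((hS1 d.2).comp_pp (eqv_left h d.1)) d₀ ?_ e
        rw [hS10]
        exact Prod.ext (mul_one _).symm rfl
      · refine ⟨Sum.inr d.2, key _ (Subtype.ext (Equiv.ext fun e => ?_))⟩
        refine uniq h hN hR ((hS2 d.2).comp_mx (eqv_left h d.1)) d₀ ?_ e
        rw [hS20]
        exact Prod.ext (mul_one _).symm rfl
    exact Subgroup.finiteIndex_of_finite_quotient
  · refine Subtype.ext (Equiv.ext fun e => ?_)
    have c : Eqv h (sg h) (fun d => a (a d)) := by simpa using ha.comp_mx ha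
    exact uniq h hN c (eqv_id h) d₀ (by simp only [ha0]) e
  · refine Subtype.ext (Equiv.ext fun e => ?_)
    exact uniq h hN (hb.comp_pp hb) (eqv_id h) d₀ (by simp only [hb0, hb.2, hal]) e
  · refine Subtype.ext (Equiv.ext fun e => ?_)
    exact uniq h hN (hb.comp_pp ha) (ha.comp_mx hb) d₀ (by simp only [hb0, ha.2, ha0]) e
  · rw [eq_inv_mul_iff_mul_eq]
    refine Subtype.ext (Equiv.ext fun e => ?_)
    refine uniq h hN ((hρ.comp_pp ha).comp_mx hρ) ha d₀ ?_ e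
    simp only [hρ0, ha.1, ha0, hρ.inv_step, ia]
  · refine Subtype.ext (Equiv.ext fun e => ?_)
    have c := hb.comp_pp hρ
    have c3 := c.comp_pp (c.comp_pp c)
    refine uniq h hN c3 (eqv_id h) d₀ ?_ e
    have := congrArg (fun p : Equiv.Perm (D N) => p d₀) (al_sg_cube h)
    simp only [hρ0, hb0, hρ.1, hρ.2, hb.1, hb.2]
    exact this
  · intro γ
    obtain ⟨R, hR, hR1, hR0⟩ := connected h hN
      (fun d => ∃ R : Aut h, R ∈ Subgroup.closure ({⟨ρ, Or.inl hρ⟩, ⟨b, Or.inl hb⟩} : Set (Aut h)) ∧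
        Eqv h (sg h) (R : Equiv.Perm (D N)) ∧ (R : Equiv.Perm (D N)) d₀ = d)
      (by
        rintro d ⟨R, hR, hR1, rfl⟩
        refine ⟨R * (⟨ρ, Or.inl hρ⟩ : Aut h), mul_mem hR (Subgroup.subset_closure (Or.inl rfl)),
          (hρ.comp_pp hR1 :), ?_⟩
        change (R : Equiv.Perm (D N)) (ρ d₀) = _
        rw [hρ0, hR1.1])
      (by
        rintro d ⟨R, hR, hR1, rfl⟩
        refine ⟨R * (⟨b, Or.inl hb⟩ : Aut h), mul_mem hR (Subgroup.subset_closure (Or.inr rfl)),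
          (hb.comp_pp hR1 :), ?_⟩
        change (R : Equiv.Perm (D N)) (b d₀) = _
        rw [hb0, hR1.2])
      d₀ ⟨1, one_mem _, eqv_id h, rfl⟩ (γ, u₀)
    have e : R = LH h γ := by
      refine Subtype.ext (Equiv.ext fun e => uniq h hN hR1 (eqv_left h γ) d₀ ?_ e)
      rw [hR0]
      exact Prod.ext (mul_one _).symm rfl
    exact e ▸ hR

end Pool.Agent.H882Z.SC
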