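import Mathlib

/-! Definitions and intermediate statements for the orientation-reversing commensurator of a
cocompact torsion-free lattice of `SL(2,ℝ)` (problem MP_243a18_al). -/

set_option autoImplicit false

namespace Pool.Agent.H882Z.SC

abbrev G := Matrix.SpecialLinearGroup (Fin 2) ℝ
abbrev X := OnePoint ℝ

/-- Möbius action of `SL(2,ℝ)` on the circle `ℝ ∪ {∞}` (Mathlib's `GL₂` action). -/
noncomputable def act (g : G) (z : X) : X :=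
  (Matrix.SpecialLinearGroup.toGL g : GL (Fin 2) ℝ) • z

/-- The three hypotheses of the frozen statement: discrete, torsion-free, cocompact. -/
structure Hyp (Γ : Subgroup G) : Prop where
  disc : ∃ ε : ℝ, 0 < ε ∧ ∀ γ ∈ Γ,
    (∀ i j : Fin 2, |(γ : Matrix (Fin 2) (Fin 2) ℝ) i j
      - (1 : Matrix (Fin 2) (Fin 2) ℝ) i j| < ε) → γ = 1
  tf : ∀ γ ∈ Γ, ∀ n : ℕ, 0 < n → γ ^ n = 1 → γ = 1
  cocpt : ∃ C : ℝ, ∀ A : G, ∃ γ ∈ Γ, ∀ i j : Fin 2,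
    |((γ⁻¹ * A : G) : Matrix (Fin 2) (Fin 2) ℝ) i j| ≤ C

/-- `h` conjugates a finite-index subgroup of `Γ` onto a finite-index subgroup of `Γ`. -/
def Comm (Γ : Subgroup G) (h : X ≃ₜ X) : Prop :=
  ∃ H K : Subgroup G, H ≤ Γ ∧ K ≤ Γ ∧ (H.subgroupOf Γ).index ≠ 0 ∧ (K.subgroupOf Γ).index ≠ 0 ∧
    ∃ φ : H ≃* K, ∀ (g : H) (z : X), h (act (g : G) z) = act ((φ g : K) : G) (h z)

/-- A vector representing a point of the projective line. -/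
def ev (z : X) : ℝ × ℝ := z.elim (1, 0) (fun x => (x, 1))

def dt (u v : ℝ × ℝ) : ℝ := u.1 * v.2 - u.2 * v.1

/-- Strict cyclic order on the circle. -/
def O (x y z : X) : Prop := 0 < dt (ev x) (ev y) * dt (ev y) (ev z) * dt (ev z) (ev x)

/-- Squared Frobenius norm (`= 2 cosh d(i, g i)`). -/
def nrm (g : G) : ℝ := g 0 0 ^ 2 + g 0 1 ^ 2 + g 1 0 ^ 2 + g 1 1 ^ 2

/-- Bounded steps go to bounded steps. -/
def Coarse {Γ : Subgroup G} (R : Γ → Γ) : Prop :=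
  ∀ C : ℝ, ∃ C' : ℝ, ∀ g h : Γ, nrm ((g⁻¹ * h : Γ) : G) ≤ C →
    nrm (((R g)⁻¹ * R h : Γ) : G) ≤ C'

/-- The group of coarse permutations of `Γ`. -/
def CoarseSub (Γ : Subgroup G) : Subgroup (Equiv.Perm Γ) where
  carrier := {R | Coarse R ∧ Coarse R.symm}
  one_mem' := ⟨fun C => ⟨C, fun _ _ h => h⟩, fun C => ⟨C, fun _ _ h => h⟩⟩
  mul_mem' := by
    rintro R S ⟨h1, h2⟩ ⟨h3, h4⟩
    refine ⟨fun C => ?_, fun C => ?_⟩
    · obtain ⟨C1, hC1⟩ := h3 C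
      obtain ⟨C2, hC2⟩ := h1 C1
      exact ⟨C2, fun g h hh => hC2 _ _ (hC1 _ _ hh)⟩
    · obtain ⟨C1, hC1⟩ := h2 C
      obtain ⟨C2, hC2⟩ := h4 C1
      exact ⟨C2, fun g h hh => hC2 _ _ (hC1 _ _ hh)⟩
  inv_mem' := by
    rintro R ⟨h1, h2⟩
    exact ⟨h2, h1⟩

/-- Balls of `Γ` are finite. -/
def ProperStmt : Prop := ∀ Γ : Subgroup G, Hyp Γ → ∀ C : ℝ, {g : Γ | nrm (g : G) ≤ C}.Finite

/-- Floyd extension: coarse permutations of `Γ` act on the circle, extending the action of `Γ`. -/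
def FloydStmt : Prop := ∀ Γ : Subgroup G, Hyp Γ →
  ∃ Φ : CoarseSub Γ →* (X ≃ₜ X), ∀ (a : CoarseSub Γ) (γ : Γ),
    (∀ g : Γ, (a : Equiv.Perm Γ) g = γ * g) → ∀ z : X, Φ a z = act (γ : G) z

/-- Combinatorial one-vertex triangulation: `N` = neighbours of `1`, `n` = next neighbour. -/
structure Tri0 {Γ : Type} [Group Γ] (N : Finset Γ) (n : Γ → Γ) : Prop where
  nonempty : N.Nonempty
  one_not_mem : (1 : Γ) ∉ N
  inv_mem : ∀ u ∈ N, u⁻¹ ∈ N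
  n_mem : ∀ u ∈ N, n u ∈ N
  tri_mem : ∀ u ∈ N, u⁻¹ * n u ∈ N
  tri : ∀ u ∈ N, n (u⁻¹ * n u) = u⁻¹
  trans : ∀ u ∈ N, ∀ v ∈ N, ∃ k : ℕ, n^[k] u = v

/-- Walking from `w` to `u` around the vertex `g` through strictly lower neighbours. -/
def Walk {Γ : Type} [Group Γ] (Ht : Γ → ℝ) (n : Γ → Γ) (g w u : Γ) : Prop :=
  ∃ k : ℕ, 0 < k ∧ n^[k] w = u ∧ ∀ j, 0 < j → j < k → Ht (g * n^[j] w) < Ht g

/-- Morse conditions for the height function `Ht`. -/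
structure Morse {Γ : Type} [Group Γ] (Ht : Γ → ℝ) (N : Finset Γ) (n : Γ → Γ) : Prop where
  min : ∀ g, Ht 1 ≤ Ht g
  desc : ∀ g, g ≠ 1 → ∃ u ∈ N, Ht (g * u) < Ht g
  walk : ∀ g, ∀ w ∈ N, ∀ u ∈ N, w ≠ u → Ht (g * w) ≤ Ht g → Ht (g * u) ≤ Ht g →
    (Ht (g * w) < Ht g ∨ Ht (g * u) < Ht g) → Walk Ht n g w u ∨ Walk Ht n g u w

/-- Delaunay triangulation of the orbit of `i`. -/
def DelStmt : Prop := ∀ Γ : Subgroup G, Hyp Γ →
  ∃ (N : Finset Γ) (n : Γ → Γ), Tri0 N n ∧ Morse (fun g : Γ => nrm (g : G)) N n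

/-- Simple connectivity: the triangles give a presentation. -/
def Univ {Γ : Type} [Group Γ] (N : Finset Γ) (n : Γ → Γ) : Prop :=
  ∀ (Q : Type) [Group Q] (t : Γ → Q), (∀ u ∈ N, t u⁻¹ = (t u)⁻¹) →
    (∀ u ∈ N, t (n u) = t u * t (u⁻¹ * n u)) →
    ∃ f : Γ → Q, f 1 = 1 ∧ ∀ g, ∀ u ∈ N, f (g * u) = f g * t u

def MorseStmt : Prop := ∀ (Γ : Type) [Group Γ] (Ht : Γ → ℝ) (N : Finset Γ) (n : Γ → Γ),
  Tri0 N n → Morse Ht N n → (∀ C : ℝ, {g | Ht g ≤ C}.Finite) →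
    Subgroup.closure (N : Set Γ) = ⊤ ∧ Univ N n

/-- The automorphism group of the triangulation. -/
def DartStmt : Prop := ∀ (Γ : Type) [Group Γ] (N : Finset Γ) (n : Γ → Γ),
  Tri0 N n → Subgroup.closure (N : Set Γ) = ⊤ → Univ N n →
    ∃ (A : Type) (_ : Group A) (π : A →* Equiv.Perm Γ) (L : Γ →* A) (a b ρ : A),
      (∀ (R : A) (g : Γ), ∀ u ∈ N, ∃ u' ∈ N, π R (g * u) = π R g * u') ∧
      (∀ γ g : Γ, π (L γ) g = γ * g) ∧ L.range.FiniteIndex ∧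
      a * a = 1 ∧ b * b = 1 ∧ a * b = b * a ∧ a * ρ = ρ⁻¹ * a ∧ (ρ * b) ^ 3 = 1 ∧
      ∀ γ : Γ, L γ ∈ Subgroup.closure ({ρ, b} : Set A)

/-- Goal: some commensurating homeomorphism does not preserve the cyclic order. -/
def RevStmt : Prop := ∀ Γ : Subgroup G, Hyp Γ →
  ∃ r : X ≃ₜ X, Comm Γ r ∧ ¬ ∀ x y z : X, O x y z → O (r x) (r y) (r z)

end Pool.Agent.H882Z.SC
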