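import Pool.Agent.H882Z.SC.Base

/-! Statements for the orientation-preserving part (Dehn twists in finite covers). -/

set_option autoImplicit false

open Filter Topology OnePoint

namespace Pool.Agent.H882Z.SC

/-- extension of an increasing bijection of the line to the circle -/
noncomputable def ext (k : ℝ ≃o ℝ) : X ≃ₜ X := k.toHomeomorph.onePointCongr

@[simp] lemma ext_coe (k : ℝ ≃o ℝ) (x : ℝ) : ext k (x : X) = ((k x : ℝ) : X) := rfl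
@[simp] lemma ext_infty (k : ℝ ≃o ℝ) : ext k ∞ = ∞ := rfl

def toCM (h : X ≃ₜ X) : C(X, X) := ContinuousMap.mk (⇑h) h.continuous

/-- `f` is a compact-open limit of members of `𝒮` -/
def InCl (𝒮 : Set (X ≃ₜ X)) (f : X ≃ₜ X) : Prop := toCM f ∈ closure (toCM '' 𝒮)

def OPres (h : X ≃ₜ X) : Prop := ∀ x y z : X, O x y z → O (h x) (h y) (h z)

/-- `γ = diag(l, l⁻¹)` -/
def IsDiag (γ : G) (l : ℝ) : Prop := γ 0 0 = l ∧ γ 0 1 = 0 ∧ γ 1 0 = 0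

/-- residual finiteness -/
def RFStmt : Prop := ∀ Γ : Subgroup G, Hyp Γ → ∀ g : Γ, g ≠ 1 →
  ∃ N : Subgroup Γ, N.Normal ∧ N.FiniteIndex ∧ g ∉ N

/-- no unipotent elements -/
def UnipStmt : Prop := ∀ Γ : Subgroup G, Hyp Γ → ∀ γ ∈ Γ, γ 0 0 + γ 1 1 = 2 → γ = 1

/-- a finite-index subgroup containing `γ` in which the axis of `γ` has a huge collar -/
def SepStmt : Prop := ∀ Γ : Subgroup G, Hyp Γ → ∀ γ ∈ Γ, ∀ l : ℝ, IsDiag γ l → l ^ 2 ≠ 1 →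
  ∀ R : ℝ, ∃ H : Subgroup G, H ≤ Γ ∧ (H.subgroupOf Γ).index ≠ 0 ∧ γ ∈ H ∧
    ∀ g ∈ H, (g 0 1 = 0 ∧ g 1 0 = 0) ∨ R < |g 0 1 * g 1 0|

/-- pairs of fixed points of hyperbolic elements are dense -/
def PairsStmt : Prop := ∀ Γ : Subgroup G, Hyp Γ → ∀ p q r s : ℝ, p < q → q ≤ r → r < s →
  ∃ γ ∈ Γ, ∃ (A : G) (l a b : ℝ), 1 < |l| ∧ IsDiag (A⁻¹ * γ * A) l ∧
    p < a ∧ a < q ∧ r < b ∧ b < s ∧ act A ((0 : ℝ) : X) = (a : X) ∧ act A ∞ = (b : X)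

/-- translates of the line `{0, ∞}` by a finite-index subgroup are everywhere -/
def LinesStmt : Prop := ∀ Γ : Subgroup G, Hyp Γ → ∀ H : Subgroup G, H ≤ Γ →
  (H.subgroupOf Γ).index ≠ 0 → ∀ u v : ℝ, u < v → ∃ g ∈ H, ∃ x y : ℝ,
    u < x ∧ x < v ∧ u < y ∧ y < v ∧ act g ((0 : ℝ) : X) = (x : X) ∧ act g ∞ = (y : X)

/-- A nested system of half-spaces with translation elements (abstract Dehn twist data). -/
structure Nest (H Hf : Type) [Group H] [PartialOrder Hf] [MulAction H Hf]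
    (st : Hf → Hf) (τ : Hf → H) : Prop where
  smul_mono : ∀ (g : H) (U V : Hf), U ≤ V → g • U ≤ g • V
  st_st : ∀ U, st (st U) = U
  st_anti : ∀ U V, U ≤ V → st V ≤ st U
  st_smul : ∀ (g : H) (U : Hf), st (g • U) = g • st U
  not_le_st : ∀ U, ¬ U ≤ st U
  nested : ∀ U V, U ≤ V ∨ U ≤ st V ∨ st U ≤ V ∨ st U ≤ st V
  fin : ∀ U V : Hf, (Set.Icc U V).Finite
  τ_smul : ∀ (g : H) (U : Hf), τ (g • U) = g * τ U * g⁻¹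
  τ_st : ∀ U, τ (st U) = (τ U)⁻¹
  τ_fix : ∀ U, τ U • U = U

/-- The abstract Dehn twist. -/
def TreeStmt : Prop := ∀ (H Hf : Type) [Group H] [PartialOrder Hf] [MulAction H Hf]
  (st : Hf → Hf) (τ : Hf → H), Nest H Hf st τ → ∀ B : Hf,
    ∃ (φ : H ≃* H) (c : Hf → H) (F : Hf ≃o Hf), c B = 1 ∧ (∀ U, F U = c U • U) ∧
      (∀ U, c U = c (st U) * τ U) ∧ (∀ U W, W ⋖ U → c (st W) = c U) ∧
      (∀ (g : H) (U : Hf), c (g • U) * g = φ g * c U)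

/-- extension of an order automorphism of a dense subset of the line -/
def ExtStmt : Prop := ∀ (E : Set ℝ) (f g : ℝ → ℝ), Dense E → Set.MapsTo f E E →
  Set.MapsTo g E E → StrictMonoOn f E → (∀ x ∈ E, g (f x) = x) → (∀ x ∈ E, f (g x) = x) →
    ∃ k : ℝ ≃o ℝ, ∀ x ∈ E, k x = f x

/-- Dehn twists approximate the map that is the identity on one side of the axis and `γ` on the
other. -/
def TwistStmt : Prop := ∀ Γ : Subgroup G, Hyp Γ → ∀ γ ∈ Γ, ∀ l : ℝ, IsDiag γ l → l ^ 2 ≠ 1 →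
  ∀ η : ℝ, 0 < η → ∃ k : ℝ ≃o ℝ, Comm Γ (ext k) ∧ (∀ x, x ≤ 0 → |k x - x| ≤ η * |x|) ∧
    (∀ x, 0 ≤ x → |k x - l ^ 2 * x| ≤ η * |x|)

/-- pointwise convergence of increasing maps gives compact-open convergence -/
def PWStmt : Prop := ∀ (𝒮 : Set (X ≃ₜ X)) (ι : Type) (l : Filter ι) [l.NeBot]
  (k : ι → ℝ ≃o ℝ) (f : ℝ ≃o ℝ), (∀ i, InCl 𝒮 (ext (k i))) →
    (∀ x, Tendsto (fun i => k i x) l (𝓝 (f x))) → InCl 𝒮 (ext f)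

/-- one point can be moved inside a gap -/
def Mv (𝒮 : Set (X ≃ₜ X)) : Prop := ∀ p x q u v : ℝ, p < x → x < q → p ≤ u → u < v → v ≤ q →
  ∃ k : ℝ ≃o ℝ, InCl 𝒮 (ext k) ∧ (∀ z, z ≤ p ∨ q ≤ z → k z = z) ∧ u < k x ∧ k x < v

def CommGrpStmt : Prop := ∀ Γ : Subgroup G,
  (∀ h1 h2, Comm Γ h1 → Comm Γ h2 → Comm Γ (h1 * h2)) ∧ (∀ h, Comm Γ h → Comm Γ h⁻¹) ∧
    ∀ γ ∈ Γ, Comm Γ (actH γ)

def ConjStmt : Prop := ∀ (Γ : Subgroup G) (A : G), Hyp Γ →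
  Hyp (Γ.map (MulAut.conj A⁻¹).toMonoidHom) ∧
    ∀ h, Comm (Γ.map (MulAut.conj A⁻¹).toMonoidHom) h → Comm Γ (actH A * h * actH A⁻¹)

def MvStmt : Prop := ∀ Γ : Subgroup G, Hyp Γ →
  Mv {h | Comm Γ h} ∧ ∃ γ ∈ Γ, act γ ∞ ≠ ∞

def AsmStmt : Prop := ∀ 𝒮 : Set (X ≃ₜ X), (∀ h1 ∈ 𝒮, ∀ h2 ∈ 𝒮, h1 * h2 ∈ 𝒮) →
  (∀ h ∈ 𝒮, h⁻¹ ∈ 𝒮) → Mv 𝒮 → (∃ g ∈ 𝒮, g ∞ ≠ ∞ ∧ OPres g) → (∃ r ∈ 𝒮, ¬ OPres r) →
    ∀ f, InCl 𝒮 f

end Pool.Agent.H882Z.SC
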