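import Pool.Agent.H882Z.SC.Defs

set_option autoImplicit false

open scoped Pointwise

namespace Pool.Agent.H882Z.SC.Del

/-- determinant of three points -/
def det3 (a1 a2 a3 b1 b2 b3 c1 c2 c3 : ℝ) : ℝ :=
  a1 * (b2 * c3 - b3 * c2) - a2 * (b1 * c3 - b3 * c1) + a3 * (b1 * c2 - b2 * c1)

structure Pre (Γ : Type) where
  A : Γ → ℝ
  p : Γ → ℝ
  q : Γ → ℝ

variable {Γ : Type}

def Pre.o (S : Pre Γ) (x y z : Γ) : ℝ :=
  det3 (S.A x) (S.p x) (S.q x) (S.A y) (S.p y) (S.q y) (S.A z) (S.p z) (S.q z)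

def Pre.B (S : Pre Γ) (x y : Γ) : ℝ := S.A x * S.A y - S.p x * S.p y - S.q x * S.q y

def Pre.Lin (S : Pre Γ) (f : Γ → ℝ) : Prop :=
  ∃ α β γ : ℝ, ∀ x, f x = α * S.A x + β * S.p x + γ * S.q x

structure Geo (Γ : Type) [Group Γ] extends Pre Γ where
  A1 : A 1 = 1
  p1 : p 1 = 0
  q1 : q 1 = 0
  o_inv : ∀ g x y z, toPre.o (g * x) (g * y) (g * z) = toPre.o x y z
  B_inv : ∀ g x y, toPre.B (g * x) (g * y) = toPre.B x y
  B_self : ∀ x, toPre.B x x = 1
  B_gt : ∀ x y, x ≠ y → 1 < toPre.B x y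
  Lin_inv : ∀ f g, toPre.Lin f → toPre.Lin (fun x => f (g * x))
  W : Set Γ
  W_fin : W.Finite
  W_max : ∀ y1 y2 : ℝ, (y1 ≠ 0 ∨ y2 ≠ 0) → ∃ w ∈ W, w ≠ 1 ∧ 0 < y1 * p w + y2 * q w ∧
    ∀ g, g ∉ W → g ≠ 1 → (y1 * p g + y2 * q g) / (A g - 1) < (y1 * p w + y2 * q w) / (A w - 1)
  tf : ∀ (g : Γ) (n : ℕ), 0 < n → g ^ n = 1 → g = 1

namespace Pre
variable (S : Pre Γ)

lemma cramer {f : Γ → ℝ} (hf : S.Lin f) (a b c d : Γ) :
    S.o a b c * f d = S.o d b c * f a + S.o a d c * f b + S.o a b d * f c := by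
  obtain ⟨α, β, γ, h⟩ := hf
  simp only [h, o, det3]; ring

lemma o_cyc (x y z : Γ) : S.o y z x = S.o x y z := by simp only [o, det3]; ring
lemma o_swap (x y z : Γ) : S.o y x z = - S.o x y z := by simp only [o, det3]; ring
lemma o_swap' (x y z : Γ) : S.o x z y = - S.o x y z := by simp only [o, det3]; ring
lemma o_rev (x y z : Γ) : S.o z y x = - S.o x y z := by simp only [o, det3]; ring
lemma o_aa (x z : Γ) : S.o x x z = 0 := by simp only [o, det3]; ring
lemma o_ab (x z : Γ) : S.o x z z = 0 := by simp only [o, det3]; ring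
lemma o_ac (x z : Γ) : S.o x z x = 0 := by simp only [o, det3]; ring
lemma B_symm (x y : Γ) : S.B x y = S.B y x := by simp only [B]; ring
lemma lin_B (x : Γ) : S.Lin (S.B x) := ⟨S.A x, -S.p x, -S.q x, fun y => by simp only [B]; ring⟩
lemma lin_A : S.Lin S.A := ⟨1, 0, 0, fun y => by ring⟩

lemma plucker (b w x v u : Γ) :
    S.o b w x * S.o b v u = S.o b w v * S.o b x u + S.o b w u * S.o b v x := by
  simp only [o, det3]; ring

lemma lin_three (a b c : Γ) (h : S.o a b c ≠ 0) :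
    ∃ f, S.Lin f ∧ f a = 1 ∧ f b = 1 ∧ f c = 1 := by
  refine ⟨fun d => (S.o d b c + S.o a d c + S.o a b d) / S.o a b c, ?_, ?_, ?_, ?_⟩
  · refine ⟨((S.p b * S.q c - S.q b * S.p c) + (S.p c * S.q a - S.q c * S.p a) +
      (S.p a * S.q b - S.q a * S.p b)) / S.o a b c,
      (-(S.A b * S.q c - S.q b * S.A c) - (S.A c * S.q a - S.q c * S.A a) -
      (S.A a * S.q b - S.q a * S.A b)) / S.o a b c,
      ((S.A b * S.p c - S.p b * S.A c) + (S.A c * S.p a - S.p c * S.A a) +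
      (S.A a * S.p b - S.p a * S.A b)) / S.o a b c, fun d => ?_⟩
    field_simp
    simp only [o, det3]; ring
  · simp only [o_aa, o_ac]; field_simp; ring
  · simp only [o_ab, S.o_ac]
    rw [S.o_aa]; field_simp; ring
  · simp only [o_ab, S.o_ac]
    have : S.o c b c = 0 := S.o_ac _ _
    field_simp; ring

lemma lin_comb {f g : Γ → ℝ} (hf : S.Lin f) (hg : S.Lin g) (s t : ℝ) :
    S.Lin (fun x => s * f x + t * g x) := by
  obtain ⟨α, β, γ, h⟩ := hf
  obtain ⟨α', β', γ', h'⟩ := hg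
  exact ⟨s * α + t * α', s * β + t * β', s * γ + t * γ', fun x => by simp only [h, h']; ring⟩

lemma lin_o (a b : Γ) : S.Lin (fun d => S.o a b d) :=
  ⟨S.p a * S.q b - S.q a * S.p b, -(S.A a * S.q b - S.q a * S.A b),
    S.A a * S.p b - S.p a * S.A b, fun d => by simp only [o, det3]; ring⟩

def Sup (f : Γ → ℝ) : Prop := S.Lin f ∧ ∀ x, 1 ≤ f x

/-- two supporting planes through a diagonal agree -/
lemma sup_eq {f f' : Γ → ℝ} (hf : S.Sup f) (hf' : S.Sup f') {x y z w : Γ}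
    (hx : f x = 1) (hy : f y = 1) (hx' : f' x = 1) (hy' : f' y = 1) (hz : f' z = 1)
    (hw : f' w = 1) (h1 : 0 < S.o x y z) (h2 : S.o x y w < 0) : f = f' := by
  have c1 := S.cramer hf.1 x y z w
  have c2 := S.cramer hf'.1 x y z w
  rw [hx, hy] at c1
  rw [hx', hy', hz, hw] at c2
  have e1 := hf.2 z
  have e2 := hf.2 w
  have hz1 : f z = 1 := by nlinarith
  funext d
  have d1 := S.cramer hf.1 x y z d
  have d2 := S.cramer hf'.1 x y z d
  rw [hx, hy, hz1] at d1
  rw [hx', hy', hz] at d2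
  have : S.o x y z * (f d - f' d) = 0 := by linarith
  rcases mul_eq_zero.1 this with h | h
  · linarith
  · linarith

end Pre

variable [Group Γ]

lemma exists_apex (tf : ∀ (g : Γ) (n : ℕ), 0 < n → g ^ n = 1 → g = 1) :
    ∃ a : Set Γ → Γ, ∀ C : Set Γ, C.Finite → C.Nonempty →
      a C ∈ C ∧ ∀ g : Γ, a (g • C) = g * a C := by
  classical
  have free : ∀ (C : Set Γ) (h : Γ), C.Finite → C.Nonempty → h • C = C → h = 1 := by
    intro C h hC ⟨x, hx⟩ hh
    have hm : ∀ k : ℕ, h ^ k * x ∈ C := by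
      intro k
      induction k with
      | zero => simpa using hx
      | succ k ih =>
        rw [pow_succ', mul_assoc, ← hh]
        exact Set.smul_mem_smul_set (a := h) ih
    obtain ⟨i, j, hij, he⟩ := hC.exists_lt_map_eq_of_forall_mem hm
    have he' : h ^ i = h ^ j := mul_right_cancel he
    refine tf h (j - i) (by omega) ?_
    have : h ^ i * h ^ (j - i) = h ^ i * 1 := by
      rw [← pow_add, mul_one, he']; congr 1; omega
    exact mul_left_cancel this
  let rep : Set Γ → Set Γ := fun C => (Quotient.mk (MulAction.orbitRel Γ (Set Γ)) C).out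
  have hrep : ∀ C : Set Γ, ∃ g : Γ, g • rep C = C := by
    intro C
    have h : (MulAction.orbitRel Γ (Set Γ)).r (rep C) C := Quotient.mk_out C
    have h' := (MulAction.orbitRel Γ (Set Γ)).symm h
    exact MulAction.orbitRel_apply.1 h'
  have hrep2 : ∀ (C : Set Γ) (g : Γ), rep (g • C) = rep C := by
    intro C g
    have : (Quotient.mk (MulAction.orbitRel Γ (Set Γ)) (g • C)) =
        (Quotient.mk (MulAction.orbitRel Γ (Set Γ)) C) :=
      Quotient.sound (MulAction.orbitRel_apply.2 ⟨g, rfl⟩)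
    simp only [rep, this]
  choose gC hgC using hrep
  let pick : Set Γ → Γ := fun C => if h : C.Nonempty then h.some else 1
  refine ⟨fun C => gC C * pick (rep C), fun C hC hne => ?_⟩
  have hr : rep C = (gC C)⁻¹ • C := by
    rw [eq_inv_smul_iff]; exact hgC C
  have hrf : (rep C).Finite := by rw [hr]; exact hC.smul_set
  have hrn : (rep C).Nonempty := by rw [hr]; exact hne.smul_set
  refine ⟨?_, fun g => ?_⟩
  · have : pick (rep C) ∈ rep C := by simp only [pick, dif_pos hrn]; exact hrn.some_mem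
    have h2 := Set.smul_mem_smul_set (a := gC C) this
    rwa [hgC] at h2
  · have h1 := hgC (g • C)
    rw [hrep2] at h1
    have : ((g * gC C)⁻¹ * gC (g • C)) • rep C = rep C := by
      rw [mul_smul, h1, mul_inv_rev, mul_smul, inv_smul_smul, ← hr]
    have h3 := free _ _ hrf hrn this
    have h4 : gC (g • C) = g * gC C := by
      rw [inv_mul_eq_one] at h3; exact h3.symm
    simp only [hrep2, h4, mul_assoc]

namespace Geo
variable (S : Geo Γ)

lemma B_ge (x y : Γ) : 1 ≤ S.B x y := by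
  by_cases h : x = y
  · rw [h, S.B_self]
  · exact (S.B_gt x y h).le

lemma B_one (x : Γ) : S.B 1 x = S.A x := by simp [Pre.B, S.A1, S.p1, S.q1]

lemma A_gt {x : Γ} (hx : x ≠ 1) : 1 < S.A x := by
  rw [← S.B_one]; exact S.B_gt _ _ hx.symm

lemma A_ge (x : Γ) : 1 ≤ S.A x := by rw [← S.B_one]; exact S.B_ge _ _

lemma o_one (u v : Γ) : S.o 1 u v = S.p u * S.q v - S.q u * S.p v := by
  simp [Pre.o, det3, S.A1, S.p1, S.q1]

lemma pq_ne {u : Γ} (hu : u ≠ 1) : 0 < S.p u ^ 2 + S.q u ^ 2 := by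
  have h1 := S.B_self u
  have h2 := S.A_gt hu
  simp only [Pre.B] at h1
  nlinarith

lemma sup_inv {f : Γ → ℝ} (hf : S.Sup f) (g : Γ) : S.Sup (fun x => f (g * x)) :=
  ⟨S.Lin_inv f g hf.1, fun x => hf.2 _⟩

lemma lin_form {f : Γ → ℝ} (hf : S.Lin f) (h1 : f 1 = 1) :
    ∃ y1 y2 : ℝ, ∀ x, f x = S.A x - (y1 * S.p x + y2 * S.q x) := by
  obtain ⟨α, β, γ, h⟩ := hf
  have := h 1
  rw [h1, S.A1, S.p1, S.q1] at this
  have hα : α = 1 := by linarith
  exact ⟨-β, -γ, fun x => by rw [h, hα]; ring⟩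

lemma mem_W {f : Γ → ℝ} (hf : S.Sup f) (h1 : f 1 = 1) {x : Γ} (hx : x ≠ 1) (hfx : f x = 1) :
    x ∈ S.W := by
  obtain ⟨y1, y2, h⟩ := S.lin_form hf.1 h1
  by_contra hW
  have hA := S.A_gt hx
  have hy : y1 ≠ 0 ∨ y2 ≠ 0 := by
    by_contra hc
    push Not at hc
    have := h x
    rw [hfx, hc.1, hc.2] at this
    linarith
  obtain ⟨w, _, hw1, _, hw⟩ := S.W_max y1 y2 hy
  have h3 := hw x hW hx
  have hAw := S.A_gt hw1
  have e1 : y1 * S.p x + y2 * S.q x = S.A x - 1 := by have := h x; linarith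
  have e2 : y1 * S.p w + y2 * S.q w ≤ S.A w - 1 := by have := h w; have := hf.2 w; linarith
  rw [e1, div_self (by linarith), lt_div_iff₀ (by linarith)] at h3
  linarith

lemma Z_fin {f : Γ → ℝ} (hf : S.Sup f) : {x | f x = 1}.Finite := by
  rcases Set.eq_empty_or_nonempty {x | f x = 1} with h | ⟨g, hg⟩
  · rw [h]; exact Set.finite_empty
  · have h1 := S.sup_inv hf g
    refine ((S.W_fin.insert 1).image (fun x => g * x)).subset fun x hx => ?_
    refine ⟨g⁻¹ * x, ?_, by simp⟩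
    by_cases h : g⁻¹ * x = 1
    · exact Or.inl h
    · exact Or.inr (S.mem_W h1 (by simpa using hg) h (by simpa using hx))

/-- scaling a functional until it supports -/
lemma exists_sup {f : Γ → ℝ} (hf : S.Lin f) (h1 : f 1 = 1) {w0 : Γ} (hw0 : f w0 < 1) :
    ∃ f1, S.Sup f1 ∧ f1 1 = 1 ∧ (∃ x, x ≠ 1 ∧ f1 x = 1) ∧ ∀ x, x ≠ 1 → f1 x = 1 → f x < 1 := by
  obtain ⟨y1, y2, h⟩ := S.lin_form hf h1
  have hw01 : w0 ≠ 1 := by rintro rfl; linarith
  have hA0 := S.A_gt hw01
  have hy : y1 ≠ 0 ∨ y2 ≠ 0 := by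
    by_contra hc
    push Not at hc
    have := h w0
    rw [hc.1, hc.2] at this
    linarith
  obtain ⟨w, hwW, hw1, _, hw⟩ := S.W_max y1 y2 hy
  let φ : Γ → ℝ := fun g => (y1 * S.p g + y2 * S.q g) / (S.A g - 1)
  obtain ⟨m, ⟨hmW, hm1⟩, hm⟩ := Set.exists_max_image (S.W ∩ {g | g ≠ 1}) φ
    (S.W_fin.inter_of_left _) ⟨w, hwW, hw1⟩
  have hall : ∀ g, g ≠ 1 → φ g ≤ φ m := by
    intro g hg
    by_cases hgW : g ∈ S.W
    · exact hm g ⟨hgW, hg⟩
    · exact (hw g hgW hg).le.trans (hm w ⟨hwW, hw1⟩)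
  have hM : 1 < φ m := by
    refine lt_of_lt_of_le ?_ (hall w0 hw01)
    simp only [φ]
    rw [lt_div_iff₀ (by linarith)]
    have := h w0
    linarith
  have hM0 : 0 < φ m := by linarith
  have hAm := S.A_gt hm1
  refine ⟨fun x => S.A x - (y1 * S.p x + y2 * S.q x) / φ m, ⟨⟨1, -y1 / φ m, -y2 / φ m,
    fun x => by field_simp; ring⟩, fun x => ?_⟩, by simp [S.A1, S.p1, S.q1], ⟨m, hm1, ?_⟩, ?_⟩
  · by_cases hx : x = 1
    · simp [hx, S.A1, S.p1, S.q1]
    · have h2 := hall x hx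
      have hAx := S.A_gt hx
      have h3 : y1 * S.p x + y2 * S.q x ≤ φ m * (S.A x - 1) := by
        rwa [div_le_iff₀ (by linarith)] at h2
      have h4 : (y1 * S.p x + y2 * S.q x) / φ m ≤ S.A x - 1 := by
        rw [div_le_iff₀ hM0]; linarith
      linarith
  · have h3 : y1 * S.p m + y2 * S.q m = φ m * (S.A m - 1) := by
      simp only [φ]; field_simp [show S.A m - 1 ≠ 0 by linarith]
    simp only
    rw [h3]; field_simp; ring
  · intro x hx hfx
    have hAx := S.A_gt hx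
    have h3 : (y1 * S.p x + y2 * S.q x) / φ m = S.A x - 1 := by linarith
    rw [div_eq_iff hM0.ne'] at h3
    rw [h, h3]
    nlinarith

/-- three distinct points of a plane section are independent -/
lemma sc0 {f : Γ → ℝ} (hf : S.Lin f) {x y z w : Γ} (hx : f x = 1) (hy : f y = 1) (hz : f z = 1)
    (hxy : x ≠ y) (hxz : x ≠ z) (hyz : y ≠ z) (hw : S.o x w y ≠ 0) : S.o x z y ≠ 0 := by
  intro h0
  have c := fun (μ : Γ → ℝ) (hμ : S.Lin μ) => S.cramer hμ x w y z
  have c0 := c f hf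
  have c1 := c _ (S.lin_B x)
  have c2 := c _ (S.lin_B y)
  have c3 := c _ (S.lin_B z)
  rw [h0] at c0 c1 c2 c3
  rw [hx, hy, hz] at c0
  rw [S.B_self] at c1 c2 c3
  have b1 := S.B_gt x y hxy
  have b2 := S.B_gt x z hxz
  have b3 := S.B_gt y z hyz
  rw [S.B_symm y x] at c2
  rw [S.B_symm z x, S.B_symm z y] at c3
  set D := S.o x w y
  set r := S.o z w y
  set t := S.o x w z
  have e1 : D * (S.B x z - 1) = t * (S.B x y - 1) := by linarith
  have e2 : D * (S.B y z - 1) = r * (S.B x y - 1) := by linarith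
  have e3 : r * (S.B x z - 1) + t * (S.B y z - 1) = 0 := by linarith
  rcases lt_or_gt_of_ne hw with hD | hD
  · have ht : t < 0 := by by_contra hc; push Not at hc; nlinarith
    have hr : r < 0 := by by_contra hc; push Not at hc; nlinarith
    nlinarith
  · have ht : 0 < t := by by_contra hc; push Not at hc; nlinarith
    have hr : 0 < r := by by_contra hc; push Not at hc; nlinarith
    nlinarith

/-- two boundary points on the same ray agree -/
lemma same_ray {f f' : Γ → ℝ} (hf : S.Sup f) (hf' : S.Sup f') {b u v w : Γ}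
    (h1 : f b = 1) (hu : f u = 1) (h1' : f' b = 1) (hv : f' v = 1) (hub : u ≠ b) (hvb : v ≠ b)
    (h0 : S.o b v u = 0) (hw : 0 < S.o b w u * S.o b w v) : u = v := by
  by_contra huv
  have c0 := S.cramer hf.1 b w u v
  have c1 := S.cramer hf'.1 b w u v
  rw [h0, h1, hu] at c0
  rw [h0, h1', hv] at c1
  have e1 := hf.2 v
  have e2 := hf'.2 u
  have hD : S.o b w u ≠ 0 := by intro h; rw [h] at hw; simp at hw
  have hfv : f v = 1 := by
    set D := S.o b w u
    set t := S.o b w v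
    have k : D * (f v - 1) + t * (f' u - 1) = 0 := by linarith
    have k2 : D * D * (f v - 1) + D * t * (f' u - 1) = 0 := by linear_combination D * k
    have k3 : 0 < D * D := mul_self_pos.2 hD
    nlinarith
  exact S.sc0 hf.1 h1 hu hfv hub.symm hvb.symm huv hD h0

end Geo

end Pool.Agent.H882Z.SC.Del
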