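import Pool.Agent.H882Z.SC.DelA

set_option autoImplicit false

open scoped Pointwise

namespace Pool.Agent.H882Z.SC.Del

variable {Γ : Type} [Group Γ]

/-- an equivariant choice of apex -/
def IsApex (a : Set Γ → Γ) : Prop :=
  ∀ C : Set Γ, C.Finite → C.Nonempty → a C ∈ C ∧ ∀ g : Γ, a (g • C) = g * a C

namespace Geo
variable (S : Geo Γ) (a : Set Γ → Γ)

/-- edges of the triangulation -/
def E (x y : Γ) : Prop :=
  x ≠ y ∧ (∃ f, S.Sup f ∧ f x = 1 ∧ f y = 1) ∧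
    ∀ f, S.Sup f → f x = 1 → f y = 1 → ∀ z w, f z = 1 → f w = 1 → 0 < S.o x y z →
      S.o x y w < 0 → (a {t | f t = 1} = x ∨ a {t | f t = 1} = y)

/-- positively oriented triangles -/
def T (x y z : Γ) : Prop :=
  S.E a x y ∧ S.E a x z ∧ 0 < S.o x y z ∧ ∀ w, S.E a x w → 0 < S.o x y w → S.o x w z ≤ 0

variable {S a}

lemma E.symm {x y : Γ} (h : S.E a x y) : S.E a y x := by
  obtain ⟨h1, ⟨f, hf, hx, hy⟩, h3⟩ := h
  refine ⟨h1.symm, ⟨f, hf, hy, hx⟩, fun f hf hy hx z w hz hw h4 h5 => ?_⟩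
  rw [S.o_swap] at h4 h5
  exact (h3 f hf hx hy w z hw hz (by linarith) (by linarith)).symm

lemma E.smul (ha : IsApex a) {x y : Γ} (h : S.E a x y) (g : Γ) : S.E a (g * x) (g * y) := by
  obtain ⟨h1, ⟨f, hf, hx, hy⟩, h3⟩ := h
  refine ⟨fun h => h1 (mul_left_cancel h), ⟨fun t => f (g⁻¹ * t), S.sup_inv hf _, by simpa, by simpa⟩,
    fun f hf hx hy z w hz hw h4 h5 => ?_⟩
  have h6 := h3 (fun t => f (g * t)) (S.sup_inv hf g) hx hy (g⁻¹ * z) (g⁻¹ * w) (by simpa)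
    (by simpa) (by rw [← S.o_inv g]; simpa) (by rw [← S.o_inv g]; simpa)
  have h7 : {t | f t = 1} = g • {t | f (g * t) = 1} := by
    ext t
    rw [Set.mem_smul_set_iff_inv_smul_mem]
    simp
  rw [h7, (ha _ (S.Z_fin (S.sup_inv hf g)) ⟨x, hx⟩).2 g]
  rcases h6 with h6 | h6
  · left; rw [h6]
  · right; rw [h6]

lemma T.smul (ha : IsApex a) {x y z : Γ} (h : S.T a x y z) (g : Γ) :
    S.T a (g * x) (g * y) (g * z) := by
  obtain ⟨h1, h2, h3, h4⟩ := h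
  refine ⟨h1.smul ha g, h2.smul ha g, by rwa [S.o_inv], fun w hw h5 => ?_⟩
  have h6 := hw.smul ha g⁻¹
  rw [inv_mul_cancel_left] at h6
  have h7 := h4 _ h6 (by rw [← S.o_inv g]; simpa)
  rw [← S.o_inv g] at h7
  simpa using h7

lemma E_of_apex {f : Γ → ℝ} (hf : S.Sup f) {x y : Γ} (hxy : x ≠ y) (hx : f x = 1) (hy : f y = 1)
    (h : a {t | f t = 1} = x ∨ a {t | f t = 1} = y) : S.E a x y := by
  refine ⟨hxy, ⟨f, hf, hx, hy⟩, fun f' hf' hx' hy' z w hz hw h1 h2 => ?_⟩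
  rw [← S.sup_eq hf hf' hx hy hx' hy' hz hw h1 h2]
  exact h

lemma exists_E (ha : IsApex a) {f : Γ → ℝ} (hf : S.Lin f) (h1 : f 1 = 1) {w0 : Γ}
    (hw0 : f w0 < 1) : ∃ u, S.E a 1 u ∧ f u < 1 := by
  obtain ⟨f1, hf1, h11, ⟨x, hx1, hx⟩, hlt⟩ := S.exists_sup hf h1 hw0
  have hm := (ha _ (S.Z_fin hf1) ⟨1, h11⟩).1
  by_cases hc : a {t | f1 t = 1} = 1
  · exact ⟨x, E_of_apex hf1 hx1.symm h11 hx (Or.inl hc), hlt x hx1 hx⟩
  · exact ⟨_, E_of_apex hf1 (Ne.symm hc) h11 hm (Or.inr rfl), hlt _ hc hm⟩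

lemma E_fin : {u | S.E a 1 u}.Finite :=
  S.W_fin.subset fun _ ⟨h1, ⟨_, hf, hx, hy⟩, _⟩ => S.mem_W hf hx h1.symm hy

lemma exists_left (ha : IsApex a) {u : Γ} (hu : u ≠ 1) : ∃ v, S.E a 1 v ∧ 0 < S.o 1 u v := by
  have h0 := S.pq_ne hu
  have hy : -S.q u ≠ 0 ∨ S.p u ≠ 0 := by
    by_contra hc
    push Not at hc
    have : S.q u = 0 := by linarith [hc.1]
    rw [this, hc.2] at h0
    simp at h0
  obtain ⟨w, _, hw1, hw, _⟩ := S.W_max _ _ hy
  have hw' : 0 < S.o 1 u w := by rw [S.o_one]; linarith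
  obtain ⟨v, hv, hlt⟩ := exists_E (S := S) ha
    (f := fun x => 1 * S.A x + (-(S.A w / S.o 1 u w)) * S.o 1 u x)
    (S.lin_comb S.lin_A (S.lin_o 1 u) _ _) (by simp [S.A1, S.o_ac]) (w0 := w)
    (by field_simp; linarith)
  refine ⟨v, hv, ?_⟩
  by_contra hc
  push Not at hc
  have h2 := S.A_ge v
  have h3 : 0 < S.A w / S.o 1 u w := div_pos (by linarith [S.A_ge w]) hw'
  nlinarith

lemma exists_T (ha : IsApex a) {u : Γ} (hu : S.E a 1 u) : ∃ v, S.T a 1 u v := by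
  obtain ⟨v0, hv0, hv0'⟩ := exists_left (S := S) ha hu.1.symm
  obtain ⟨v, ⟨hv, hv'⟩, hm⟩ := Set.exists_max_image ({v | S.E a 1 v} ∩ {v | 0 < S.o 1 u v})
    (fun v => (S.p u * S.p v + S.q u * S.q v) / S.o 1 u v) (E_fin.inter_of_left _) ⟨v0, hv0, hv0'⟩
  refine ⟨v, hu, hv, hv', fun w hw hw' => ?_⟩
  have h1 := hm w ⟨hw, hw'⟩
  have hv'' : 0 < S.o 1 u v := hv'
  rw [div_le_div_iff₀ hw' hv''] at h1
  have h2 := S.pq_ne hu.1.symm
  have h3 : S.o 1 w v * (S.p u ^ 2 + S.q u ^ 2) = (S.p u * S.p w + S.q u * S.q w) * S.o 1 u v -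
      (S.p u * S.p v + S.q u * S.q v) * S.o 1 u w := by
    simp only [S.o_one]; ring
  by_contra hc
  push Not at hc
  nlinarith [mul_pos hc h2]

lemma E.eq_of_ray {b u v w : Γ} (hu : S.E a b u) (hv : S.E a b v) (h0 : S.o b v u = 0)
    (hw : 0 < S.o b w u * S.o b w v) : u = v := by
  obtain ⟨h1, ⟨f, hf, hx, hy⟩, _⟩ := hu
  obtain ⟨h1', ⟨f', hf', hx', hy'⟩, _⟩ := hv
  exact S.same_ray hf hf' hx hy hx' hy' h1.symm h1'.symm h0 hw

lemma T.unique {b u v v' : Γ} (h : S.T a b u v) (h' : S.T a b u v') : v = v' := by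
  have h1 := h.2.2.2 v' h'.2.1 h'.2.2.1
  have h2 := h'.2.2.2 v h.2.1 h.2.2.1
  rw [S.o_swap'] at h2
  exact E.eq_of_ray h.2.1 h'.2.1 (by linarith) (mul_pos h.2.2.1 h'.2.2.1)

lemma T.sup (ha : IsApex a) {u v : Γ} (h : S.T a 1 u v) :
    ∃ f, S.Sup f ∧ f 1 = 1 ∧ f u = 1 ∧ f v = 1 := by
  obtain ⟨hu, hv, hD, hT⟩ := h
  obtain ⟨f, hf, h1, h2, h3⟩ := S.lin_three 1 u v hD.ne'
  refine ⟨f, ⟨hf, fun w => ?_⟩, h1, h2, h3⟩
  by_contra hc
  push Not at hc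
  obtain ⟨x, hx, hlt⟩ := exists_E (S := S) ha hf h1 hc
  obtain ⟨_, ⟨fu, hfu, a1, a2⟩, _⟩ := hu
  obtain ⟨_, ⟨fv, hfv, b1, b2⟩, _⟩ := hv
  have c0 := S.cramer hf 1 u v x
  have c1 := S.cramer hfu.1 1 u v x
  have c2 := S.cramer hfv.1 1 u v x
  rw [h1, h2, h3] at c0
  rw [a1, a2] at c1
  rw [b1, b2] at c2
  have e1 := hfu.2 x
  have e2 := hfu.2 v
  have e3 := hfv.2 x
  have e4 := hfv.2 u
  have k0 : S.o 1 u v * f x < S.o 1 u v := by nlinarith
  have k1 : S.o 1 u v ≤ S.o 1 u v * fu x := by nlinarith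
  have k2 : S.o 1 u v ≤ S.o 1 u v * fv x := by nlinarith
  have ht : 0 < S.o 1 u x := by by_contra hc; push Not at hc; nlinarith
  have hs : 0 < S.o 1 x v := by by_contra hc; push Not at hc; nlinarith
  linarith [hT x hx ht]

lemma T.cyc1 (ha : IsApex a) {u v : Γ} (h : S.T a 1 u v) : S.T a u v 1 := by
  obtain ⟨f, hf, h1, hu1, hv1⟩ := h.sup ha
  obtain ⟨hu, hv, hD, hT⟩ := h
  have huv : u ≠ v := by rintro rfl; rw [S.o_ab] at hD; linarith
  have hap := (ha _ (S.Z_fin hf) ⟨1, h1⟩).1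
  have hEuv : S.E a u v := by
    refine ⟨huv, ⟨f, hf, hu1, hv1⟩, fun f' hf' hu' hv' z w hz hw h2 h3 => ?_⟩
    have hff := S.sup_eq hf hf' hu1 hv1 hu' hv' hz hw h2 h3
    subst hff
    -- `w` lies in the open sector
    have c0 := S.cramer hf.1 1 u v w
    have c1 := S.cramer (S.lin_B v) 1 u v w
    have c2 := S.cramer (S.lin_B u) 1 u v w
    rw [h1, hu1, hv1, hw] at c0
    rw [S.B_self] at c1 c2
    have hr : S.o w u v < 0 := by rw [← S.o_cyc]; exact h3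
    have b1 := S.B_gt v 1 hv.1.symm
    have b2 := S.B_ge v w
    have b3 := S.B_ge v u
    have b4 := S.B_gt u 1 hu.1.symm
    have b5 := S.B_ge u w
    have b6 := S.B_ge u v
    have hs : 0 < S.o 1 w v := by by_contra hc; push Not at hc; nlinarith
    have ht : 0 < S.o 1 u w := by by_contra hc; push Not at hc; nlinarith
    have hw1 : (1 : Γ) ≠ w := by rintro rfl; rw [S.o_aa] at hs; linarith
    by_contra hc
    push Not at hc
    by_cases hc1 : a {t | f t = 1} = 1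
    · have := hT w (E_of_apex hf hw1 h1 hw (Or.inl hc1)) ht
      linarith
    · set x := a {t | f t = 1} with hxdef
      have hx : f x = 1 := hap
      have hE : S.E a 1 x := E_of_apex hf (Ne.symm hc1) h1 hx (Or.inr rfl)
      by_cases hp : 0 < S.o 1 u x
      · have h4 := hT x hE hp
        have h5 := S.sc0 hf.1 h1 hv1 hx hv.1 (Ne.symm hc1) (Ne.symm hc.2) hD.ne'
        have h6 : 0 < S.o 1 v x := by
          rw [S.o_swap']; have := lt_of_le_of_ne h4 h5; linarith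
        rcases hv.2.2 f hf h1 hv1 x u hx hu1 h6 (by rw [S.o_swap']; linarith) with h7 | h7
        · exact hc1 h7
        · exact hc.2 h7
      · have h5 := S.sc0 hf.1 h1 hu1 hx hu.1 (Ne.symm hc1) (Ne.symm hc.1) (w := v)
          (by rw [S.o_swap']; linarith)
        have h6 : S.o 1 u x < 0 := by
          refine lt_of_le_of_ne (not_lt.1 hp) fun h7 => h5 ?_
          rw [S.o_swap', h7]; simp
        rcases hu.2.2 f hf h1 hu1 v x hv1 hx hD h6 with h7 | h7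
        · exact hc1 h7
        · exact hc.1 h7
  refine ⟨hEuv, hu.symm, by rw [S.o_cyc]; exact hD, fun x hx ht => ?_⟩
  by_contra hs
  push Not at hs
  obtain ⟨hux, ⟨f', hf', a1, a2⟩, hx3⟩ := hx
  have hD' : 0 < S.o u v 1 := by rw [S.o_cyc]; exact hD
  have c0 := S.cramer hf.1 u v 1 x
  have c1 := S.cramer hf'.1 u v 1 x
  have c2 := S.cramer (S.lin_B x) u v 1 x
  rw [h1, hu1, hv1] at c0
  rw [a1, a2] at c1
  rw [S.B_self] at c2
  have e1 := hf.2 x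
  have e2 := hf'.2 v
  have e3 := hf'.2 1
  have hx1 : f x = 1 := by nlinarith
  rw [hx1] at c0
  have hxv : x ≠ v := by rintro rfl; rw [S.o_ab] at ht; linarith
  have hx1' : x ≠ 1 := by rintro rfl; rw [S.o_ab] at hs; linarith
  have b1 := S.B_gt x v hxv
  have b2 := S.B_ge x u
  have b3 := S.B_ge x 1
  have hr : S.o x v 1 < 0 := by by_contra hc; push Not at hc; nlinarith
  have k1 := hx3 f hf hu1 hx1 1 v h1 hv1 hs (by rw [S.o_swap']; linarith)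
  have k2 := hv.2.2 f hf h1 hv1 x u hx1 hu1 (by rw [S.o_rev]; linarith)
    (by rw [S.o_swap']; linarith)
  rcases k1 with k1 | k1 <;> rcases k2 with k2 | k2
  · exact hu.1 (k2.symm.trans k1)
  · exact huv (k1.symm.trans k2)
  · exact hx1' (k1.symm.trans k2)
  · exact hxv (k1.symm.trans k2)

lemma T.cyc (ha : IsApex a) {x y z : Γ} (h : S.T a x y z) : S.T a y z x := by
  have h1 := h.smul ha x⁻¹
  rw [inv_mul_cancel] at h1
  have h2 := (h1.cyc1 ha).smul ha x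
  simpa using h2

end Geo

end Pool.Agent.H882Z.SC.Del
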