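import Pool.Agent.H882Z.SC.DelB

set_option autoImplicit false

namespace Pool.Agent.H882Z.SC.Del

variable {Γ : Type} [Group Γ]

namespace Geo
variable (S : Geo Γ) (a : Set Γ → Γ)

open Classical in
/-- next neighbour -/
noncomputable def nx (u : Γ) : Γ := if h : ∃ v, S.T a 1 u v then h.choose else u

noncomputable def N : Finset Γ := (E_fin (S := S) (a := a)).toFinset

variable {S a}

lemma mem_N {u : Γ} : u ∈ S.N a ↔ S.E a 1 u := by simp [N]

lemma T_nx (ha : IsApex a) {u : Γ} (hu : S.E a 1 u) : S.T a 1 u (S.nx a u) := by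
  have h := exists_T ha hu
  simp only [nx, dif_pos h]
  exact h.choose_spec

lemma nx_eq (ha : IsApex a) {u v : Γ} (h : S.T a 1 u v) : S.nx a u = v :=
  (T_nx ha h.1).unique h

lemma T_tri (ha : IsApex a) {u : Γ} (hu : S.E a 1 u) : S.T a 1 (u⁻¹ * S.nx a u) u⁻¹ := by
  have h := ((T_nx ha hu).cyc ha).smul ha u⁻¹
  simpa using h

lemma E_iter (ha : IsApex a) {u : Γ} (hu : S.E a 1 u) (k : ℕ) : S.E a 1 ((S.nx a)^[k] u) := by
  induction k with
  | zero => exact hu
  | succ k ih => rw [Function.iterate_succ_apply']; exact (T_nx ha ih).2.1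

lemma walk0 (ha : IsApex a) {u : Γ} (hu : S.E a 1 u) : ∀ (m : ℕ) (w : Γ), S.E a 1 w →
    0 < S.o 1 w u → {x | S.E a 1 x ∧ 0 < S.o 1 w x ∧ 0 < S.o 1 x u}.ncard = m →
    ∃ k : ℕ, 0 < k ∧ (S.nx a)^[k] w = u ∧ ∀ j, 0 < j → j < k →
      0 < S.o 1 w ((S.nx a)^[j] w) ∧ 0 < S.o 1 ((S.nx a)^[j] w) u := by
  intro m
  induction m using Nat.strong_induction_on with
  | _ m ih =>
  intro w hw h0 hm
  have hT := T_nx ha hw
  set v := S.nx a w with hv
  by_cases huv : v = u
  · exact ⟨1, one_pos, huv, fun j h1 h2 => by omega⟩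
  have h1 : S.o 1 u v ≤ 0 := hT.2.2.2 u hu h0
  have h2 : S.o 1 u v ≠ 0 := fun h => huv (E.eq_of_ray hT.2.1 hu h (mul_pos hT.2.2.1 h0))
  have h3 : 0 < S.o 1 v u := by
    rw [S.o_swap']; have := lt_of_le_of_ne h1 h2; linarith
  have key : ∀ x, 0 < S.o 1 v x → 0 < S.o 1 x u → 0 < S.o 1 w x := by
    intro x a1 a2
    have := S.plucker 1 w x v u
    have e : 0 < S.o 1 w x * S.o 1 v u := by
      rw [this]; have := mul_pos hT.2.2.1 a2; have := mul_pos h0 a1; linarith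
    exact (mul_pos_iff_of_pos_right h3).1 e
  have hlt : {x | S.E a 1 x ∧ 0 < S.o 1 v x ∧ 0 < S.o 1 x u}.ncard < m := by
    rw [← hm]
    refine Set.ncard_lt_ncard ⟨fun x hx => ⟨hx.1, key x hx.2.1 hx.2.2, hx.2.2⟩, fun hc => ?_⟩
      (E_fin.subset fun x hx => hx.1)
    have := (hc ⟨hT.2.1, hT.2.2.1, h3⟩).2.1
    rw [S.o_ab] at this
    linarith
  obtain ⟨k, hk, hku, hj⟩ := ih _ hlt v hT.2.1 h3 rfl
  refine ⟨k + 1, by omega, by rw [Function.iterate_succ_apply]; exact hku, fun j j1 j2 => ?_⟩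
  obtain ⟨i, rfl⟩ : ∃ i, j = i + 1 := ⟨j - 1, by omega⟩
  rw [Function.iterate_succ_apply]
  rcases Nat.eq_zero_or_pos i with rfl | hi
  · exact ⟨hT.2.2.1, h3⟩
  · have := hj i hi (by omega)
    exact ⟨key _ this.1 this.2, this.2⟩

lemma opp (ha : IsApex a) {w u : Γ} (hw : S.E a 1 w) (hu : S.E a 1 u) (hwu : w ≠ u)
    (h0 : S.o 1 w u = 0) : S.o 1 u (S.nx a w) < 0 := by
  have hT := T_nx ha hw
  set x := S.nx a w
  have hD := hT.2.2.1
  by_contra hc
  push Not at hc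
  rcases hc.lt_or_eq with h | h
  · refine hwu (E.eq_of_ray hw hu (w := x) (by rw [S.o_swap', h0]; simp) ?_)
    rw [S.o_swap' 1 w x, S.o_swap' 1 u x]
    nlinarith
  · have h1 := S.pq_ne hu.1.symm
    simp only [S.o_one] at h h0 hD
    have e1 : S.p u * (S.p w * S.q x - S.q w * S.p x) = 0 := by
      linear_combination S.p x * h0 - S.p w * h
    have e2 : S.q u * (S.p w * S.q x - S.q w * S.p x) = 0 := by
      linear_combination S.q x * h0 - S.q w * h
    have e3 : S.p u = 0 := (mul_eq_zero.1 e1).resolve_right hD.ne'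
    have e4 : S.q u = 0 := (mul_eq_zero.1 e2).resolve_right hD.ne'
    rw [e3, e4] at h1
    simp at h1

lemma nx_inj (ha : IsApex a) {u u' : Γ} (hu : S.E a 1 u) (hu' : S.E a 1 u')
    (h : S.nx a u = S.nx a u') : u = u' := by
  have h1 := ((T_nx ha hu).cyc ha).cyc ha
  have h2 := ((T_nx ha hu').cyc ha).cyc ha
  rw [h] at h1
  exact h1.unique h2

lemma back (ha : IsApex a) {u v : Γ} (hv : S.E a 1 v) {k : ℕ} (h : (S.nx a)^[k] v = u) :
    ∃ j, (S.nx a)^[j] u = v := by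
  obtain ⟨i, j, hij, he⟩ := (E_fin (S := S) (a := a)).exists_lt_map_eq_of_forall_mem
    (f := fun i : ℕ => (S.nx a)^[i] v) (fun i => E_iter ha hv i)
  have hinj : ∀ (i : ℕ) (x y : Γ), S.E a 1 x → S.E a 1 y → (S.nx a)^[i] x = (S.nx a)^[i] y →
      x = y := by
    intro i
    induction i with
    | zero => intro x y _ _ h; exact h
    | succ i ih =>
      intro x y hx hy h
      rw [Function.iterate_succ_apply', Function.iterate_succ_apply'] at h
      exact ih x y hx hy (nx_inj ha (E_iter ha hx i) (E_iter ha hy i) h)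
  have hp : (S.nx a)^[j - i] v = v := by
    refine hinj i _ _ (E_iter ha hv _) hv ?_
    rw [← Function.iterate_add_apply, show i + (j - i) = j by omega]
    exact he.symm
  have hp2 : ∀ m : ℕ, (S.nx a)^[(j - i) * m] v = v := fun m => by
    rw [Function.iterate_mul]; exact Function.iterate_fixed hp m
  refine ⟨(j - i) * k - k, ?_⟩
  rw [← h, ← Function.iterate_add_apply]
  have : k ≤ (j - i) * k := Nat.le_mul_of_pos_left k (by omega)
  rw [show (j - i) * k - k + k = (j - i) * k by omega]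
  exact hp2 k

lemma trans' (ha : IsApex a) {u v : Γ} (hu : S.E a 1 u) (hv : S.E a 1 v) :
    ∃ k : ℕ, (S.nx a)^[k] u = v := by
  by_cases huv : u = v
  · exact ⟨0, huv⟩
  rcases lt_trichotomy 0 (S.o 1 u v) with h | h | h
  · obtain ⟨k, _, hk, _⟩ := walk0 ha hv _ u hu h rfl
    exact ⟨k, hk⟩
  · have h1 := opp ha hu hv huv h.symm
    obtain ⟨k, _, hk, _⟩ := walk0 ha hv _ (S.nx a u) (T_nx ha hu).2.1
      (by rw [S.o_swap']; linarith) rfl
    exact ⟨k + 1, by rw [Function.iterate_succ_apply]; exact hk⟩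
  · obtain ⟨k, _, hk, _⟩ := walk0 ha hu _ v hv (by rw [S.o_swap']; linarith) rfl
    exact back ha hv hk

lemma tri0 (ha : IsApex a) : Tri0 (S.N a) (S.nx a) where
  nonempty := by
    obtain ⟨w, _, hw1, _⟩ := S.W_max 1 0 (Or.inl one_ne_zero)
    obtain ⟨v, hv, _⟩ := exists_left (S := S) ha hw1
    exact ⟨v, mem_N.2 hv⟩
  one_not_mem := fun h => (mem_N.1 h).1 rfl
  inv_mem := fun u hu => mem_N.2 (T_tri ha (mem_N.1 hu)).2.1
  n_mem := fun u hu => mem_N.2 (T_nx ha (mem_N.1 hu)).2.1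
  tri_mem := fun u hu => mem_N.2 (T_tri ha (mem_N.1 hu)).1
  tri := fun u hu => nx_eq ha (T_tri ha (mem_N.1 hu))
  trans := fun u hu v hv => trans' ha (mem_N.1 hu) (mem_N.1 hv)

lemma lin_ht (g : Γ) : S.Lin (fun x => S.A (g * x)) := S.Lin_inv _ g S.lin_A

lemma walk1 (ha : IsApex a) (g : Γ) {w u : Γ} (hw : S.E a 1 w) (hu : S.E a 1 u)
    (h0 : 0 < S.o 1 w u) (h1 : S.A (g * w) ≤ S.A g) (h2 : S.A (g * u) ≤ S.A g)
    (h3 : S.A (g * w) < S.A g ∨ S.A (g * u) < S.A g) :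
    ∃ k : ℕ, 0 < k ∧ (S.nx a)^[k] w = u ∧ ∀ j, 0 < j → j < k →
      S.A (g * (S.nx a)^[j] w) < S.A g := by
  obtain ⟨k, hk, hku, hj⟩ := walk0 ha hu _ w hw h0 rfl
  refine ⟨k, hk, hku, fun j j1 j2 => ?_⟩
  obtain ⟨ht, hs⟩ := hj j j1 j2
  obtain ⟨_, ⟨f, hf, a1, a2⟩, _⟩ := E_iter ha hw j
  set x := (S.nx a)^[j] w
  have c0 := S.cramer hf.1 1 w u x
  have c1 := S.cramer (S.lin_ht g) 1 w u x
  rw [a1, a2] at c0
  simp only [mul_one] at c1
  have e1 := hf.2 w
  have e2 := hf.2 u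
  have hH := S.A_ge g
  have k0 : S.o x w u + S.o 1 x u + S.o 1 w x ≤ S.o 1 w u := by nlinarith
  have k1 : S.o 1 x u * S.A (g * w) + S.o 1 w x * S.A (g * u) <
      S.o 1 x u * S.A g + S.o 1 w x * S.A g := by
    rcases h3 with h3 | h3 <;> nlinarith
  have k2 : S.o 1 w u * S.A (g * x) < S.o 1 w u * S.A g := by nlinarith
  exact lt_of_mul_lt_mul_left k2 h0.le

lemma morse (ha : IsApex a) : Morse (fun g => 2 * S.A g) (S.N a) (S.nx a) where
  min := fun g => by have := S.A_ge g; rw [S.A1]; linarith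
  desc := fun g hg => by
    have hA := S.A_gt hg
    obtain ⟨u, hu, hlt⟩ := exists_E (S := S) ha
      (f := fun x => (1 / S.A g) * S.A (g * x) + 0 * S.A x)
      (S.lin_comb (S.lin_ht g) S.lin_A _ _) (by field_simp; simp) (w0 := g⁻¹)
      (by simp only [mul_inv_cancel, S.A1, mul_one, zero_mul, add_zero]
          rw [div_lt_one (by linarith)]; exact hA)
    refine ⟨u, mem_N.2 hu, ?_⟩
    simp only [zero_mul, add_zero] at hlt
    rw [one_div, inv_mul_lt_iff₀ (by linarith)] at hlt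
    linarith
  walk := fun g w hw u hu hwu h1 h2 h3 => by
    have hw := mem_N.1 hw
    have hu := mem_N.1 hu
    have h1' : S.A (g * w) ≤ S.A g := by linarith
    have h2' : S.A (g * u) ≤ S.A g := by linarith
    have h3' : S.A (g * w) < S.A g ∨ S.A (g * u) < S.A g := by
      rcases h3 with h3 | h3
      · left; linarith
      · right; linarith
    rcases lt_trichotomy 0 (S.o 1 w u) with h | h | h
    · obtain ⟨k, hk, hku, hj⟩ := walk1 ha g hw hu h h1' h2' h3'
      exact Or.inl ⟨k, hk, hku, fun j j1 j2 => by have := hj j j1 j2; linarith⟩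
    · exfalso
      have hs := opp ha hw hu hwu h.symm
      have hD := (T_nx ha hw).2.2.1
      set x := S.nx a w
      obtain ⟨_, ⟨f, hf, a1, a2⟩, _⟩ := hu
      have c0 := S.cramer hf.1 1 w x u
      have c1 := S.cramer (S.lin_ht g) 1 w x u
      rw [a1, a2, ← h] at c0
      rw [← h] at c1
      simp only [mul_one] at c1
      have e1 := hf.2 w
      have hH := S.A_ge g
      have k0 : S.o 1 w x - S.o 1 u x ≤ S.o u w x := by nlinarith
      have k1 : S.o 1 w x * S.A (g * u) - S.o 1 u x * S.A (g * w) <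
          S.o 1 w x * S.A g - S.o 1 u x * S.A g := by
        rcases h3' with h3 | h3 <;> nlinarith
      nlinarith
    · obtain ⟨k, hk, hku, hj⟩ := walk1 ha g hu hw (by rw [S.o_swap']; linarith) h2' h1' h3'.symm
      exact Or.inr ⟨k, hk, hku, fun j j1 j2 => by have := hj j j1 j2; linarith⟩

end Geo

theorem Geo.main (S : Geo Γ) : ∃ (N : Finset Γ) (n : Γ → Γ), Tri0 N n ∧
    Morse (fun g => 2 * S.A g) N n := by
  obtain ⟨a, ha⟩ := exists_apex S.tf
  exact ⟨S.N a, S.nx a, Geo.tri0 ha, Geo.morse ha⟩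

end Pool.Agent.H882Z.SC.Del
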