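import Pool.Agent.H882Z.SC.DelC

set_option autoImplicit false

namespace Pool.Agent.H882Z.SC

lemma det2 (g : G) : g 0 0 * g 1 1 - g 0 1 * g 1 0 = 1 := by
  have := g.det_coe
  rwa [Matrix.det_fin_two] at this

lemma mul_ap (g h : G) (i j : Fin 2) : (g * h) i j = g i 0 * h 0 j + g i 1 * h 1 j := by
  simp [Matrix.mul_apply, Fin.sum_univ_two]

lemma inv00 (g : G) : g⁻¹ 0 0 = g 1 1 := by
  rw [Matrix.SpecialLinearGroup.SL2_inv_expl]; rfl
lemma inv01 (g : G) : g⁻¹ 0 1 = -g 0 1 := by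
  rw [Matrix.SpecialLinearGroup.SL2_inv_expl]; rfl
lemma inv10 (g : G) : g⁻¹ 1 0 = -g 1 0 := by
  rw [Matrix.SpecialLinearGroup.SL2_inv_expl]; rfl
lemma inv11 (g : G) : g⁻¹ 1 1 = g 0 0 := by
  rw [Matrix.SpecialLinearGroup.SL2_inv_expl]; rfl

lemma nrm_mul_le (g h : G) : nrm (g * h) ≤ nrm g * nrm h := by
  simp only [nrm, mul_ap]
  nlinarith [sq_nonneg (g 0 0 * h 1 0 - g 0 1 * h 0 0), sq_nonneg (g 0 0 * h 1 1 - g 0 1 * h 0 1),
    sq_nonneg (g 1 0 * h 1 0 - g 1 1 * h 0 0), sq_nonneg (g 1 0 * h 1 1 - g 1 1 * h 0 1)]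

lemma nrm_inv (g : G) : nrm g⁻¹ = nrm g := by
  simp only [nrm, inv00, inv01, inv10, inv11]; ring

lemma two_le_nrm (g : G) : 2 ≤ nrm g := by
  have := det2 g
  simp only [nrm]
  nlinarith [sq_nonneg (g 0 0 - g 1 1), sq_nonneg (g 0 1 + g 1 0)]

lemma abs_le_of_nrm {g : G} {C : ℝ} (h : nrm g ≤ C) (i j : Fin 2) : |g i j| ≤ C := by
  have h2 := two_le_nrm g
  have : g i j ^ 2 ≤ C := by
    simp only [nrm] at h
    fin_cases i <;> fin_cases j <;> simp <;> nlinarith [sq_nonneg (g 0 0), sq_nonneg (g 0 1),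
      sq_nonneg (g 1 0), sq_nonneg (g 1 1)]
  rw [abs_le]
  constructor <;> nlinarith

theorem proper : ProperStmt := by
  intro Γ hΓ C
  obtain ⟨ε, hε, hd⟩ := hΓ.disc
  by_cases hC : C < 2
  · convert Set.finite_empty
    ext g
    simp only [Set.mem_setOf_eq, Set.mem_empty_iff_false, iff_false, not_le]
    linarith [two_le_nrm (g : G)]
  push Not at hC
  set η := ε / (2 * C) with hη
  have hη0 : 0 < η := by positivity
  let F : Γ → (Fin 2 → Fin 2 → ℤ) := fun g i j => ⌊(g : G) i j / η⌋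
  refine Set.Finite.of_finite_image (f := F) ?_ ?_
  · refine (Set.Finite.pi (t := fun _ : Fin 2 => Set.pi Set.univ fun _ : Fin 2 =>
      Set.Icc ⌊-C / η⌋ ⌊C / η⌋) fun _ => Set.Finite.pi fun _ => Set.finite_Icc _ _).subset ?_
    rintro _ ⟨g, hg, rfl⟩ i _ j _
    have := abs_le.1 (abs_le_of_nrm hg i j)
    exact ⟨Int.floor_mono (div_le_div_of_nonneg_right this.1 hη0.le),
      Int.floor_mono (div_le_div_of_nonneg_right this.2 hη0.le)⟩
  · intro g hg h hh he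
    have hclose : ∀ i j, |(h : G) i j - (g : G) i j| < η := by
      intro i j
      have h1 : ⌊(g : G) i j / η⌋ = ⌊(h : G) i j / η⌋ := congrFun (congrFun he i) j
      have h2 := Int.abs_sub_lt_one_of_floor_eq_floor h1.symm
      rw [← sub_div, abs_div, abs_of_pos hη0, div_lt_one hη0] at h2
      exact h2
    have h1 : ((g⁻¹ * h : Γ) : G) = 1 := by
      refine hd _ (g⁻¹ * h).2 fun i j => ?_
      have e : ((g⁻¹ * h : Γ) : G) i j - (1 : Matrix (Fin 2) (Fin 2) ℝ) i j =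
          (g : G)⁻¹ i 0 * ((h : G) 0 j - (g : G) 0 j) +
          (g : G)⁻¹ i 1 * ((h : G) 1 j - (g : G) 1 j) := by
        have e1 : (1 : Matrix (Fin 2) (Fin 2) ℝ) i j = ((g : G)⁻¹ * (g : G)) i j := by simp
        rw [e1, Subgroup.coe_mul, Subgroup.coe_inv, mul_ap, mul_ap]; ring
      change |((g⁻¹ * h : Γ) : G) i j - (1 : Matrix (Fin 2) (Fin 2) ℝ) i j| < ε
      rw [e]
      have hg' : nrm (g : G)⁻¹ ≤ C := by rw [nrm_inv]; exact hg
      have a1 := abs_le_of_nrm hg' i 0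
      have a2 := abs_le_of_nrm hg' i 1
      have a3 := hclose 0 j
      have a4 := hclose 1 j
      have a5 : 2 * C * η = ε := by rw [hη]; field_simp
      refine (abs_add_le _ _).trans_lt ?_
      rw [abs_mul, abs_mul]
      have b1 := abs_nonneg ((g : G)⁻¹ i 0)
      have b2 := abs_nonneg ((g : G)⁻¹ i 1)
      have b3 := abs_nonneg ((h : G) 0 j - (g : G) 0 j)
      have b4 := abs_nonneg ((h : G) 1 j - (g : G) 1 j)
      nlinarith
    have h2 : g⁻¹ * h = 1 := Subtype.ext h1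
    exact inv_mul_eq_one.1 h2

lemma eq_one_of_nrm {Γ : Subgroup G} (hΓ : Hyp Γ) (g : Γ) (hg : nrm (g : G) ≤ 2) : g = 1 := by
  have key : ∀ x : G, nrm x ≤ 2 → x 0 0 = x 1 1 ∧ x 0 1 = -x 1 0 := by
    intro x hx
    have := det2 x
    simp only [nrm] at hx
    constructor <;> nlinarith [sq_nonneg (x 0 0 - x 1 1), sq_nonneg (x 0 1 + x 1 0)]
  have hmul : ∀ x y : G, nrm x ≤ 2 → nrm y ≤ 2 → nrm (x * y) ≤ 2 := by
    intro x y hx hy
    obtain ⟨h1, h2⟩ := key x hx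
    have h3 := det2 x
    simp only [nrm, mul_ap] at hy ⊢
    rw [h1, h2] at h3 ⊢
    have e : (x 1 1 * y 0 0 + -x 1 0 * y 1 0) ^ 2 + (x 1 1 * y 0 1 + -x 1 0 * y 1 1) ^ 2 +
      (x 1 0 * y 0 0 + x 1 1 * y 1 0) ^ 2 + (x 1 0 * y 0 1 + x 1 1 * y 1 1) ^ 2 =
      (x 1 1 * x 1 1 - -x 1 0 * x 1 0) * (y 0 0 ^ 2 + y 0 1 ^ 2 + y 1 0 ^ 2 + y 1 1 ^ 2) := by ring
    rw [e, h3]; linarith
  have hp : ∀ k : ℕ, g ^ k ∈ {g : Γ | nrm (g : G) ≤ 2} := by
    intro k
    induction k with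
    | zero => simp [nrm]; norm_num
    | succ k ih => rw [pow_succ]; exact hmul _ _ ih hg
  obtain ⟨i, j, hij, he⟩ := (proper Γ hΓ 2).exists_lt_map_eq_of_forall_mem hp
  have h1 : g ^ (j - i) = 1 := by
    have : g ^ i * g ^ (j - i) = g ^ i * 1 := by
      rw [← pow_add, mul_one, he]; congr 1; omega
    exact mul_left_cancel this
  exact Subtype.ext (hΓ.tf g g.2 (j - i) (by omega) (by simpa using congrArg Subtype.val h1))

noncomputable def pre (Γ : Subgroup G) : Del.Pre Γ where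
  A g := nrm (g : G) / 2
  p g := ((g : G) 0 0 ^ 2 + (g : G) 0 1 ^ 2 - (g : G) 1 0 ^ 2 - (g : G) 1 1 ^ 2) / 2
  q g := (g : G) 0 0 * (g : G) 1 0 + (g : G) 0 1 * (g : G) 1 1

lemma pre_B (Γ : Subgroup G) (x y : Γ) : (pre Γ).B x y = nrm ((x⁻¹ * y : Γ) : G) / 2 := by
  simp only [Del.Pre.B, pre, nrm, Subgroup.coe_mul, Subgroup.coe_inv, mul_ap, inv00, inv01,
    inv10, inv11]
  ring

lemma pre_mul (Γ : Subgroup G) (g x : Γ) :
    (pre Γ).A (g * x) = (((g : G) 0 0 ^ 2 + (g : G) 0 1 ^ 2 + (g : G) 1 0 ^ 2 + (g : G) 1 1 ^ 2) / 2)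
        * (pre Γ).A x +
      (((g : G) 0 0 ^ 2 - (g : G) 0 1 ^ 2 + (g : G) 1 0 ^ 2 - (g : G) 1 1 ^ 2) / 2) * (pre Γ).p x +
      ((g : G) 0 0 * (g : G) 0 1 + (g : G) 1 0 * (g : G) 1 1) * (pre Γ).q x ∧
    (pre Γ).p (g * x) = (((g : G) 0 0 ^ 2 + (g : G) 0 1 ^ 2 - (g : G) 1 0 ^ 2 - (g : G) 1 1 ^ 2) / 2)
        * (pre Γ).A x +
      (((g : G) 0 0 ^ 2 - (g : G) 0 1 ^ 2 - (g : G) 1 0 ^ 2 + (g : G) 1 1 ^ 2) / 2) * (pre Γ).p x +
      ((g : G) 0 0 * (g : G) 0 1 - (g : G) 1 0 * (g : G) 1 1) * (pre Γ).q x ∧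
    (pre Γ).q (g * x) = ((g : G) 0 0 * (g : G) 1 0 + (g : G) 0 1 * (g : G) 1 1) * (pre Γ).A x +
      ((g : G) 0 0 * (g : G) 1 0 - (g : G) 0 1 * (g : G) 1 1) * (pre Γ).p x +
      ((g : G) 0 0 * (g : G) 1 1 + (g : G) 0 1 * (g : G) 1 0) * (pre Γ).q x := by
  simp only [pre, nrm, Subgroup.coe_mul, mul_ap]
  refine ⟨by ring, by ring, by ring⟩

lemma pre_o (Γ : Subgroup G) (g x y z : Γ) :
    (pre Γ).o (g * x) (g * y) (g * z) = (pre Γ).o x y z := by
  have h := det2 (g : G)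
  simp only [Del.Pre.o, Del.det3, (pre_mul Γ g _).1, (pre_mul Γ g _).2.1, (pre_mul Γ g _).2.2]
  generalize (pre Γ).A x = a1, (pre Γ).p x = a2, (pre Γ).q x = a3, (pre Γ).A y = b1,
    (pre Γ).p y = b2, (pre Γ).q y = b3, (pre Γ).A z = c1, (pre Γ).p z = c2, (pre Γ).q z = c3
  generalize (g : G) 0 0 = a, (g : G) 0 1 = b, (g : G) 1 0 = c, (g : G) 1 1 = d at h ⊢
  linear_combination ((a * d - b * c) ^ 2 + (a * d - b * c) + 1) *
    (a1 * (b2 * c3 - b3 * c2) - a2 * (b1 * c3 - b3 * c1) + a3 * (b1 * c2 - b2 * c1)) * h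

lemma horo {Γ : Subgroup G} (hΓ : Hyp Γ) : ∃ K : ℝ, 1 ≤ K ∧ ∀ θ : ℝ, ∃ γ : Γ,
    (pre Γ).A γ ≤ K ∧ (pre Γ).A γ - (Real.cos (2 * θ) * (pre Γ).p γ +
      Real.sin (2 * θ) * (pre Γ).q γ) ≤ 1 / 2 := by
  obtain ⟨C0, hC0⟩ := hΓ.cocpt
  set C := max C0 1 with hC
  have hC1 : 1 ≤ C := le_max_right _ _
  refine ⟨(4 * C ^ 2 + 1) * (2 * C ^ 2), by nlinarith [sq_nonneg C, one_le_pow₀ (n := 2) hC1],
    fun θ => ?_⟩
  have hcs := Real.cos_sq_add_sin_sq θ
  set c := Real.cos θ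
  set s := Real.sin θ
  have hT : (2 * C) ≠ 0 := by positivity
  let M : G := ⟨!![2 * C * c, -s / (2 * C); 2 * C * s, c / (2 * C)], by
    rw [Matrix.det_fin_two_of]; field_simp; linarith⟩
  obtain ⟨γ, hγ, hb⟩ := hC0 M
  have hb' : ∀ i j, (γ⁻¹ * M) i j ^ 2 ≤ C ^ 2 := by
    intro i j
    have h1 : |(γ⁻¹ * M) i j| ≤ C := (hb i j).trans (le_max_left _ _)
    rw [← sq_abs]
    exact pow_le_pow_left₀ (abs_nonneg _) h1 2
  refine ⟨⟨γ, hγ⟩, ?_, ?_⟩
  · have e : γ = M * (γ⁻¹ * M)⁻¹ := by group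
    have h1 := nrm_mul_le M (γ⁻¹ * M)⁻¹
    rw [← e, nrm_inv] at h1
    have h2 : nrm (γ⁻¹ * M) ≤ 4 * C ^ 2 := by
      simp only [nrm]; linarith [hb' 0 0, hb' 0 1, hb' 1 0, hb' 1 1]
    have h3 : nrm M ≤ 4 * C ^ 2 + 1 := by
      have : nrm M = 4 * C ^ 2 + 1 / (4 * C ^ 2) := by
        simp only [nrm, M]
        simp
        field_simp
        linear_combination (16 * C ^ 4 + 1) * 4 * hcs
      rw [this]
      have : 1 / (4 * C ^ 2) ≤ 1 := by
        rw [div_le_one (by positivity)]; nlinarith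
      linarith
    have h4 := two_le_nrm (γ⁻¹ * M)
    have h5 : nrm M * nrm (γ⁻¹ * M) ≤ (4 * C ^ 2 + 1) * (4 * C ^ 2) :=
      mul_le_mul h3 h2 (by linarith) (by positivity)
    simp only [pre]
    linarith
  · have h1 := hb' 0 0
    have h2 := hb' 1 0
    rw [mul_ap] at h1 h2
    rw [inv00, inv01] at h1
    rw [inv10, inv11] at h2
    have m1 : M 0 0 = 2 * C * c := rfl
    have m2 : M 1 0 = 2 * C * s := rfl
    rw [m1, m2] at h1 h2
    rw [Real.cos_two_mul', Real.sin_two_mul]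
    simp only [pre, nrm]
    have hC2 : 0 < C ^ 2 := by positivity
    have k1 : (γ 1 1 * c - γ 0 1 * s) ^ 2 ≤ 1 / 4 := by
      by_contra hc; push Not at hc; nlinarith
    have k2 : (-γ 1 0 * c + γ 0 0 * s) ^ 2 ≤ 1 / 4 := by
      by_contra hc; push Not at hc; nlinarith
    have e : (γ 0 0 ^ 2 + γ 0 1 ^ 2 + γ 1 0 ^ 2 + γ 1 1 ^ 2) / 2 - ((c ^ 2 - s ^ 2) *
      ((γ 0 0 ^ 2 + γ 0 1 ^ 2 - γ 1 0 ^ 2 - γ 1 1 ^ 2) / 2) + 2 * s * c *
      (γ 0 0 * γ 1 0 + γ 0 1 * γ 1 1)) = (γ 1 1 * c - γ 0 1 * s) ^ 2 +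
      (-γ 1 0 * c + γ 0 0 * s) ^ 2 := by
      linear_combination (-(γ 0 0 ^ 2 + γ 0 1 ^ 2 + γ 1 0 ^ 2 + γ 1 1 ^ 2) / 2) * hcs
    linarith

theorem del : DelStmt := by
  intro Γ hΓ
  obtain ⟨K, hK1, hK⟩ := horo hΓ
  have hB1 : ∀ x : Γ, (pre Γ).B x x = 1 := fun x => by rw [pre_B]; simp [nrm]
  let S : Del.Geo Γ :=
    { toPre := pre Γ
      A1 := by simp [pre, nrm]
      p1 := by simp [pre]
      q1 := by simp [pre]
      o_inv := pre_o Γ
      B_inv := fun g x y => by rw [pre_B, pre_B]; congr 3; group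
      B_self := hB1
      B_gt := fun x y hxy => by
        rw [pre_B]
        by_contra hc
        push Not at hc
        exact hxy (inv_mul_eq_one.1 (eq_one_of_nrm hΓ _ (by linarith)))
      Lin_inv := by
        rintro f g ⟨α, β, γ, h⟩
        have lA : (pre Γ).Lin fun x => (pre Γ).A (g * x) := ⟨_, _, _, fun x => (pre_mul Γ g x).1⟩
        have lp : (pre Γ).Lin fun x => (pre Γ).p (g * x) := ⟨_, _, _, fun x => (pre_mul Γ g x).2.1⟩
        have lq : (pre Γ).Lin fun x => (pre Γ).q (g * x) := ⟨_, _, _, fun x => (pre_mul Γ g x).2.2⟩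
        have := (pre Γ).lin_comb ((pre Γ).lin_comb lA lp α β) lq 1 γ
        convert this using 2
        rw [h]; ring
      W := {g : Γ | nrm (g : G) ≤ 2 * (2 * K + 1)}
      W_fin := proper Γ hΓ _
      W_max := by
        intro y1 y2 hy
        let z : ℂ := ⟨y1, y2⟩
        have hz : z ≠ 0 := by
          intro h
          have h1 : y1 = 0 := congrArg Complex.re h
          have h2 : y2 = 0 := congrArg Complex.im h
          tauto
        have hr : 0 < ‖z‖ := norm_pos_iff.2 hz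
        have e1 : ‖z‖ * Real.cos z.arg = y1 := Complex.norm_mul_cos_arg z
        have e2 : ‖z‖ * Real.sin z.arg = y2 := Complex.norm_mul_sin_arg z
        obtain ⟨γ, h1, h2⟩ := hK (z.arg / 2)
        rw [show 2 * (z.arg / 2) = z.arg by ring] at h2
        have hcs := Real.cos_sq_add_sin_sq z.arg
        set c := Real.cos z.arg
        set s := Real.sin z.arg
        set r := ‖z‖
        have hA : ∀ g : Γ, 1 ≤ (pre Γ).A g := fun g => by
          have := two_le_nrm (g : G); simp only [pre]; linarith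
        have hγ1 : γ ≠ 1 := by
          rintro rfl
          simp [pre, nrm] at h2
          norm_num at h2
        have hAγ : 1 < (pre Γ).A γ := by
          by_contra hc
          push Not at hc
          exact hγ1 (eq_one_of_nrm hΓ _ (by simp only [pre] at hc; linarith))
        have e3 : ∀ g : Γ, y1 * (pre Γ).p g + y2 * (pre Γ).q g =
            r * (c * (pre Γ).p g + s * (pre Γ).q g) := fun g => by rw [← e1, ← e2]; ring
        refine ⟨γ, ?_, hγ1, ?_, fun g hg _ => ?_⟩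
        · simp only [pre] at h1
          simp only [Set.mem_setOf_eq]; linarith
        · rw [e3]; apply mul_pos hr; linarith
        · simp only [Set.mem_setOf_eq, not_le] at hg
          have hAg : 2 * K + 1 < (pre Γ).A g := by simp only [pre]; linarith
          have hB := hB1 g
          simp only [Del.Pre.B] at hB
          have k1 : c * (pre Γ).p g + s * (pre Γ).q g < (pre Γ).A g := by
            by_contra hc
            push Not at hc
            nlinarith [sq_nonneg (c * (pre Γ).q g - s * (pre Γ).p g),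
              mul_self_le_mul_self (by linarith) hc]
          rw [e3, e3, div_lt_div_iff₀ (by linarith) (by linarith), mul_assoc, mul_assoc]
          refine mul_lt_mul_of_pos_left ?_ hr
          nlinarith
      tf := fun g n hn h => Subtype.ext (hΓ.tf g g.2 n hn (by simpa using congrArg Subtype.val h)) }
  obtain ⟨N, n, h1, h2⟩ := S.main
  refine ⟨N, n, h1, ?_⟩
  convert h2 using 2
  simp only [S, pre]
  ring

end Pool.Agent.H882Z.SC
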