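import Pool.Agent.H882Z.SC.FloydB

/-! Floyd extension: coarse permutations of a cocompact `Γ ≤ SL(2,ℝ)` act on the circle. -/

set_option autoImplicit false

namespace Pool.Agent.H882Z.SC

open Filter Topology

namespace Fl

variable {Γ : Subgroup G}

lemma telescope (x : ℕ → ℂ) (a r : ℝ) (ha : 0 < a) (hr0 : 0 < r) (hr1 : r < 1)
    (h : ∀ m, dist (x m) (x (m + 1)) ≤ a * r ^ m) (m n : ℕ) (hmn : m ≤ n) :
    dist (x m) (x n) ≤ a * r ^ m / (1 - r) := by
  have h1 : 0 < 1 - r := by linarith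
  have key : ∀ k, dist (x m) (x (m + k)) + a * r ^ (m + k) / (1 - r) ≤ a * r ^ m / (1 - r) := by
    intro k
    induction k with
    | zero => simp
    | succ k ih =>
      have t := dist_triangle (x m) (x (m + k)) (x (m + k + 1))
      have e : a * r ^ (m + k) / (1 - r) = a * r ^ (m + k) + a * r ^ (m + k + 1) / (1 - r) := by
        rw [pow_succ]; field_simp; ring
      have := h (m + k)
      rw [← add_assoc]
      linarith
  obtain ⟨k, rfl⟩ := Nat.exists_eq_add_of_le hmn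
  have := key k
  have h2 : 0 < a * r ^ (m + k) / (1 - r) := by positivity
  linarith

lemma exists_unit (z : X) : ∃ e : U, kap z = kp e.1 := by
  have h := ev_pos z
  obtain ⟨T, hT0, hT⟩ : ∃ T : ℝ, 0 < T ∧ T ^ 2 = (ev z).1 ^ 2 + (ev z).2 ^ 2 :=
    ⟨√((ev z).1 ^ 2 + (ev z).2 ^ 2), Real.sqrt_pos.2 h, Real.sq_sqrt h.le⟩
  refine ⟨⟨(T⁻¹ * (ev z).1, T⁻¹ * (ev z).2), by field_simp; linarith⟩, ?_⟩
  rw [kp_smul _ _ _ (by positivity) h]
  rfl

lemma one_sub_inner_le (k : ℂ) (e : U) :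
    1 - (k.re * (kp e.1).re + k.im * (kp e.1).im) ≤ dist k (kp e.1) := by
  have h1 := sq_kp e
  have h2 := dist_sq k (kp e.1)
  generalize kp e.1 = p at *
  apply le_trans (le_abs_self _)
  apply abs_le_of_sq_le_sq _ dist_nonneg
  rw [h2]
  have e1 : 1 - (k.re * p.re + k.im * p.im) = (p.re - k.re) * p.re + (p.im - k.im) * p.im := by
    linear_combination -h1
  have e2 : (k.re - p.re) ^ 2 + (k.im - p.im) ^ 2
      = ((k.re - p.re) ^ 2 + (k.im - p.im) ^ 2) * (p.re ^ 2 + p.im ^ 2) := by rw [h1, mul_one]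
  rw [e1, e2]
  nlinarith [sq_nonneg ((p.re - k.re) * p.im - (p.im - k.im) * p.re)]

/-- group elements whose Klein points approach `z` -/
noncomputable def F (Γ : Subgroup G) (z : X) : Filter Γ :=
  comap (fun g : Γ => kl (g : G)) (𝓝 (kap z))

lemma vl_M (g : G) (e : U) (m : ℕ) : vl g e * 4 ^ m ≤ dd g (M e m) := by
  rw [dd_eq, four_pow]
  simp only [vl, M00, M10]
  nlinarith [sq_nonneg (g 1 1 * M e m 0 1 - g 0 1 * M e m 1 1),
    sq_nonneg (g 0 0 * M e m 1 1 - g 1 0 * M e m 0 1)]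

lemma F_neBot (c : Co Γ) (z : X) : (F Γ z).NeBot := by
  obtain ⟨e, he⟩ := exists_unit z
  have h : Tendsto (fun m : ℕ => c.ρ (M e m)) atTop (F Γ z) := by
    rw [F, tendsto_comap_iff, he, tendsto_iff_dist_tendsto_zero]
    have hC := c.one_le
    have key : ∀ m : ℕ, dist (kl (c.ρ (M e m) : G)) (kp e.1) ≤ 2 * c.C * (1 / 2) ^ m := by
      intro m
      apply (sq_le_sq₀ dist_nonneg (by positivity)).1
      set g : G := ((c.ρ (M e m) : Γ) : G) with hg
      have a1 := inner_kp g e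
      have a2 := vl_M g e m
      have a3 : dd g (M e m) ≤ c.C := c.le _
      have a4 := two_le_nrm g
      have a5 := sq_kl g
      have a6 := sq_kp e
      have a7 : 0 < 4 / nrm g ^ 2 := by positivity
      have a8 : 0 ≤ vl g e := by simp only [vl]; positivity
      have p4 : (0 : ℝ) < 4 ^ m := by positivity
      set q := 1 - ((kl g).re * (kp e.1).re + (kl g).im * (kp e.1).im) with hq
      have b1 : dist (kl g) (kp e.1) ^ 2 ≤ 2 * q := by rw [dist_sq]; nlinarith
      have b0 : 0 ≤ q := by nlinarith [sq_nonneg (dist (kl g) (kp e.1))]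
      have b2 : q ≤ vl g e := by nlinarith
      have b3 : vl g e ≤ c.C / 4 ^ m := by rw [le_div_iff₀ p4]; linarith
      have b4 : (2 * c.C * (1 / 2) ^ m) ^ 2 = 4 * c.C * (c.C / 4 ^ m) := by
        rw [four_pow, one_div_pow]; field_simp; norm_num
      have b5 : 0 < c.C / 4 ^ m := by positivity
      rw [b4]
      nlinarith
    refine squeeze_zero (fun _ => dist_nonneg) key ?_
    have := (tendsto_pow_atTop_nhds_zero_of_lt_one (r := (1 / 2 : ℝ)) (by norm_num)
      (by norm_num)).const_mul (2 * c.C)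
    simpa using this
  exact h.neBot

lemma exists_limit (c : Co Γ) (R : Equiv.Perm Γ) (h1 : Coarse R) (h2 : Coarse R.symm) (z : X) :
    ∃ w : X, Tendsto (fun g : Γ => kl (R g : G)) (F Γ z) (𝓝 (kap w)) := by
  obtain ⟨a, r, ha, hr0, hr1, hN, hS⟩ := step c R h1 h2
  obtain ⟨e, he⟩ := exists_unit z
  have hC := c.one_le
  have h1r : 0 < 1 - r := by linarith
  set y : U → ℕ → ℂ := fun e m => kl (R (c.ρ (M e m)) : G) with hy
  have hstep : ∀ e m, dist (y e m) (y e (m + 1)) ≤ a * r ^ m := by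
    intro e m
    refine hS _ _ m (c.both _ _ (dd_M_succ e m)) (c.big e m) (le_trans ?_ (c.big e (m + 1)))
    exact pow_le_pow_right₀ (by norm_num) (Nat.le_succ m)
  obtain ⟨w, hw⟩ := cauchySeq_tendsto_of_complete (cauchySeq_of_le_geometric r a hr1 (hstep e))
  have hrt : Tendsto (fun m : ℕ => r ^ m) atTop (𝓝 0) :=
    tendsto_pow_atTop_nhds_zero_of_lt_one hr0.le hr1
  have hw1 : w.re ^ 2 + w.im ^ 2 = 1 := by
    have t1 : Tendsto (fun m => (y e m).re ^ 2 + (y e m).im ^ 2) atTop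
        (𝓝 (w.re ^ 2 + w.im ^ 2)) :=
      (((Complex.continuous_re.tendsto w).comp hw).pow 2).add
        (((Complex.continuous_im.tendsto w).comp hw).pow 2)
    have t2 : Tendsto (fun m => 1 / nrm (R (c.ρ (M e m)) : G)) atTop (𝓝 0) := by
      refine squeeze_zero (fun m => (one_div_pos.2 (nrm_pos _)).le)
        (fun m => hN _ m (c.big e m)) ?_
      simpa using hrt.const_mul a
    have t3 : Tendsto (fun m => (y e m).re ^ 2 + (y e m).im ^ 2) atTop (𝓝 (1 - 4 * 0 ^ 2)) := by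
      refine (((t2.pow 2).const_mul 4).const_sub 1).congr fun m => ?_
      rw [hy]
      simp only [sq_kl]
      ring
    rw [tendsto_nhds_unique t1 t3]; norm_num
  obtain ⟨w', rfl⟩ := kap_surj w hw1
  refine ⟨w', ?_⟩
  rw [Metric.tendsto_nhds]
  intro ε hε
  have t4 : Tendsto (fun m : ℕ => (2 * a + 2 * a / (1 - r)) * r ^ m) atTop (𝓝 0) := by
    simpa using hrt.const_mul (2 * a + 2 * a / (1 - r))
  obtain ⟨m0, hm0⟩ := (t4.eventually (gt_mem_nhds hε)).exists
  have hδ : (0 : ℝ) < 1 / 16 ^ m0 / 2 := by positivity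
  have hmem : {g : Γ | dist (kl (g : G)) (kap z) < 1 / 16 ^ m0 / 2} ∈ F Γ z :=
    preimage_mem_comap (Metric.ball_mem_nhds (kap z) hδ)
  filter_upwards [hmem] with g hg
  rw [he] at hg
  obtain ⟨e', m, b1, b2, b3, b4⟩ := approx (g : G)
  have hn := nrm_pos (g : G)
  have q1 := one_sub_inner_le (kl (g : G)) e
  have q2 := inner_kp (g : G) e
  have q3 := sq_kl (g : G)
  have q4 := sq_kp e
  set q := 1 - ((kl (g : G)).re * (kp e.1).re + (kl (g : G)).im * (kp e.1).im) with hq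
  have p16 : (0 : ℝ) < 16 ^ m0 := by positivity
  have c1 : dt e.1 e'.1 ^ 2 ≤ q := by
    have := b4 e
    rw [← q2] at this
    exact le_of_mul_le_mul_left this hn
  have c2 : 16 ^ m0 * dt e.1 e'.1 ^ 2 ≤ 1 := by
    have : dt e.1 e'.1 ^ 2 ≤ 1 / 16 ^ m0 := by linarith
    rw [le_div_iff₀ p16] at this
    linarith
  have c3 : 4 / nrm (g : G) ^ 2 ≤ 2 * q := by
    nlinarith [sq_nonneg ((kl (g : G)).re - (kp e.1).re), sq_nonneg ((kl (g : G)).im - (kp e.1).im)]
  have c4 : m0 ≤ m := by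
    by_contra hlt
    have d1 : (4 : ℝ) ^ (m + 1) ≤ 4 ^ m0 := pow_le_pow_right₀ (by norm_num) (by omega)
    rw [pow_succ] at d1
    have d2 : nrm (g : G) ≤ 2 * 4 ^ m0 := by linarith
    have d3 : 4 / nrm (g : G) ^ 2 < 1 / 16 ^ m0 := by linarith
    rw [div_lt_div_iff₀ (by positivity) p16] at d3
    have d4 : (16 : ℝ) ^ m0 = (4 ^ m0) ^ 2 := by
      rw [← pow_mul, mul_comm, pow_mul]; norm_num
    have d5 : nrm (g : G) ^ 2 ≤ (2 * 4 ^ m0) ^ 2 := pow_le_pow_left₀ hn.le d2 2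
    nlinarith
  have s1 : dist (kl (R g : G)) (y e' m) ≤ a * r ^ m :=
    hS _ _ m (c.left _ _ b1) (by nlinarith) (c.big e' m)
  have s1' : a * r ^ m ≤ a * r ^ m0 :=
    mul_le_mul_of_nonneg_left (pow_le_pow_of_le_one hr0.le hr1.le c4) ha.le
  have s2 : dist (y e' m0) (y e' m) ≤ a * r ^ m0 / (1 - r) :=
    telescope _ a r ha hr0 hr1 (hstep e') m0 m c4
  have s3 : dist (y e m0) (y e' m0) ≤ a * r ^ m0 :=
    hS _ _ m0 (c.both _ _ (dd_M_M e e' m0 c2)) (c.big e m0) (c.big e' m0)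
  have s4 : dist (y e m0) (kap w') ≤ a * r ^ m0 / (1 - r) :=
    dist_le_of_le_geometric_of_tendsto r a hr1 (hstep e) hw m0
  have u1 := dist_triangle4 (kl (R g : G)) (y e' m) (y e' m0) (y e m0)
  have u2 := dist_triangle (kl (R g : G)) (y e m0) (kap w')
  rw [dist_comm (y e' m), dist_comm (y e' m0) (y e m0)] at u1
  have e5 : (2 * a + 2 * a / (1 - r)) * r ^ m0 = 2 * (a * r ^ m0) + 2 * (a * r ^ m0 / (1 - r)) := by
    ring
  linarith

/-- `h` is the boundary extension of `R` -/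
def Ext (R : Γ → Γ) (h : X → X) : Prop := ∀ z, Tendsto R (F Γ z) (F Γ (h z))

lemma Ext.unique (c : Co Γ) {R : Γ → Γ} {h h' : X → X} (H : Ext R h) (H' : Ext R h') : h = h' := by
  funext z
  have := F_neBot c z
  exact kap_inj (tendsto_nhds_unique (tendsto_comap_iff.1 (H z)) (tendsto_comap_iff.1 (H' z)))

lemma Ext.comp {R S : Γ → Γ} {h k : X → X} (H : Ext R h) (K : Ext S k) : Ext (R ∘ S) (h ∘ k) :=
  fun z => (H (k z)).comp (K z)

lemma ext_id : Ext (id : Γ → Γ) id := fun _ => tendsto_id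

lemma Ext.cont (c : Co Γ) {R : Γ → Γ} {h : X → X} (H : Ext R h) : Continuous h := by
  rw [kap_emb.isInducing.continuous_iff, continuous_iff_continuousAt]
  intro z
  rw [ContinuousAt, (closed_nhds_basis _).tendsto_right_iff]
  rintro V ⟨hV, hVc⟩
  have h1 : (fun g : Γ => kl (R g : G)) ⁻¹' V ∈ F Γ z := tendsto_comap_iff.1 (H z) hV
  obtain ⟨W, hW, hWV⟩ := mem_comap.1 h1
  obtain ⟨W', hW'W, hW'o, hzW'⟩ := mem_nhds_iff.1 hW
  filter_upwards [kap_cont.continuousAt (hW'o.mem_nhds hzW')] with z' hz'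
  have := F_neBot c z'
  refine hVc.mem_of_tendsto (tendsto_comap_iff.1 (H z')) ?_
  have h2 : (fun g : Γ => kl (g : G)) ⁻¹' W' ∈ F Γ z' := preimage_mem_comap (hW'o.mem_nhds hz')
  filter_upwards [h2] with g hg
  exact hWV (hW'W hg)

lemma ext_mul (γ : Γ) : Ext (fun g : Γ => γ * g) (act (γ : G)) := by
  intro z
  obtain ⟨h1, h2⟩ := mob_kap (γ : G) z
  rw [F, F, tendsto_comap_iff, ← h2]
  have := h1.tendsto.comp (tendsto_comap (f := fun g : Γ => kl (g : G)))
  refine this.congr fun g => ?_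
  simp only [Function.comp, mob_kl, Subgroup.coe_mul]

lemma exists_ext (c : Co Γ) (a : CoarseSub Γ) : ∃ h, Ext (a : Equiv.Perm Γ) h := by
  choose h hh using exists_limit c (a : Equiv.Perm Γ) a.2.1 a.2.2
  exact ⟨h, fun z => tendsto_comap_iff.2 (hh z)⟩

end Fl

open Fl in
theorem floyd : FloydStmt := by
  intro Γ hΓ
  obtain ⟨c⟩ := exists_co hΓ
  choose h hh using exists_ext c
  have hmul : ∀ a b : CoarseSub Γ, h (a * b) = h a ∘ h b := fun a b =>
    (hh (a * b)).unique c ((hh a).comp (hh b))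
  have hone : h 1 = id := (hh 1).unique c ext_id
  let Φ : CoarseSub Γ → (X ≃ₜ X) := fun a =>
    { toFun := h a
      invFun := h a⁻¹
      left_inv := fun z => by
        have := congrFun (hmul a⁻¹ a) z
        rw [inv_mul_cancel, hone] at this
        exact this.symm
      right_inv := fun z => by
        have := congrFun (hmul a a⁻¹) z
        rw [mul_inv_cancel, hone] at this
        exact this.symm
      continuous_toFun := (hh a).cont c
      continuous_invFun := (hh a⁻¹).cont c }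
  refine ⟨MonoidHom.mk' Φ fun a b => Homeomorph.ext fun z => congrFun (hmul a b) z, ?_⟩
  intro a γ ha z
  have e : ((a : Equiv.Perm Γ) : Γ → Γ) = fun g => γ * g := funext ha
  have H := hh a
  rw [e] at H
  exact congrFun (H.unique c (ext_mul γ)) z

end Pool.Agent.H882Z.SC
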