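import Pool.Agent.H882Z.SC.Defs

/-! Floyd extension, part A: Klein model algebra. -/

set_option autoImplicit false

namespace Pool.Agent.H882Z.SC.Fl

open Filter Topology

lemma det_eq (g : G) : g 0 0 * g 1 1 - g 0 1 * g 1 0 = 1 := by
  have := g.det_coe
  rwa [Matrix.det_fin_two] at this

lemma mul_ent (g h : G) (i j : Fin 2) : (g * h) i j = g i 0 * h 0 j + g i 1 * h 1 j := by
  simp [Matrix.SpecialLinearGroup.coe_mul, Matrix.mul_apply, Fin.sum_univ_two]

lemma inv00 (g : G) : (g⁻¹) 0 0 = g 1 1 := by rw [Matrix.SpecialLinearGroup.SL2_inv_expl]; rfl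
lemma inv01 (g : G) : (g⁻¹) 0 1 = - g 0 1 := by rw [Matrix.SpecialLinearGroup.SL2_inv_expl]; rfl
lemma inv10 (g : G) : (g⁻¹) 1 0 = - g 1 0 := by rw [Matrix.SpecialLinearGroup.SL2_inv_expl]; rfl
lemma inv11 (g : G) : (g⁻¹) 1 1 = g 0 0 := by rw [Matrix.SpecialLinearGroup.SL2_inv_expl]; rfl

lemma nrm_inv (g : G) : nrm g⁻¹ = nrm g := by
  simp only [nrm, inv00, inv01, inv10, inv11]; ring

lemma two_le_nrm (g : G) : 2 ≤ nrm g := by
  have := det_eq g
  simp only [nrm]
  nlinarith [sq_nonneg (g 0 0 - g 1 1), sq_nonneg (g 0 1 + g 1 0)]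

lemma nrm_pos (g : G) : 0 < nrm g := lt_of_lt_of_le two_pos (two_le_nrm g)

lemma nrm_mul_le (g h : G) : nrm (g * h) ≤ nrm g * nrm h := by
  simp only [nrm, mul_ent]
  nlinarith [sq_nonneg (g 0 0 * h 1 0 - g 0 1 * h 0 0), sq_nonneg (g 0 0 * h 1 1 - g 0 1 * h 0 1),
    sq_nonneg (g 1 0 * h 1 0 - g 1 1 * h 0 0), sq_nonneg (g 1 0 * h 1 1 - g 1 1 * h 0 1)]

/-- multiplicative distance -/
noncomputable def dd (g h : G) : ℝ := nrm (g⁻¹ * h)

lemma dd_pos (g h : G) : 0 < dd g h := nrm_pos _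

lemma dd_comm (g h : G) : dd g h = dd h g := by
  rw [dd, dd, ← nrm_inv]; simp

lemma dd_tri (g h k : G) : dd g k ≤ dd g h * dd h k := by
  have : g⁻¹ * k = (g⁻¹ * h) * (h⁻¹ * k) := by group
  rw [dd, this]; exact nrm_mul_le _ _

lemma nrm_le_dd (g h : G) : nrm h ≤ nrm g * dd g h := by
  have : h = g * (g⁻¹ * h) := by group
  conv_lhs => rw [this]
  exact nrm_mul_le _ _

lemma dd_one (g : G) : dd 1 g = nrm g := by simp [dd]

lemma dd_eq (g h : G) : dd g h = (g 1 1 * h 0 0 - g 0 1 * h 1 0) ^ 2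
    + (g 1 1 * h 0 1 - g 0 1 * h 1 1) ^ 2 + (g 0 0 * h 1 0 - g 1 0 * h 0 0) ^ 2
    + (g 0 0 * h 1 1 - g 1 0 * h 0 1) ^ 2 := by
  simp only [dd, nrm, mul_ent, inv00, inv01, inv10, inv11]; ring

/-- Klein point of `g i`. -/
noncomputable def kl (g : G) : ℂ :=
  ⟨(g 0 0 ^ 2 + g 0 1 ^ 2 - g 1 0 ^ 2 - g 1 1 ^ 2) / nrm g,
    2 * (g 0 0 * g 1 0 + g 0 1 * g 1 1) / nrm g⟩

lemma sq_kl (g : G) : (kl g).re ^ 2 + (kl g).im ^ 2 = 1 - 4 / nrm g ^ 2 := by
  have h := nrm_pos g
  have hd := det_eq g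
  simp only [kl]
  field_simp
  simp only [nrm]
  have : (g 0 0 * g 1 1 - g 0 1 * g 1 0) ^ 2 = 1 := by rw [hd]; norm_num
  nlinarith [this]

lemma inner_kl (g h : G) :
    nrm g * nrm h * (1 - ((kl g).re * (kl h).re + (kl g).im * (kl h).im)) = 2 * dd g h := by
  have h1 := nrm_pos g
  have h2 := nrm_pos h
  rw [dd_eq]
  simp only [kl]
  field_simp
  simp only [nrm]
  ring

lemma dist_sq (u v : ℂ) : dist u v ^ 2 = (u.re - v.re) ^ 2 + (u.im - v.im) ^ 2 := by
  rw [Complex.dist_eq, Complex.sq_norm, Complex.normSq_apply]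
  simp only [Complex.sub_re, Complex.sub_im]; ring

lemma dist_kl (g h : G) : dist (kl g) (kl h) ^ 2 ≤ 4 * dd g h / (nrm g * nrm h) := by
  have h1 := nrm_pos g
  have h2 := nrm_pos h
  rw [le_div_iff₀ (by positivity), dist_sq]
  have e1 := sq_kl g
  have e2 := sq_kl h
  have e3 := inner_kl g h
  have p1 : 0 < 4 / nrm g ^ 2 := by positivity
  have p2 : 0 < 4 / nrm h ^ 2 := by positivity
  have : ((kl g).re - (kl h).re) ^ 2 + ((kl g).im - (kl h).im) ^ 2 ≤
      2 * (1 - ((kl g).re * (kl h).re + (kl g).im * (kl h).im)) := by nlinarith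
  have h3 : 0 < nrm g * nrm h := by positivity
  nlinarith [mul_le_mul_of_nonneg_right this h3.le]

/-- boundary point of a direction -/
noncomputable def kp (e : ℝ × ℝ) : ℂ :=
  ⟨(e.1 ^ 2 - e.2 ^ 2) / (e.1 ^ 2 + e.2 ^ 2), 2 * e.1 * e.2 / (e.1 ^ 2 + e.2 ^ 2)⟩

lemma kp_smul (c x y : ℝ) (hc : c ≠ 0) (h : 0 < x ^ 2 + y ^ 2) : kp (c * x, c * y) = kp (x, y) := by
  have h' : 0 < (c * x) ^ 2 + (c * y) ^ 2 := by
    have : (c * x) ^ 2 + (c * y) ^ 2 = c ^ 2 * (x ^ 2 + y ^ 2) := by ring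
    rw [this]; positivity
  apply Complex.ext <;> simp only [kp] <;> field_simp

noncomputable def kap (z : X) : ℂ := kp (ev z)

lemma ev_infty : ev (OnePoint.infty : X) = (1, 0) := rfl
lemma ev_coe (x : ℝ) : ev (x : X) = (x, 1) := rfl

lemma ev_pos (z : X) : 0 < (ev z).1 ^ 2 + (ev z).2 ^ 2 := by
  induction z using OnePoint.rec with
  | infty => simp [ev_infty]
  | coe x => simp only [ev_coe]; positivity

lemma kap_infty : kap (OnePoint.infty : X) = 1 := by
  apply Complex.ext <;> simp [kap, kp, ev_infty]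

lemma kap_coe_re (x : ℝ) : (kap (x : X)).re = 1 - 2 / (x ^ 2 + 1) := by
  simp only [kap, kp, ev_coe]; field_simp; ring

lemma kap_coe_im (x : ℝ) : (kap (x : X)).im = 2 * x / (x ^ 2 + 1) := by
  simp only [kap, kp, ev_coe]; field_simp

lemma kap_inj : Function.Injective kap := by
  have key : ∀ x : ℝ, kap (x : X) ≠ 1 := by
    intro x h
    have := kap_coe_re x
    rw [h] at this
    have h2 : 0 < 2 / (x ^ 2 + 1) := by positivity
    simp only [Complex.one_re] at this
    linarith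
  intro z w h
  induction z using OnePoint.rec with
  | infty =>
    induction w using OnePoint.rec with
    | infty => rfl
    | coe y => rw [kap_infty] at h; exact absurd h.symm (key y)
  | coe x =>
    induction w using OnePoint.rec with
    | infty => rw [kap_infty] at h; exact absurd h (key x)
    | coe y =>
      have h1 := congrArg Complex.re h
      have h2 := congrArg Complex.im h
      rw [kap_coe_re, kap_coe_re] at h1
      rw [kap_coe_im, kap_coe_im] at h2
      have h3 : 2 / (x ^ 2 + 1) = 2 / (y ^ 2 + 1) := by linarith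
      have h4 : x ^ 2 + 1 = y ^ 2 + 1 := by
        field_simp at h3; linarith
      rw [h4] at h2
      have h5 : x = y := by
        field_simp at h2; linarith
      rw [h5]

lemma kap_surj (w : ℂ) (hw : w.re ^ 2 + w.im ^ 2 = 1) : ∃ z, kap z = w := by
  by_cases h : w.re = 1
  · refine ⟨OnePoint.infty, ?_⟩
    rw [kap_infty]
    apply Complex.ext
    · simp [h]
    · have : w.im ^ 2 = 0 := by rw [h] at hw; linarith
      simp [pow_eq_zero_iff (two_ne_zero) |>.1 this]
  · have h1 : 1 - w.re ≠ 0 := fun h' => h (by linarith)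
    have h2 : (w.im / (1 - w.re)) ^ 2 + 1 = 2 / (1 - w.re) := by
      field_simp; nlinarith
    refine ⟨((w.im / (1 - w.re) : ℝ) : X), ?_⟩
    apply Complex.ext
    · rw [kap_coe_re, h2]; field_simp; ring
    · rw [kap_coe_im, h2]; field_simp

lemma kap_cont : Continuous kap := by
  rw [OnePoint.continuous_iff]
  constructor
  · rw [kap_infty, Filter.coclosedCompact_eq_cocompact, tendsto_iff_dist_tendsto_zero]
    have e : ∀ x : ℝ, dist (kap (x : X)) 1 = √(4 / (x ^ 2 + 1)) := by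
      intro x
      rw [← Real.sqrt_sq (dist_nonneg (x := kap (x : X)) (y := 1)), dist_sq, kap_coe_re,
        kap_coe_im]
      congr 1
      simp only [Complex.one_re, Complex.one_im]
      field_simp; ring
    simp only [e]
    have h1 : Tendsto (fun x : ℝ => x ^ 2 + 1) (cocompact ℝ) atTop := by
      apply tendsto_atTop_add_const_right
      have := (tendsto_pow_atTop (α := ℝ) two_ne_zero).comp (tendsto_norm_cocompact_atTop (E := ℝ))
      refine this.congr fun x => ?_
      simp [sq_abs]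
    have h2 : Tendsto (fun x : ℝ => 4 / (x ^ 2 + 1)) (cocompact ℝ) (𝓝 0) :=
      h1.const_div_atTop 4
    simpa using h2.sqrt
  · have : (fun x : ℝ => kap (x : X)) =
        fun x : ℝ => ((1 - 2 / (x ^ 2 + 1) : ℝ) : ℂ) + ((2 * x / (x ^ 2 + 1) : ℝ) : ℂ) * Complex.I := by
      funext x
      rw [← kap_coe_re, ← kap_coe_im, Complex.re_add_im]
    rw [this]
    have h0 : ∀ x : ℝ, x ^ 2 + 1 ≠ 0 := fun x => by positivity
    have c1 : Continuous fun x : ℝ => (1 - 2 / (x ^ 2 + 1) : ℝ) := by fun_prop (disch := exact h0 _)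
    have c2 : Continuous fun x : ℝ => (2 * x / (x ^ 2 + 1) : ℝ) := by fun_prop (disch := exact h0 _)
    exact (Complex.continuous_ofReal.comp c1).add
      ((Complex.continuous_ofReal.comp c2).mul continuous_const)

lemma kap_emb : IsClosedEmbedding kap := kap_cont.isClosedEmbedding kap_inj

/-- the projective action on the Klein disc -/
noncomputable def mp (g : G) (w : ℂ) : ℝ :=
  g 0 0 ^ 2 * (1 + w.re) + 2 * g 0 0 * g 0 1 * w.im + g 0 1 ^ 2 * (1 - w.re)
noncomputable def mq (g : G) (w : ℂ) : ℝ :=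
  g 0 0 * g 1 0 * (1 + w.re) + (g 0 0 * g 1 1 + g 0 1 * g 1 0) * w.im + g 0 1 * g 1 1 * (1 - w.re)
noncomputable def mr (g : G) (w : ℂ) : ℝ :=
  g 1 0 ^ 2 * (1 + w.re) + 2 * g 1 0 * g 1 1 * w.im + g 1 1 ^ 2 * (1 - w.re)
noncomputable def mob (g : G) (w : ℂ) : ℂ :=
  (((mp g w - mr g w) / (mp g w + mr g w) : ℝ) : ℂ)
    + ((2 * mq g w / (mp g w + mr g w) : ℝ) : ℂ) * Complex.I

lemma mob_re (g : G) (w : ℂ) : (mob g w).re = (mp g w - mr g w) / (mp g w + mr g w) := by
  simp only [mob, Complex.add_re, Complex.ofReal_re, Complex.mul_re, Complex.I_re, Complex.I_im,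
    Complex.ofReal_im]; ring

lemma mob_im (g : G) (w : ℂ) : (mob g w).im = 2 * mq g w / (mp g w + mr g w) := by
  simp only [mob, Complex.add_im, Complex.ofReal_re, Complex.mul_im, Complex.I_re, Complex.I_im,
    Complex.ofReal_im]; ring

lemma mob_cont (g : G) (w : ℂ) (h : mp g w + mr g w ≠ 0) : ContinuousAt (mob g) w := by
  have cp : Continuous (mp g) := by unfold mp; fun_prop
  have cq : Continuous (mq g) := by unfold mq; fun_prop
  have cr : Continuous (mr g) := by unfold mr; fun_prop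
  have c1 : ContinuousAt (fun w => (mp g w - mr g w) / (mp g w + mr g w)) w :=
    (cp.sub cr).continuousAt.div (cp.add cr).continuousAt h
  have c2 : ContinuousAt (fun w => 2 * mq g w / (mp g w + mr g w)) w :=
    (continuous_const.mul cq).continuousAt.div (cp.add cr).continuousAt h
  exact (Complex.continuous_ofReal.continuousAt.comp c1).add
    ((Complex.continuous_ofReal.continuousAt.comp c2).mul continuousAt_const)

lemma mob_kl (g h : G) : mob g (kl h) = kl (g * h) := by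
  have h1 := nrm_pos h
  have h2 := nrm_pos (g * h)
  have ep : mp g (kl h) = 2 * ((g * h) 0 0 ^ 2 + (g * h) 0 1 ^ 2) / nrm h := by
    simp only [mp, kl, mul_ent]; field_simp; simp only [nrm]; ring
  have eq : mq g (kl h) = 2 * ((g * h) 0 0 * (g * h) 1 0 + (g * h) 0 1 * (g * h) 1 1) / nrm h := by
    simp only [mq, kl, mul_ent]; field_simp; simp only [nrm]; ring
  have er : mr g (kl h) = 2 * ((g * h) 1 0 ^ 2 + (g * h) 1 1 ^ 2) / nrm h := by
    simp only [mr, kl, mul_ent]; field_simp; simp only [nrm]; ring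
  have es : mp g (kl h) + mr g (kl h) = 2 * nrm (g * h) / nrm h := by
    rw [ep, er]; simp only [nrm]; ring
  apply Complex.ext
  · rw [mob_re, es, ep, er]; simp only [kl]; field_simp; ring
  · rw [mob_im, es, eq]; simp only [kl]; field_simp

lemma img_pos (g : G) (x y : ℝ) (h : 0 < x ^ 2 + y ^ 2) :
    0 < (g 0 0 * x + g 0 1 * y) ^ 2 + (g 1 0 * x + g 1 1 * y) ^ 2 := by
  have hd := det_eq g
  by_contra hn
  have h1 : g 0 0 * x + g 0 1 * y = 0 := by nlinarith [sq_nonneg (g 0 0 * x + g 0 1 * y), sq_nonneg (g 1 0 * x + g 1 1 * y)]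
  have h2 : g 1 0 * x + g 1 1 * y = 0 := by nlinarith [sq_nonneg (g 0 0 * x + g 0 1 * y), sq_nonneg (g 1 0 * x + g 1 1 * y)]
  have hx : x = 0 := by linear_combination g 1 1 * h1 - g 0 1 * h2 - x * hd
  have hy : y = 0 := by linear_combination g 0 0 * h2 - g 1 0 * h1 - y * hd
  rw [hx, hy] at h; simp at h

lemma mob_kp (g : G) (x y : ℝ) (h : 0 < x ^ 2 + y ^ 2) :
    mp g (kp (x, y)) + mr g (kp (x, y)) ≠ 0 ∧
    mob g (kp (x, y)) = kp (g 0 0 * x + g 0 1 * y, g 1 0 * x + g 1 1 * y) := by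
  have h2 := img_pos g x y h
  have ep : mp g (kp (x, y)) = 2 * (g 0 0 * x + g 0 1 * y) ^ 2 / (x ^ 2 + y ^ 2) := by
    simp only [mp, kp]; field_simp; ring
  have eq : mq g (kp (x, y)) =
      2 * ((g 0 0 * x + g 0 1 * y) * (g 1 0 * x + g 1 1 * y)) / (x ^ 2 + y ^ 2) := by
    simp only [mq, kp]; field_simp; ring
  have er : mr g (kp (x, y)) = 2 * (g 1 0 * x + g 1 1 * y) ^ 2 / (x ^ 2 + y ^ 2) := by
    simp only [mr, kp]; field_simp; ring
  have es : mp g (kp (x, y)) + mr g (kp (x, y)) =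
      2 * ((g 0 0 * x + g 0 1 * y) ^ 2 + (g 1 0 * x + g 1 1 * y) ^ 2) / (x ^ 2 + y ^ 2) := by
    rw [ep, er]; ring
  refine ⟨by rw [es]; positivity, ?_⟩
  apply Complex.ext
  · rw [mob_re, es, ep, er]; simp only [kp]; field_simp
  · rw [mob_im, es, eq]; simp only [kp]; field_simp

lemma kap_act (g : G) (z : X) :
    kap (act g z) = kp (g 0 0 * (ev z).1 + g 0 1 * (ev z).2, g 1 0 * (ev z).1 + g 1 1 * (ev z).2) := by
  have hd := det_eq g
  have e : ∀ i j, (Matrix.SpecialLinearGroup.toGL g : GL (Fin 2) ℝ) i j = g i j := fun _ _ => rfl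
  have hp := img_pos g _ _ (ev_pos z)
  induction z using OnePoint.rec with
  | infty =>
    simp only [act, OnePoint.smul_infty_eq_ite, e, ev_infty, mul_one, mul_zero, add_zero] at hp ⊢
    split_ifs with h
    · have h0 : g 0 0 ≠ 0 := by intro h0; rw [h, h0] at hp; simp at hp
      rw [kap, ev_infty, ← kp_smul (g 0 0) 1 0 h0 (by norm_num), h]; simp
    · rw [kap, ev_coe, ← kp_smul (g 1 0) _ _ h (by positivity)]
      congr 2
      · field_simp
      · ring
  | coe x =>
    simp only [act, OnePoint.smul_some_eq_ite, e, ev_coe, mul_one] at hp ⊢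
    split_ifs with h
    · have h0 : g 0 0 * x + g 0 1 ≠ 0 := by intro h0; rw [h, h0] at hp; simp at hp
      rw [kap, ev_infty, ← kp_smul _ 1 0 h0 (by norm_num), h]; simp
    · rw [kap, ev_coe, ← kp_smul _ _ _ h (by positivity)]
      congr 2
      · field_simp
      · ring

lemma mob_kap (g : G) (z : X) : ContinuousAt (mob g) (kap z) ∧ mob g (kap z) = kap (act g z) := by
  obtain ⟨h1, h2⟩ := mob_kp g _ _ (ev_pos z)
  exact ⟨mob_cont g _ h1, by rw [kap_act]; exact h2⟩

end Pool.Agent.H882Z.SC.Fl
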