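import Pool.Agent.H882Z.SC.FloydA

/-! Floyd extension, part B: rays, power laws and existence of boundary limits. -/

set_option autoImplicit false

namespace Pool.Agent.H882Z.SC.Fl

open Filter Topology

/-- unit vectors -/
abbrev U := {e : ℝ × ℝ // e.1 ^ 2 + e.2 ^ 2 = 1}

/-- the ray in direction `e` at time `2 ^ m` -/
noncomputable def M (e : U) (m : ℕ) : G :=
  ⟨!![2 ^ m * e.1.1, -e.1.2 / 2 ^ m; 2 ^ m * e.1.2, e.1.1 / 2 ^ m], by
    rw [Matrix.det_fin_two_of]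
    have := e.2
    field_simp
    linarith⟩

lemma M00 (e : U) (m : ℕ) : M e m 0 0 = 2 ^ m * e.1.1 := rfl
lemma M01 (e : U) (m : ℕ) : M e m 0 1 = -e.1.2 / 2 ^ m := rfl
lemma M10 (e : U) (m : ℕ) : M e m 1 0 = 2 ^ m * e.1.2 := rfl
lemma M11 (e : U) (m : ℕ) : M e m 1 1 = e.1.1 / 2 ^ m := rfl

lemma four_pow (m : ℕ) : (4 : ℝ) ^ m = (2 ^ m) ^ 2 := by
  rw [← pow_mul, mul_comm, pow_mul]; norm_num

lemma sixteen_pow (m : ℕ) : (16 : ℝ) ^ m = (2 ^ m) ^ 4 := by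
  rw [← pow_mul, mul_comm, pow_mul]; norm_num

lemma nrm_M (e : U) (m : ℕ) : nrm (M e m) = (2 ^ m) ^ 2 + 1 / (2 ^ m) ^ 2 := by
  have := e.2
  simp only [nrm, M00, M01, M10, M11]
  field_simp
  linear_combination ((2 ^ m) ^ 4 + 1) * this

lemma le_nrm_M (e : U) (m : ℕ) : (4 : ℝ) ^ m ≤ nrm (M e m) := by
  rw [nrm_M, four_pow]
  have : (0 : ℝ) < 1 / (2 ^ m) ^ 2 := by positivity
  linarith

lemma nrm_M_zero (e : U) : nrm (M e 0) = 2 := by rw [nrm_M]; norm_num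

lemma dd_M_succ (e : U) (m : ℕ) : dd (M e m) (M e (m + 1)) ≤ 18 := by
  have := e.2
  have h : dd (M e m) (M e (m + 1)) = 17 / 4 * (e.1.1 ^ 2 + e.1.2 ^ 2) ^ 2 := by
    rw [dd_eq]
    simp only [M00, M01, M10, M11, pow_succ (2 : ℝ) m]
    field_simp
    ring
  rw [h, this]; norm_num

lemma dd_M_M (e e' : U) (m : ℕ) (h : 16 ^ m * dt e.1 e'.1 ^ 2 ≤ 1) : dd (M e m) (M e' m) ≤ 18 := by
  have h1 := e.2
  have h2 := e'.2
  have ht : (1 : ℝ) ≤ 2 ^ m := one_le_pow₀ (by norm_num)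
  have hd : dd (M e m) (M e' m) = 2 * (e.1.1 * e'.1.1 + e.1.2 * e'.1.2) ^ 2
      + dt e.1 e'.1 ^ 2 / (2 ^ m) ^ 4 + (2 ^ m) ^ 4 * dt e.1 e'.1 ^ 2 := by
    rw [dd_eq]
    simp only [M00, M01, M10, M11, dt]
    field_simp
    ring
  have h3 : (e.1.1 * e'.1.1 + e.1.2 * e'.1.2) ^ 2 + dt e.1 e'.1 ^ 2 = 1 := by
    simp only [dt]
    have : (e.1.1 ^ 2 + e.1.2 ^ 2) * (e'.1.1 ^ 2 + e'.1.2 ^ 2) = 1 := by rw [h1, h2]; norm_num
    linear_combination this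
  have h4 : dt e.1 e'.1 ^ 2 / (2 ^ m) ^ 4 ≤ dt e.1 e'.1 ^ 2 :=
    div_le_self (sq_nonneg _) (one_le_pow₀ ht)
  rw [sixteen_pow] at h
  rw [hd]
  nlinarith [sq_nonneg (dt e.1 e'.1)]

/-- squared length of `g⁻¹ e` -/
noncomputable def vl (g : G) (e : U) : ℝ :=
  (g 1 1 * e.1.1 - g 0 1 * e.1.2) ^ 2 + (g 0 0 * e.1.2 - g 1 0 * e.1.1) ^ 2

lemma inner_kp (g : G) (e : U) :
    nrm g * (1 - ((kl g).re * (kp e.1).re + (kl g).im * (kp e.1).im)) = 2 * vl g e := by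
  have h1 := nrm_pos g
  have h2 := e.2
  simp only [kl, kp, vl, h2]
  field_simp
  simp only [nrm]
  linear_combination (-(g 0 0 ^ 2 + g 0 1 ^ 2 + g 1 0 ^ 2 + g 1 1 ^ 2)) * h2

lemma sq_kp (e : U) : (kp e.1).re ^ 2 + (kp e.1).im ^ 2 = 1 := by
  have h2 := e.2
  simp only [kp, h2]
  have : (e.1.1 ^ 2 + e.1.2 ^ 2) ^ 2 = 1 := by rw [h2]; norm_num
  linear_combination this

lemma approx_aux (g : G) (hg : g 0 1 ^ 2 + g 1 1 ^ 2 ≤ g 0 0 ^ 2 + g 1 0 ^ 2) :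
    ∃ (e : U) (m : ℕ), dd g (M e m) ≤ 9 ∧ 4 ^ m ≤ nrm g ∧ nrm g ≤ 8 * 4 ^ m ∧
      ∀ e0 : U, nrm g * dt e0.1 e.1 ^ 2 ≤ 2 * (g 0 0 * e0.1.2 - g 1 0 * e0.1.1) ^ 2 := by
  have h2 := two_le_nrm g
  have hd := det_eq g
  have hn : nrm g = g 0 0 ^ 2 + g 0 1 ^ 2 + g 1 0 ^ 2 + g 1 1 ^ 2 := rfl
  obtain ⟨T, hT0, hT⟩ : ∃ T : ℝ, 0 ≤ T ∧ T ^ 2 = g 0 0 ^ 2 + g 1 0 ^ 2 :=
    ⟨√(g 0 0 ^ 2 + g 1 0 ^ 2), Real.sqrt_nonneg _, Real.sq_sqrt (by positivity)⟩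
  have hT1 : 1 ≤ T := by nlinarith
  have hTp : 0 < T := by linarith
  obtain ⟨m, hm1, hm2⟩ := exists_nat_pow_near hT1 (one_lt_two (α := ℝ))
  have ht : (0 : ℝ) < 2 ^ m := by positivity
  rw [pow_succ] at hm2
  refine ⟨⟨(g 0 0 / T, g 1 0 / T), by field_simp; linarith⟩, m, ?_, ?_, ?_, ?_⟩
  · rw [dd_eq]
    simp only [M00, M01, M10, M11]
    generalize (2 : ℝ) ^ m = t at *
    have e1 : g 1 1 * (t * (g 0 0 / T)) - g 0 1 * (t * (g 1 0 / T)) = t / T := by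
      field_simp; linear_combination hd
    have e2 : g 1 1 * (-(g 1 0 / T) / t) - g 0 1 * (g 0 0 / T / t)
        = -(g 0 0 * g 0 1 + g 1 0 * g 1 1) / (T * t) := by field_simp; ring
    have e3 : g 0 0 * (t * (g 1 0 / T)) - g 1 0 * (t * (g 0 0 / T)) = 0 := by ring
    have e4 : g 0 0 * (g 0 0 / T / t) - g 1 0 * (-(g 1 0 / T) / t) = T / t := by
      field_simp; linarith
    rw [e1, e2, e3, e4]
    have b1 : (t / T) ^ 2 ≤ 1 := by
      rw [div_pow, div_le_one (by positivity)]; nlinarith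
    have b4 : (T / t) ^ 2 ≤ 4 := by
      rw [div_pow, div_le_iff₀ (by positivity)]; nlinarith
    have b2 : (-(g 0 0 * g 0 1 + g 1 0 * g 1 1) / (T * t)) ^ 2 ≤ 4 := by
      rw [div_pow, div_le_iff₀ (by positivity)]
      have c1 : (g 0 0 * g 0 1 + g 1 0 * g 1 1) ^ 2 ≤ T ^ 2 * T ^ 2 := by
        have : (g 0 0 * g 0 1 + g 1 0 * g 1 1) ^ 2 ≤
            (g 0 0 ^ 2 + g 1 0 ^ 2) * (g 0 1 ^ 2 + g 1 1 ^ 2) := by
          nlinarith [sq_nonneg (g 0 0 * g 1 1 - g 1 0 * g 0 1)]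
        rw [← hT] at this hg
        exact this.trans (mul_le_mul_of_nonneg_left hg (by positivity))
      have c2 : T ^ 2 ≤ 4 * t ^ 2 := by nlinarith
      have c3 : T ^ 2 * T ^ 2 ≤ T ^ 2 * (4 * t ^ 2) := mul_le_mul_of_nonneg_left c2 (by positivity)
      nlinarith
    linarith
  · rw [four_pow]; nlinarith [sq_nonneg (g 0 1), sq_nonneg (g 1 1)]
  · rw [four_pow]; nlinarith
  · intro e0
    have e1 : (g 0 0 * e0.1.2 - g 1 0 * e0.1.1) ^ 2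
        = T ^ 2 * dt e0.1 (g 0 0 / T, g 1 0 / T) ^ 2 := by
      simp only [dt]; field_simp; ring
    rw [e1]
    have : nrm g ≤ 2 * T ^ 2 := by linarith
    nlinarith [mul_le_mul_of_nonneg_right this (sq_nonneg (dt e0.1 (g 0 0 / T, g 1 0 / T)))]

/-- quarter turn -/
def J : G := ⟨!![0, -1; 1, 0], by simp [Matrix.det_fin_two_of]⟩

lemma approx (g : G) :
    ∃ (e : U) (m : ℕ), dd g (M e m) ≤ 18 ∧ 4 ^ m ≤ nrm g ∧ nrm g ≤ 8 * 4 ^ m ∧
      ∀ e0 : U, nrm g * dt e0.1 e.1 ^ 2 ≤ 2 * vl g e0 := by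
  by_cases hg : g 0 1 ^ 2 + g 1 1 ^ 2 ≤ g 0 0 ^ 2 + g 1 0 ^ 2
  · obtain ⟨e, m, h1, h2, h3, h4⟩ := approx_aux g hg
    refine ⟨e, m, by linarith, h2, h3, fun e0 => (h4 e0).trans ?_⟩
    simp only [vl]
    nlinarith [sq_nonneg (g 1 1 * e0.1.1 - g 0 1 * e0.1.2)]
  · have j00 : J 0 0 = 0 := rfl
    have j01 : J 0 1 = -1 := rfl
    have j10 : J 1 0 = 1 := rfl
    have j11 : J 1 1 = 0 := rfl
    have a00 : (g * J) 0 0 = g 0 1 := by rw [mul_ent, j00, j10]; ring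
    have a01 : (g * J) 0 1 = - g 0 0 := by rw [mul_ent, j01, j11]; ring
    have a10 : (g * J) 1 0 = g 1 1 := by rw [mul_ent, j00, j10]; ring
    have a11 : (g * J) 1 1 = - g 1 0 := by rw [mul_ent, j01, j11]; ring
    have hn : nrm (g * J) = nrm g := by simp only [nrm, a00, a01, a10, a11]; ring
    have hJ : dd g (g * J) = 2 := by
      rw [dd, inv_mul_cancel_left]; simp only [nrm, j00, j01, j10, j11]; norm_num
    obtain ⟨e, m, h1, h2, h3, h4⟩ := approx_aux (g * J) (by rw [a00, a01, a10, a11]; nlinarith)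
    rw [hn] at h2 h3 h4
    refine ⟨e, m, ?_, h2, h3, fun e0 => (h4 e0).trans ?_⟩
    · have := dd_tri g (g * J) (M e m)
      rw [hJ] at this
      linarith
    · rw [a00, a10]
      simp only [vl]
      nlinarith [sq_nonneg (g 0 0 * e0.1.2 - g 1 0 * e0.1.1)]

variable {Γ : Subgroup G}

/-- cocompactness data -/
structure Co (Γ : Subgroup G) where
  ρ : G → Γ
  C : ℝ
  le : ∀ A : G, dd (ρ A : G) A ≤ C

lemma exists_co (hΓ : Hyp Γ) : Nonempty (Co Γ) := by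
  obtain ⟨C, hC⟩ := hΓ.cocpt
  choose ρ h1 h2 using hC
  refine ⟨⟨fun A => ⟨ρ A, h1 A⟩, 4 * C ^ 2, fun A => ?_⟩⟩
  have key : ∀ i j, (((ρ A)⁻¹ * A : G) i j) ^ 2 ≤ C ^ 2 := fun i j =>
    sq_le_sq' (abs_le.1 (h2 A i j)).1 (abs_le.1 (h2 A i j)).2
  have := key 0 0
  have := key 0 1
  have := key 1 0
  have := key 1 1
  simp only [dd, nrm]
  linarith

lemma Co.one_le (c : Co Γ) : 1 ≤ c.C := by
  have h1 := c.le 1
  have h2 : 2 ≤ dd (c.ρ 1 : G) 1 := two_le_nrm _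
  linarith

lemma Co.left (c : Co Γ) (g A : G) (h : dd g A ≤ 18) : dd g (c.ρ A) ≤ 18 * c.C ^ 2 := by
  have h1 := dd_tri g A (c.ρ A)
  have h2 := c.le A
  rw [dd_comm] at h2
  have h3 := c.one_le
  have h4 : dd g A * dd A (c.ρ A) ≤ 18 * c.C :=
    mul_le_mul h h2 (dd_pos _ _).le (by norm_num)
  nlinarith

lemma Co.both (c : Co Γ) (A B : G) (h : dd A B ≤ 18) : dd (c.ρ A) (c.ρ B) ≤ 18 * c.C ^ 2 := by
  have h1 := dd_tri (c.ρ A) A (c.ρ B)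
  have h0 := dd_tri A B (c.ρ B)
  have h2 := c.le B
  rw [dd_comm] at h2
  have h3 := c.one_le
  have h4 : dd A B * dd B (c.ρ B) ≤ 18 * c.C :=
    mul_le_mul h h2 (dd_pos _ _).le (by norm_num)
  have h5 : dd (c.ρ A) A * dd A (c.ρ B) ≤ c.C * (18 * c.C) :=
    mul_le_mul (c.le A) (h0.trans h4) (dd_pos _ _).le (by linarith)
  nlinarith

lemma Co.big (c : Co Γ) (e : U) (m : ℕ) : 4 ^ m ≤ c.C * nrm (c.ρ (M e m) : G) := by
  have h1 := le_nrm_M e m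
  have h2 := nrm_le_dd (c.ρ (M e m) : G) (M e m)
  have h3 := mul_le_mul_of_nonneg_left (c.le (M e m)) (nrm_pos (c.ρ (M e m) : G)).le
  linarith

lemma coarse_dd {R : Γ → Γ} (hR : Coarse R) (C : ℝ) :
    ∃ K : ℝ, 1 ≤ K ∧ ∀ g h : Γ, dd (g : G) h ≤ C → dd (R g : G) (R h) ≤ K := by
  obtain ⟨K, hK⟩ := hR C
  refine ⟨max 1 K, le_max_left _ _, fun g h hh => le_trans ?_ (le_max_right _ _)⟩
  exact hK g h hh

/-- upper power law -/
lemma upper (c : Co Γ) {R : Γ → Γ} (hR : Coarse R) :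
    ∃ K K0 : ℝ, 1 ≤ K ∧ 0 < K0 ∧ ∀ h : Γ, ∃ j : ℕ, 4 ^ j ≤ nrm (h : G) ∧
      nrm (R h : G) ≤ K0 * K ^ j := by
  obtain ⟨K, hK1, hK⟩ := coarse_dd hR (18 * c.C ^ 2)
  have hp := nrm_pos (R 1 : G)
  refine ⟨K, nrm (R 1 : G) * K * K, hK1, by positivity, fun h => ?_⟩
  obtain ⟨e, j, h1, h2, -, -⟩ := approx (h : G)
  refine ⟨j, h2, ?_⟩
  have key : ∀ i : ℕ, nrm (R (c.ρ (M e i)) : G) ≤ nrm (R 1 : G) * K * K ^ i := by
    intro i
    induction i with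
    | zero =>
      have a1 := nrm_le_dd (R 1 : G) (R (c.ρ (M e 0)))
      have a2 := hK 1 (c.ρ (M e 0)) (c.left _ _ (by
        rw [OneMemClass.coe_one, dd_one, nrm_M_zero]; norm_num))
      have a3 := mul_le_mul_of_nonneg_left a2 hp.le
      rw [pow_zero, mul_one]
      linarith
    | succ i ih =>
      have a1 := nrm_le_dd (R (c.ρ (M e i)) : G) (R (c.ρ (M e (i + 1))))
      have a2 := hK _ _ (c.both _ _ (dd_M_succ e i))
      have a3 := mul_le_mul ih a2 (dd_pos _ _).le (by positivity)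
      calc _ ≤ _ := a1
        _ ≤ _ := a3
        _ = _ := by ring
  have a1 := nrm_le_dd (R (c.ρ (M e j)) : G) (R h)
  have a2 := hK _ _ (c.left _ _ h1)
  rw [dd_comm] at a2
  have a3 := mul_le_mul (key j) a2 (dd_pos _ _).le (by positivity)
  calc _ ≤ _ := a1
    _ ≤ _ := a3
    _ = _ := by ring

/-- lower power law -/
lemma lower (c : Co Γ) (R : Equiv.Perm Γ) (hR : Coarse R.symm) :
    ∃ a r : ℝ, 0 < a ∧ 0 < r ∧ r < 1 ∧ ∀ (g : Γ) (m : ℕ), 4 ^ m ≤ c.C * nrm (g : G) →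
      1 / nrm (R g : G) ≤ a * r ^ m := by
  obtain ⟨K, K0, hK, hK0, h⟩ := upper c hR
  obtain ⟨A, hA⟩ := pow_unbounded_of_one_lt K (by norm_num : (1 : ℝ) < 4)
  obtain ⟨B, hB⟩ := pow_unbounded_of_one_lt (c.C * K0) (by norm_num : (1 : ℝ) < 4)
  have hA0 : 0 < A := by
    rcases Nat.eq_zero_or_pos A with h0 | h0
    · rw [h0, pow_zero] at hA; linarith
    · exact h0
  have hA1 : (1 : ℝ) ≤ A := by exact_mod_cast hA0
  set r : ℝ := 1 + -(1 / (2 * A)) with hr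
  have hs0 : (0 : ℝ) < 1 / (2 * A) := by positivity
  have hs1 : (1 : ℝ) / (2 * A) ≤ 1 / 2 := by
    apply one_div_le_one_div_of_le <;> linarith
  have hr0 : 0 < r := by linarith
  have hr1 : r < 1 := by linarith
  have hrA : 1 / 4 ≤ r ^ A := by
    have := one_add_mul_le_pow (a := -(1 / (2 * (A : ℝ)))) (by linarith) A
    have e : (A : ℝ) * -(1 / (2 * A)) = -(1 / 2) := by field_simp
    rw [e] at this
    linarith
  refine ⟨1 / r ^ B, r, by positivity, hr0, hr1, fun g m hm => ?_⟩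
  obtain ⟨j, hj1, hj2⟩ := h (R g)
  rw [Equiv.symm_apply_apply] at hj2
  have hC := c.one_le
  have h1 : (4 : ℝ) ^ m ≤ 4 ^ (B + A * j) := by
    calc (4 : ℝ) ^ m ≤ c.C * nrm (g : G) := hm
      _ ≤ c.C * (K0 * K ^ j) := mul_le_mul_of_nonneg_left hj2 (by linarith)
      _ = (c.C * K0) * K ^ j := by ring
      _ ≤ 4 ^ B * (4 ^ A) ^ j := by
          apply mul_le_mul hB.le (pow_le_pow_left₀ (by linarith) hA.le j) (by positivity)
            (by positivity)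
      _ = 4 ^ (B + A * j) := by rw [pow_add, pow_mul]
  have h2 : m ≤ B + A * j := (pow_le_pow_iff_right₀ (by norm_num : (1 : ℝ) < 4)).1 h1
  have h3 : r ^ (B + A * j) ≤ r ^ m := pow_le_pow_of_le_one hr0.le hr1.le h2
  have h4 : (1 / 4 : ℝ) ^ j ≤ (r ^ A) ^ j := pow_le_pow_left₀ (by norm_num) hrA j
  calc 1 / nrm (R g : G) ≤ 1 / 4 ^ j := one_div_le_one_div_of_le (by positivity) hj1
    _ = (1 / 4) ^ j := by rw [one_div_pow]
    _ ≤ (r ^ A) ^ j := h4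
    _ = 1 / r ^ B * r ^ (B + A * j) := by rw [pow_add, pow_mul]; field_simp
    _ ≤ 1 / r ^ B * r ^ m := mul_le_mul_of_nonneg_left h3 (by positivity)

/-- one bounded step far out moves the Klein point very little -/
lemma step (c : Co Γ) (R : Equiv.Perm Γ) (h1 : Coarse R) (h2 : Coarse R.symm) :
    ∃ a r : ℝ, 0 < a ∧ 0 < r ∧ r < 1 ∧
      (∀ (g : Γ) (m : ℕ), 4 ^ m ≤ c.C * nrm (g : G) → 1 / nrm (R g : G) ≤ a * r ^ m) ∧
      ∀ (g h : Γ) (m : ℕ), dd (g : G) h ≤ 18 * c.C ^ 2 → 4 ^ m ≤ c.C * nrm (g : G) →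
        4 ^ m ≤ c.C * nrm (h : G) → dist (kl (R g)) (kl (R h)) ≤ a * r ^ m := by
  obtain ⟨a, r, ha, hr0, hr1, h⟩ := lower c R h2
  obtain ⟨K, hK1, hK⟩ := coarse_dd h1 (18 * c.C ^ 2)
  refine ⟨2 * K * a, r, by positivity, hr0, hr1, fun g m hm => (h g m hm).trans ?_,
    fun g k m hd hg hk => ?_⟩
  · apply mul_le_mul_of_nonneg_right _ (by positivity)
    nlinarith
  · have a1 := dist_kl (R g : G) (R k)
    have a2 := hK g k hd
    have a3 := h g m hg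
    have a4 := h k m hk
    have p1 := nrm_pos (R g : G)
    have p2 := nrm_pos (R k : G)
    have a5 : 1 / nrm (R g : G) * (1 / nrm (R k : G)) ≤ (a * r ^ m) * (a * r ^ m) :=
      mul_le_mul a3 a4 (by positivity) (by positivity)
    have a6 : 4 * dd (R g : G) (R k) / (nrm (R g : G) * nrm (R k : G))
        = 4 * dd (R g : G) (R k) * (1 / nrm (R g : G) * (1 / nrm (R k : G))) := by
      field_simp
    have a7 : 4 * dd (R g : G) (R k) * (1 / nrm (R g : G) * (1 / nrm (R k : G)))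
        ≤ (4 * K ^ 2) * ((a * r ^ m) * (a * r ^ m)) :=
      mul_le_mul (by nlinarith) a5 (by positivity) (by positivity)
    apply (sq_le_sq₀ dist_nonneg (by positivity)).1
    calc _ ≤ _ := a1
      _ = _ := a6
      _ ≤ _ := a7
      _ = _ := by ring

end Pool.Agent.H882Z.SC.Fl
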