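import Pool.Agent.H882Z.SC.Defs

set_option autoImplicit false

namespace Pool.Agent.H882Z.SC

section morse

variable {Γ : Type} [Group Γ] {Ht : Γ → ℝ} {N : Finset Γ} {n : Γ → Γ}

omit [Group Γ] in
lemma morse_wf (hf : ∀ C : ℝ, {g | Ht g ≤ C}.Finite) :
    WellFounded (fun a b : Γ => Ht a < Ht b) := by
  have fin : ∀ b : Γ, {h | Ht h < Ht b}.Finite := fun b =>
    (hf (Ht b)).subset (fun h (hh : Ht h < Ht b) => le_of_lt hh)
  refine Subrelation.wf (r := InvImage (· < ·) (fun g : Γ => {h | Ht h < Ht g}.ncard)) ?_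
    (InvImage.wf _ wellFounded_lt)
  intro a b hab
  refine Set.ncard_lt_ncard ⟨fun h (hh : Ht h < Ht a) => lt_trans hh hab, fun hh => ?_⟩ (fin b)
  exact lt_irrefl (Ht a) (hh hab)

lemma morse_iter (T : Tri0 N n) {u : Γ} (hu : u ∈ N) (k : ℕ) : n^[k] u ∈ N := by
  induction k with
  | zero => exact hu
  | succ k ih => rw [Function.iterate_succ_apply']; exact T.n_mem _ ih

lemma morse_edge (T : Tri0 N n) (M : Morse Ht N n) {Q : Type} [Group Q] {t : Γ → Q}
    (h1 : ∀ u ∈ N, t u⁻¹ = (t u)⁻¹) (h2 : ∀ u ∈ N, t (n u) = t u * t (u⁻¹ * n u))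
    {f : Γ → Q} {g u : Γ} (hu : u ∈ N)
    (Dg : ∀ v ∈ N, Ht (g * v) < Ht g → f (g * v) = f g * t v)
    (Du : ∀ v ∈ N, Ht (g * u * v) < Ht (g * u) → f (g * u * v) = f (g * u) * t v) :
    f (g * u) = f g * t u := by
  rcases lt_trichotomy (Ht (g * u)) (Ht g) with h | h | h
  · exact Dg u hu h
  · have hg : g ≠ 1 := by
      rintro rfl
      have hu1 : u ≠ 1 := fun e => T.one_not_mem (e ▸ hu)
      obtain ⟨v, -, hv⟩ := M.desc u hu1
      rw [one_mul] at h
      exact absurd (M.min (u * v)) (not_le.2 (h ▸ hv))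
    obtain ⟨w, hw, hwl⟩ := M.desc g hg
    have hne : w ≠ u := by rintro rfl; exact absurd h hwl.ne
    rcases M.walk g w hw u hu hne hwl.le h.le (Or.inl hwl) with ⟨k, hk, e, hj⟩ | ⟨k, hk, e, hj⟩
    · obtain ⟨k, rfl⟩ : ∃ j, k = j + 1 := ⟨k - 1, by omega⟩
      have hx : n^[k] w ∈ N := morse_iter T hw k
      have hxl : Ht (g * n^[k] w) < Ht g := by
        rcases Nat.eq_zero_or_pos k with rfl | hk0
        · exact hwl
        · exact hj k hk0 (Nat.lt_succ_self k)
      rw [Function.iterate_succ_apply'] at e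
      generalize n^[k] w = x at hx hxl e
      have a1 := Dg x hx hxl
      have m1 : x⁻¹ * u ∈ N := e ▸ T.tri_mem x hx
      have e1 : g * u * (x⁻¹ * u)⁻¹ = g * x := by group
      have a2 := Du _ (T.inv_mem _ m1) (by rw [e1, h]; exact hxl)
      have a3 := h2 x hx
      rw [e] at a3
      rw [e1, h1 _ m1, a1] at a2
      rw [a3, ← mul_assoc, a2]
      group
    · have hxl : Ht (g * n u) < Ht g := by
        rcases Nat.eq_or_lt_of_le (Nat.succ_le_of_lt hk) with hk1 | hk1
        · subst hk1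
          have e' : n u = w := e
          rw [e']; exact hwl
        · exact hj 1 Nat.one_pos hk1
      have a1 := Dg _ (T.n_mem u hu) hxl
      have e1 : g * u * (u⁻¹ * n u) = g * n u := by group
      have a2 := Du _ (T.tri_mem u hu) (by rw [e1, h]; exact hxl)
      rw [e1, a1, h2 u hu, ← mul_assoc] at a2
      exact (mul_right_cancel a2).symm
  · have e1 : g * u * u⁻¹ = g := by group
    have a2 := Du _ (T.inv_mem u hu) (by rw [e1]; exact h)
    rw [e1, h1 u hu] at a2
    rw [a2]
    group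

lemma morse_down (T : Tri0 N n) (M : Morse Ht N n) (wf : WellFounded (fun a b : Γ => Ht a < Ht b))
    {Q : Type} [Group Q] {t : Γ → Q}
    (h1 : ∀ u ∈ N, t u⁻¹ = (t u)⁻¹) (h2 : ∀ u ∈ N, t (n u) = t u * t (u⁻¹ * n u))
    {f : Γ → Q}
    (hf : ∀ g, g ≠ 1 → ∃ w ∈ N, Ht (g * w) < Ht g ∧ f (g * w) = f g * t w) (g : Γ) :
    ∀ v ∈ N, Ht (g * v) < Ht g → f (g * v) = f g * t v := by
  induction g using wf.induction with
  | _ g ih =>
    intro u hu hul
    have hg : g ≠ 1 := by
      rintro rfl
      exact absurd (M.min _) (not_le.2 hul)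
    obtain ⟨w, hw, hwl, hfw⟩ := hf g hg
    have step : ∀ x ∈ N, Ht (g * x) < Ht g → Ht (g * n x) < Ht g →
        f (g * n x) * (t (n x))⁻¹ = f (g * x) * (t x)⁻¹ := by
      intro x hx l1 l2
      have e1 : g * x * (x⁻¹ * n x) = g * n x := by group
      have a := morse_edge T M h1 h2 (f := f) (g := g * x) (T.tri_mem x hx) (ih _ l1)
        (by rw [e1]; exact ih _ l2)
      rw [e1] at a
      rw [a, h2 x hx]
      group
    have walk : ∀ a ∈ N, ∀ b, Ht (g * a) < Ht g → Ht (g * b) < Ht g → Walk Ht n g a b →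
        f (g * b) * (t b)⁻¹ = f (g * a) * (t a)⁻¹ := by
      rintro a ha b la lb ⟨k, -, e, hj⟩
      have low : ∀ j, j ≤ k → Ht (g * n^[j] a) < Ht g := by
        intro j hjk
        rcases Nat.eq_zero_or_pos j with rfl | hj0
        · exact la
        rcases Nat.eq_or_lt_of_le hjk with rfl | hjk
        · rw [e]; exact lb
        · exact hj j hj0 hjk
      have all : ∀ j, j ≤ k → f (g * n^[j] a) * (t (n^[j] a))⁻¹ = f (g * a) * (t a)⁻¹ := by
        intro j
        induction j with
        | zero => intro _; rfl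
        | succ j ihj =>
          intro hjk
          have l2 := low (j + 1) hjk
          rw [Function.iterate_succ_apply'] at l2 ⊢
          rw [step _ (morse_iter T ha j) (low j (by omega)) l2]
          exact ihj (by omega)
      have := all k le_rfl
      rwa [e] at this
    have fin : f (g * u) * (t u)⁻¹ = f (g * w) * (t w)⁻¹ := by
      by_cases hne : w = u
      · rw [hne]
      rcases M.walk g w hw u hu hne hwl.le hul.le (Or.inl hwl) with h | h
      · exact walk w hw u hwl hul h
      · exact (walk u hu w hul hwl h).symm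
    rw [hfw, mul_inv_cancel_right] at fin
    rw [← fin]
    group

end morse

theorem morse : MorseStmt := by
  intro Γ _ Ht N n T M hfin
  have wf := morse_wf hfin
  constructor
  · rw [eq_top_iff]
    intro g _
    clear ‹g ∈ ⊤›
    induction g using wf.induction with
    | _ g ih =>
      by_cases hg : g = 1
      · rw [hg]; exact one_mem _
      obtain ⟨u, hu, hl⟩ := M.desc g hg
      have a1 := ih _ hl
      have a2 : u ∈ Subgroup.closure (N : Set Γ) := Subgroup.subset_closure hu
      have := mul_mem a1 (inv_mem a2)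
      rwa [mul_inv_cancel_right] at this
  · intro Q _ t h1 h2
    classical
    choose c hc using M.desc
    let F : ∀ g : Γ, (∀ h : Γ, Ht h < Ht g → Q) → Q := fun g rc =>
      if hg : g = 1 then 1 else rc (g * c g hg) (hc g hg).2 * (t (c g hg))⁻¹
    let f : Γ → Q := wf.fix F
    have hfe : ∀ g, f g = F g (fun h _ => f h) := fun g => wf.fix_eq F g
    have hf : ∀ g, g ≠ 1 → ∃ w ∈ N, Ht (g * w) < Ht g ∧ f (g * w) = f g * t w := by
      intro g hg
      refine ⟨c g hg, (hc g hg).1, (hc g hg).2, ?_⟩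
      rw [hfe g]
      simp only [F, dif_neg hg]
      group
    refine ⟨f, ?_, fun g u hu => ?_⟩
    · rw [hfe 1]; simp only [F, dif_pos]
    · exact morse_edge T M h1 h2 hu (morse_down T M wf h1 h2 hf g)
        (morse_down T M wf h1 h2 hf (g * u))

end Pool.Agent.H882Z.SC
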